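import Pool.Agent.H821.ST.Mom
import Pool.Agent.H423R2.RZL.HBLS
import Pool.Agent.Helper368_LD.Kchi

/-! Large sieve inequalities for quadratic characters over primes. -/

set_option autoImplicit false

namespace Pool.Agent.H821.ST

open Finset
open Pool.Agent.H306R2.RZ (sqf osf js LSB)

theorem duality {α β : Type} (I : Finset α) (J : Finset β) (χ : β → α → ℝ) (c : α → ℝ) (Δ : ℝ)
    (hΔ0 : 0 ≤ Δ) (hΔ : ∀ D ∈ J, ∑ D' ∈ J, |∑ n ∈ I, χ D n * χ D' n| ≤ Δ) :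
    ∑ D ∈ J, (∑ n ∈ I, c n * χ D n) ^ 2 ≤ Δ * ∑ n ∈ I, (c n) ^ 2 := by
  set z : β → ℝ := fun D => ∑ n ∈ I, c n * χ D n with hz
  set Z : ℝ := ∑ D ∈ J, z D ^ 2 with hZ
  have hZ0 : 0 ≤ Z := sum_nonneg fun _ _ => sq_nonneg _
  set w : α → ℝ := fun n => ∑ D ∈ J, z D * χ D n with hw
  have h1 : Z = ∑ n ∈ I, c n * w n := by
    rw [hZ, hw]
    simp only [mul_sum]
    rw [sum_comm]
    refine sum_congr rfl fun D _ => ?_
    rw [sq]
    conv_lhs => rw [hz]
    simp only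
    rw [mul_sum]
    exact sum_congr rfl fun n _ => by ring
  have h2 : Z ^ 2 ≤ (∑ n ∈ I, (c n) ^ 2) * ∑ n ∈ I, (w n) ^ 2 := by
    rw [h1]
    exact sum_mul_sq_le_sq_mul_sq I c w
  have h3 : ∑ n ∈ I, (w n) ^ 2 ≤ Δ * Z := by
    have h4 : ∑ n ∈ I, (w n) ^ 2 =
        ∑ D ∈ J, ∑ D' ∈ J, z D * z D' * ∑ n ∈ I, χ D n * χ D' n := by
      have h5 : ∀ n, (w n) ^ 2 = ∑ D ∈ J, ∑ D' ∈ J, z D * z D' * (χ D n * χ D' n) := by
        intro n
        rw [hw, sq]
        simp only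
        rw [sum_mul_sum]
        exact sum_congr rfl fun D _ => sum_congr rfl fun D' _ => by ring
      simp_rw [h5]
      rw [sum_comm]
      refine sum_congr rfl fun D _ => ?_
      rw [sum_comm]
      exact sum_congr rfl fun D' _ => (mul_sum I _ (z D * z D')).symm
    rw [h4]
    set G : β → β → ℝ := fun D D' => |∑ n ∈ I, χ D n * χ D' n| with hG
    have hsym : ∀ D D', G D D' = G D' D := by
      intro D D'
      rw [hG]
      simp only
      congr 1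
      exact sum_congr rfl fun n _ => by ring
    have h6 : ∀ D ∈ J, ∀ D' ∈ J, z D * z D' * ∑ n ∈ I, χ D n * χ D' n ≤
        (1 / 2) * (z D ^ 2 * G D D') + (1 / 2) * (z D' ^ 2 * G D' D) := by
      intro D _ D' _
      rw [hsym D' D]
      have h7 : z D * z D' * ∑ n ∈ I, χ D n * χ D' n ≤ |z D * z D'| * G D D' := by
        refine (le_abs_self _).trans ?_
        rw [abs_mul]
      have h8 : |z D * z D'| ≤ (1 / 2) * z D ^ 2 + (1 / 2) * z D' ^ 2 := by
        rw [abs_mul]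
        nlinarith [sq_nonneg (|z D| - |z D'|), sq_abs (z D), sq_abs (z D')]
      have h9 : 0 ≤ G D D' := abs_nonneg _
      nlinarith
    refine (sum_le_sum fun D hD => sum_le_sum fun D' hD' => h6 D hD D' hD').trans ?_
    simp_rw [sum_add_distrib]
    have h10 : ∑ D ∈ J, ∑ D' ∈ J, (1 / 2) * (z D' ^ 2 * G D' D) =
        ∑ D ∈ J, ∑ D' ∈ J, (1 / 2) * (z D ^ 2 * G D D') := sum_comm
    rw [h10, ← two_mul, mul_sum]
    have h11 : ∀ D ∈ J, 2 * ∑ D' ∈ J, (1 / 2) * (z D ^ 2 * G D D') ≤ Δ * z D ^ 2 := by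
      intro D hD
      have h12 : 2 * ∑ D' ∈ J, (1 / 2) * (z D ^ 2 * G D D') = z D ^ 2 * ∑ D' ∈ J, G D D' := by
        rw [mul_sum, mul_sum]
        exact sum_congr rfl fun D' _ => by ring
      rw [h12, mul_comm Δ]
      exact mul_le_mul_of_nonneg_left (hΔ D hD) (sq_nonneg _)
    refine (sum_le_sum h11).trans ?_
    rw [hZ, mul_sum]
  by_cases h0 : Z = 0
  · rw [h0]
    exact mul_nonneg hΔ0 (sum_nonneg fun _ _ => sq_nonneg _)
  · have hZp : 0 < Z := lt_of_le_of_ne hZ0 (Ne.symm h0)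
    have hc0 : 0 ≤ ∑ n ∈ I, (c n) ^ 2 := sum_nonneg fun _ _ => sq_nonneg _
    have h4 : Z ^ 2 ≤ (∑ n ∈ I, (c n) ^ 2) * (Δ * Z) := h2.trans (mul_le_mul_of_nonneg_left h3 hc0)
    have h5 : Z * Z ≤ (Δ * ∑ n ∈ I, (c n) ^ 2) * Z := by nlinarith
    exact le_of_mul_le_mul_right h5 hZp

theorem eq_of_isSquare_mul {a b : ℕ} (ha : Squarefree a) (hb : Squarefree b)
    (h : IsSquare (a * b)) : a = b := by
  have key : ∀ a b : ℕ, Squarefree a → Squarefree b → IsSquare (a * b) → a ∣ b := by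
    intro a b ha hb h
    obtain ⟨c, hc⟩ := h
    have h1 : a ∣ c := by
      have h2 : a ∣ c ^ 2 := ⟨b, by rw [sq, ← hc]⟩
      exact (ha.dvd_pow_iff_dvd two_ne_zero).1 h2
    obtain ⟨e, rfl⟩ := h1
    have ha0 : 0 < a := Nat.pos_of_ne_zero ha.ne_zero
    have h3 : b = a * (e * e) := by
      apply Nat.eq_of_mul_eq_mul_left ha0
      rw [hc]; ring
    exact ⟨e * e, h3⟩
  exact Nat.dvd_antisymm (key a b ha hb h) (key b a hb ha (by rwa [mul_comm]))

/-- odd numbers up to `N` -/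
def od (N : ℕ) : Finset ℕ := (Icc 1 N).filter fun n => Odd n

theorem mem_sqf {X D : ℕ} : D ∈ sqf X ↔ (1 ≤ D ∧ D ≤ X) ∧ Squarefree D := by
  unfold sqf
  rw [mem_filter, mem_Icc]

theorem gram_le {X D D' : ℕ} (hD : D ∈ sqf X) (hD' : D' ∈ sqf X) (h : D ≠ D') (N : ℕ) :
    |∑ n ∈ od N, jr (D : ℤ) n * jr (D' : ℤ) n| ≤ 32 * (X : ℝ) ^ 2 := by
  rw [mem_sqf] at hD hD'
  have hk : D * D' ≠ 0 := Nat.mul_ne_zero (by omega) (by omega)
  have hs : ¬ IsSquare (D * D') := fun h' => h (eq_of_isSquare_mul hD.2 hD'.2 h')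
  have h1 := Pool.Agent.Helper368_LD.kro_sum_le hk hs N
  have h2 : ∑ l ∈ (Finset.Icc 1 N).filter (fun l => Odd l),
      ((jacobiSym ((D * D' : ℕ) : ℤ) l : ℤ) : ℂ) =
      ((∑ n ∈ od N, jr (D : ℤ) n * jr (D' : ℤ) n : ℝ) : ℂ) := by
    unfold od jr
    push_cast
    refine sum_congr rfl fun n _ => ?_
    rw [jacobiSym.mul_left]
    push_cast
    rfl
  rw [h2, Complex.norm_real, Real.norm_eq_abs] at h1
  refine h1.trans ?_
  have hX1 : (1 : ℝ) ≤ X := by exact_mod_cast (by omega : 1 ≤ X)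
  have hk1 : (1 : ℝ) ≤ ((D * D' : ℕ) : ℝ) := by exact_mod_cast Nat.one_le_iff_ne_zero.2 hk
  have hkX : ((D * D' : ℕ) : ℝ) ≤ (X : ℝ) ^ 2 := by
    have : D * D' ≤ X * X := Nat.mul_le_mul hD.1.2 hD'.1.2
    rw [sq]
    exact_mod_cast this
  have h3 : √((D * D' : ℕ) : ℝ) ≤ X := by
    rw [show (X : ℝ) = √((X : ℝ) ^ 2) by rw [Real.sqrt_sq (by linarith)]]
    exact Real.sqrt_le_sqrt hkX
  have h4 : Real.log (4 * ((D * D' : ℕ) : ℝ)) ≤ 4 * X - 1 := by
    have h5 : (0 : ℝ) < 4 * ((D * D' : ℕ) : ℝ) := by linarith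
    have h6 : Real.log (4 * ((D * D' : ℕ) : ℝ)) = 2 * Real.log (√(4 * ((D * D' : ℕ) : ℝ))) := by
      rw [Real.log_sqrt h5.le]; ring
    have h7 := Real.log_le_sub_one_of_pos (Real.sqrt_pos.2 h5)
    have h8 : √(4 * ((D * D' : ℕ) : ℝ)) ≤ 2 * X := by
      rw [show (2 * X : ℝ) = √((2 * X : ℝ) ^ 2) by rw [Real.sqrt_sq (by linarith)]]
      apply Real.sqrt_le_sqrt
      nlinarith
    rw [h6]
    linarith
  have h9 : 0 ≤ √((D * D' : ℕ) : ℝ) := Real.sqrt_nonneg _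
  have h10 : 0 ≤ 1 + Real.log (4 * ((D * D' : ℕ) : ℝ)) := by
    have := Real.log_nonneg (by linarith : (1 : ℝ) ≤ 4 * ((D * D' : ℕ) : ℝ))
    linarith
  calc 8 * √((D * D' : ℕ) : ℝ) * (1 + Real.log (4 * ((D * D' : ℕ) : ℝ)))
      ≤ 8 * X * (4 * X) := by
        apply mul_le_mul _ (by linarith) h10 (by linarith)
        linarith
    _ = 32 * (X : ℝ) ^ 2 := by ring

/-- the elementary large sieve -/
theorem ls3 (a : ℕ → ℝ) (B : ℝ) (ha : ∀ p, |a p| ≤ B) (N X : ℕ) :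
    ∑ D ∈ sqf X, (S a N (D : ℤ)) ^ 2 ≤ (N + 32 * (X : ℝ) ^ 3) * ((op N).card * B ^ 2) := by
  classical
  have hB : 0 ≤ B := (abs_nonneg _).trans (ha 0)
  set c : ℕ → ℝ := fun n => if n ∈ op N then a n else 0 with hc
  have hsub : op N ⊆ od N := by
    intro p hp
    unfold od
    rw [mem_filter, mem_Icc]
    rw [mem_op] at hp
    exact ⟨⟨hp.1.one_lt.le, hp.2.2⟩, hp.1.odd_of_ne_two hp.2.1⟩
  have hS : ∀ D : ℤ, S a N D = ∑ n ∈ od N, c n * jr D n := by
    intro D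
    unfold S
    rw [← sum_subset hsub]
    · refine sum_congr rfl fun n hn => ?_
      rw [hc]; simp only; rw [if_pos hn]
    · intro n _ hn
      rw [hc]; simp only; rw [if_neg hn, zero_mul]
  have h1 := duality (od N) (sqf X) (fun (D : ℕ) (n : ℕ) => jr (D : ℤ) n) c (N + 32 * (X : ℝ) ^ 3)
    (by positivity) (by
      intro D hD
      rw [← add_sum_erase _ _ hD]
      refine add_le_add ?_ ?_
      · refine (abs_sum_le_sum_abs _ _).trans ?_
        have h2 : ∀ n ∈ od N, |jr (D : ℤ) n * jr (D : ℤ) n| ≤ 1 := by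
          intro n _
          rw [abs_mul]
          exact mul_le_one₀ (jr_abs _ _) (abs_nonneg _) (jr_abs _ _)
        refine (sum_le_sum h2).trans ?_
        rw [sum_const, nsmul_eq_mul, mul_one]
        have : (od N).card ≤ N := by
          unfold od
          refine (card_filter_le _ _).trans ?_
          rw [Nat.card_Icc]; omega
        exact_mod_cast this
      · have h2 : ∀ D' ∈ (sqf X).erase D, |∑ n ∈ od N, jr (D : ℤ) n * jr (D' : ℤ) n| ≤
            32 * (X : ℝ) ^ 2 := by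
          intro D' hD'
          rw [mem_erase] at hD'
          exact gram_le hD hD'.2 (Ne.symm hD'.1) N
        refine (sum_le_sum h2).trans ?_
        rw [sum_const, nsmul_eq_mul]
        have h3 : ((sqf X).erase D).card ≤ X := by
          refine (card_erase_le).trans ?_
          unfold sqf
          refine (card_filter_le _ _).trans ?_
          rw [Nat.card_Icc]; omega
        have h4 : ((((sqf X).erase D).card : ℕ) : ℝ) ≤ X := by exact_mod_cast h3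
        calc ((((sqf X).erase D).card : ℕ) : ℝ) * (32 * (X : ℝ) ^ 2) ≤ X * (32 * (X : ℝ) ^ 2) := by
              gcongr
          _ = 32 * (X : ℝ) ^ 3 := by ring)
  simp_rw [hS]
  refine h1.trans ?_
  refine mul_le_mul_of_nonneg_left ?_ (by positivity)
  have h5 : ∑ n ∈ od N, (c n) ^ 2 = ∑ n ∈ op N, (a n) ^ 2 := by
    rw [← sum_subset hsub]
    · refine sum_congr rfl fun n hn => ?_
      rw [hc]; simp only; rw [if_pos hn]
    · intro n _ hn
      rw [hc]; simp only; rw [if_neg hn]; norm_num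
  rw [h5]
  refine (sum_le_card_nsmul _ _ (B ^ 2) fun n _ => ?_).trans (le_of_eq (nsmul_eq_mul _ _))
  rw [← sq_abs]
  exact pow_le_pow_left₀ (abs_nonneg _) (ha n) 2

/-- Heath-Brown's large sieve over primes -/
theorem ls2 (ε : ℝ) (hε : 0 < ε) : ∃ C : ℝ, 0 < C ∧ ∀ (a : ℕ → ℝ) (B : ℝ), (∀ p, |a p| ≤ B) →
    ∀ N X : ℕ, 1 ≤ N → 1 ≤ X → ∑ D ∈ sqf X, (S a N (D : ℤ)) ^ 2 ≤
      C * ((X : ℝ) * N) ^ ε * (X + N) * ((op N).card * B ^ 2) := by
  classical
  obtain ⟨C, hC, h⟩ := Pool.Agent.H423R2.RZL.HBLSn.HBLS ε hε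
  refine ⟨C, hC, fun a B ha N X hN hX => ?_⟩
  set c : ℕ → ℂ := fun n => if n ∈ op N then (a n : ℂ) else 0 with hc
  have hsub : op N ⊆ osf N := by
    intro p hp
    unfold osf
    rw [mem_filter, mem_Icc]
    rw [mem_op] at hp
    exact ⟨⟨hp.1.one_lt.le, hp.2.2⟩, hp.1.odd_of_ne_two hp.2.1, hp.1.prime.squarefree⟩
  have hS : ∀ D : ℕ, (S a N (D : ℤ)) ^ 2 = ‖∑ n ∈ osf N, c n * (js (D : ℤ) n : ℂ)‖ ^ 2 := by
    intro D
    have h1 : ∑ n ∈ osf N, c n * (js (D : ℤ) n : ℂ) = ((S a N (D : ℤ) : ℝ) : ℂ) := by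
      unfold S
      rw [← sum_subset hsub]
      · push_cast
        refine sum_congr rfl fun n hn => ?_
        rw [hc]; simp only; rw [if_pos hn]
        rfl
      · intro n _ hn
        rw [hc]; simp only; rw [if_neg hn, zero_mul]
    rw [h1, Complex.norm_real, Real.norm_eq_abs, sq_abs]
  have h1 := h X N hX hN c
  simp_rw [hS]
  refine h1.trans ?_
  refine mul_le_mul_of_nonneg_left ?_ (by positivity)
  have h5 : ∑ n ∈ osf N, ‖c n‖ ^ 2 = ∑ n ∈ op N, (a n) ^ 2 := by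
    rw [← sum_subset hsub]
    · refine sum_congr rfl fun n hn => ?_
      rw [hc]; simp only; rw [if_pos hn, Complex.norm_real, Real.norm_eq_abs, sq_abs]
    · intro n _ hn
      rw [hc]; simp only; rw [if_neg hn]; norm_num
  rw [h5]
  refine (sum_le_card_nsmul _ _ (B ^ 2) fun n _ => ?_).trans (le_of_eq (nsmul_eq_mul _ _))
  rw [← sq_abs]
  exact pow_le_pow_left₀ (abs_nonneg _) (ha n) 2

theorem count_of_ls (a : ℕ → ℝ) (N X : ℕ) (M : ℝ) (h : ∑ D ∈ sqf X, (S a N (D : ℤ)) ^ 2 ≤ M)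
    (t : ℝ) (ht : 0 < t) :
    (((sqf X).filter fun D : ℕ => t < |S a N (D : ℤ)|).card : ℝ) ≤ M / t ^ 2 := by
  classical
  rw [le_div_iff₀ (by positivity), ← nsmul_eq_mul]
  refine le_trans ?_ h
  refine (card_nsmul_le_sum _ (fun D : ℕ => (S a N (D : ℤ)) ^ 2) _ fun D hD => ?_).trans
      (sum_le_sum_of_subset_of_nonneg (filter_subset _ _) fun D _ _ => sq_nonneg _)
  rw [mem_filter] at hD
  rw [← sq_abs (S a N (D : ℤ))]
  exact pow_le_pow_left₀ ht.le hD.2.le 2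

end Pool.Agent.H821.ST
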