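import Pool.Agent.H821.ST.Scale

/-! The exceptional set of integers of both signs. -/

set_option autoImplicit false

namespace Pool.Agent.H821.ST

open Finset Filter Topology
open Pool.Agent.H306R2.RZ (sqf)

/-- a large value at some scale -/
def Large (u : ℕ → ℝ) (a : ℕ → ℝ) (η A c : ℝ) (D : ℤ) : Prop :=
  ∃ N : ℕ, (Real.log |(D : ℝ)|) ^ A ≤ N ∧ Real.log N ≤ |(D : ℝ)| ^ c ∧ η * u N < |S a N D|

/-- the positive ones up to `X` -/
noncomputable def pos (u : ℕ → ℝ) (a : ℕ → ℝ) (η A c : ℝ) (X : ℕ) : Finset ℕ :=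
  open Classical in (sqf X).filter fun D : ℕ => Large u a η A c (D : ℤ)

theorem pos_bound (u : ℕ → ℝ) (hu : Tendsto (fun N : ℕ => u N * Real.log N / N) atTop (𝓝 1))
    (A c η B : ℝ) (hA : 1 < A) (hc0 : 0 < c) (hc : c < 1 / 2) (hη : 0 < η) (hB : 0 < B) :
    ∃ δ : ℝ, 0 < δ ∧ δ < 1 ∧ ∃ C : ℝ, 0 < C ∧ ∀ a : ℕ → ℝ, Cond u B a → ∀ X : ℕ,
      ((pos u a η A c X).card : ℝ) ≤ C * (X : ℝ) ^ (1 - δ) := by
  classical
  set A' : ℝ := (1 + A) / 2 with hA'
  have hA'1 : 1 < A' := by rw [hA']; linarith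
  have hA'A : A' < A := by rw [hA']; linarith
  obtain ⟨δ, hδ0, hδ1, C, hC, h⟩ := scales u hu A' c η B hA'1 hc0 hc hη hB
  have hA0 : 0 < A := by linarith
  have hlim : ∀ᶠ X : ℕ in atTop, (2 : ℝ) ^ A ≤ (Real.log X) ^ (A - A') := by
    have h1 : Tendsto (fun X : ℕ => (Real.log X) ^ (A - A')) atTop atTop :=
      (tendsto_rpow_atTop (by linarith)).comp
        (Real.tendsto_log_atTop.comp tendsto_natCast_atTop_atTop)
    exact h1.eventually_ge_atTop _
  obtain ⟨X₀, hX₀⟩ := eventually_atTop.1 hlim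
  set q : ℝ := (1 / 2 : ℝ) ^ (1 - δ) with hq
  have hq1 : q < 1 := Real.rpow_lt_one (by norm_num) (by norm_num) (by linarith)
  have hq0 : 0 < q := by positivity
  refine ⟨δ, hδ0, hδ1, C / (1 - q) + (X₀ + 4), by
    have : 0 < 1 - q := by linarith
    positivity, fun a ha X => ?_⟩
  set C' : ℝ := C / (1 - q) + (X₀ + 4) with hC'
  have h1q : 0 < 1 - q := by linarith
  have hC'C : C ≤ C' * (1 - q) := by
    rw [hC', add_mul, div_mul_cancel₀ _ h1q.ne']
    have : 0 ≤ ((X₀ : ℝ) + 4) * (1 - q) := by positivity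
    linarith
  have hC'X : (X₀ : ℝ) + 4 ≤ C' := by
    rw [hC']
    have : 0 ≤ C / (1 - q) := by positivity
    linarith
  have hC'0 : 0 ≤ C' := le_trans (by positivity) hC'X
  induction X using Nat.strong_induction_on with
  | _ X ih =>
    rcases Nat.eq_zero_or_pos X with h0 | hpos
    · subst h0
      have : (pos u a η A c 0).card = 0 := by
        rw [card_eq_zero]
        unfold pos
        have : sqf 0 = ∅ := by
          unfold sqf
          simp
        rw [this]
        simp
      rw [this]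
      simp only [Nat.cast_zero]
      positivity
    have hX1 : (1 : ℝ) ≤ X := by exact_mod_cast hpos
    have hX0 : (0 : ℝ) < X := by linarith
    have hXδ : (1 : ℝ) ≤ (X : ℝ) ^ (1 - δ) := Real.one_le_rpow hX1 (by linarith)
    rcases Nat.lt_or_ge X (X₀ + 4) with hlt | hge
    · have h1 : ((pos u a η A c X).card : ℝ) ≤ X := by
        have : (pos u a η A c X).card ≤ X := (card_filter_le _ _).trans (card_sqf_le X)
        exact_mod_cast this
      have h2 : (X : ℝ) ≤ X₀ + 4 := by exact_mod_cast hlt.le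
      nlinarith
    have hsub : pos u a η A c X ⊆ pos u a η A c (X / 2) ∪ bad u a η A' c X := by
      intro D hD
      unfold pos at hD
      rw [mem_filter, mem_sqf] at hD
      obtain ⟨⟨⟨hD1, hD2⟩, hD3⟩, N, hN1, hN2, hN3⟩ := hD
      rw [mem_union]
      rcases le_or_gt D (X / 2) with h2 | h2
      · left
        unfold pos
        rw [mem_filter, mem_sqf]
        exact ⟨⟨⟨hD1, h2⟩, hD3⟩, N, hN1, hN2, hN3⟩
      · right
        unfold bad
        rw [mem_filter, mem_sqf]
        refine ⟨⟨⟨hD1, hD2⟩, hD3⟩, N, ?_, ?_, hN3⟩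
        · refine le_trans ?_ hN1
          have hDr : ((X : ℕ) : ℝ) / 2 ≤ D := by
            have : X ≤ 2 * D := by omega
            have : (X : ℝ) ≤ 2 * D := by exact_mod_cast this
            linarith
          have hD0 : (0 : ℝ) < D := by linarith
          have e : |((D : ℤ) : ℝ)| = D := by simp
          rw [e]
          have hX4 : (4 : ℝ) ≤ X := by exact_mod_cast (by omega : 4 ≤ X)
          have hlogX : 0 < Real.log X := Real.log_pos (by linarith)
          have h3 : Real.log X / 2 ≤ Real.log D := by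
            have h4 := Real.log_le_log (by positivity) hDr
            have h5 : Real.log ((X : ℝ) / 2) = Real.log X - Real.log 2 :=
              Real.log_div (by positivity) (by norm_num)
            have h6 : 2 * Real.log 2 ≤ Real.log X := by
              have h7 := Real.log_le_log (by norm_num) hX4
              have h8 : Real.log 4 = 2 * Real.log 2 := by
                rw [show (4 : ℝ) = 2 ^ 2 by norm_num, Real.log_pow]
                norm_num
              linarith
            linarith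
          have h9 : (Real.log X / 2) ^ A ≤ (Real.log D) ^ A :=
            Real.rpow_le_rpow (by positivity) h3 hA0.le
          refine le_trans ?_ h9
          rw [Real.div_rpow hlogX.le (by norm_num), le_div_iff₀ (by positivity)]
          have h10 := hX₀ X (by omega)
          calc (Real.log X) ^ A' * 2 ^ A ≤ (Real.log X) ^ A' * (Real.log X) ^ (A - A') := by gcongr
            _ = (Real.log X) ^ A := by rw [← Real.rpow_add hlogX]; congr 1; ring
        · refine hN2.trans ?_
          have e : |((D : ℤ) : ℝ)| = D := by simp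
          rw [e]
          apply Real.rpow_le_rpow (Nat.cast_nonneg _) _ hc0.le
          exact_mod_cast hD2
    have h1 : ((pos u a η A c X).card : ℝ) ≤
        ((pos u a η A c (X / 2)).card : ℝ) + ((bad u a η A' c X).card : ℝ) := by
      have := (card_le_card hsub).trans (card_union_le _ _)
      exact_mod_cast this
    have h2 := ih (X / 2) (by omega)
    have h3 := h a ha X hpos
    have h4 : (((X / 2 : ℕ) : ℕ) : ℝ) ^ (1 - δ) ≤ q * (X : ℝ) ^ (1 - δ) := by
      rw [hq, ← Real.mul_rpow (by norm_num) hX0.le]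
      apply Real.rpow_le_rpow (Nat.cast_nonneg _) _ (by linarith)
      have := Nat.cast_div_le (α := ℝ) (m := X) (n := 2)
      push_cast at this
      linarith
    calc ((pos u a η A c X).card : ℝ) ≤ C' * (((X / 2 : ℕ) : ℕ) : ℝ) ^ (1 - δ) +
          C * (X : ℝ) ^ (1 - δ) := h1.trans (add_le_add h2 h3)
      _ ≤ C' * (q * (X : ℝ) ^ (1 - δ)) + (C' * (1 - q)) * (X : ℝ) ^ (1 - δ) := by gcongr
      _ = C' * (X : ℝ) ^ (1 - δ) := by ring

/-- the coefficients for negative integers -/
noncomputable def neg (a : ℕ → ℝ) : ℕ → ℝ := fun p => a p * jr (-1) p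

theorem S_neg (a : ℕ → ℝ) (N : ℕ) (D : ℤ) : S (neg a) N D = S a N (-D) := by
  unfold S neg
  refine sum_congr rfl fun p _ => ?_
  rw [mul_assoc]
  congr 1
  unfold jr
  rw [show (-D : ℤ) = (-1) * D by ring, jacobiSym.mul_left]
  push_cast
  ring

theorem Cond.neg {u : ℕ → ℝ} {B : ℝ} {a : ℕ → ℝ} (h : Cond u B a) : Cond u B (neg a) where
  le p := by
    unfold ST.neg
    rw [abs_mul]
    exact (mul_le_of_le_one_right (abs_nonneg _) (jr_abs _ _)).trans (h.le p)
  var N N' hN D := by
    rw [S_neg, S_neg]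
    exact h.var N N' hN (-D)

theorem both (u : ℕ → ℝ) (hu : Tendsto (fun N : ℕ => u N * Real.log N / N) atTop (𝓝 1))
    (A c η B : ℝ) (hA : 1 < A) (hc0 : 0 < c) (hc : c < 1 / 2) (hη : 0 < η) (hB : 0 < B) :
    ∃ δ : ℝ, 0 < δ ∧ δ < 1 ∧ ∃ C : ℝ, 0 < C ∧ ∀ a : ℕ → ℝ, Cond u B a → ∀ X : ℕ,
      (({D : ℤ | Squarefree D ∧ |D| ≤ X ∧ Large u a η A c D}.ncard : ℕ) : ℝ) ≤
        C * (X : ℝ) ^ (1 - δ) := by
  classical
  obtain ⟨δ, hδ0, hδ1, C, hC, h⟩ := pos_bound u hu A c η B hA hc0 hc hη hB
  refine ⟨δ, hδ0, hδ1, 2 * C, by positivity, fun a ha X => ?_⟩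
  have hsub : {D : ℤ | Squarefree D ∧ |D| ≤ X ∧ Large u a η A c D} ⊆
      (((pos u a η A c X).image (fun n : ℕ => (n : ℤ)) ∪
        (pos u (neg a) η A c X).image (fun n : ℕ => -(n : ℤ)) : Finset ℤ) : Set ℤ) := by
    rintro D ⟨h1, h2, h3⟩
    rw [Finset.mem_coe, mem_union, mem_image, mem_image]
    have hD0 : D ≠ 0 := h1.ne_zero
    have hsq : Squarefree D.natAbs := Int.squarefree_natAbs.2 h1
    have h2' : D.natAbs ≤ X := by
      rw [Int.abs_eq_natAbs] at h2
      exact_mod_cast h2
    rcases lt_or_gt_of_ne hD0 with hneg | hpos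
    · right
      refine ⟨D.natAbs, ?_, by omega⟩
      unfold pos
      rw [mem_filter, mem_sqf]
      refine ⟨⟨⟨by omega, by omega⟩, hsq⟩, ?_⟩
      obtain ⟨N, hN1, hN2, hN3⟩ := h3
      have e : ((D.natAbs : ℕ) : ℤ) = -D := by omega
      rw [e]
      refine ⟨N, ?_, ?_, ?_⟩
      · push_cast; rw [abs_neg]; exact hN1
      · push_cast; rw [abs_neg]; exact hN2
      · rw [S_neg, neg_neg]; exact hN3
    · left
      refine ⟨D.natAbs, ?_, by omega⟩
      unfold pos
      rw [mem_filter, mem_sqf]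
      refine ⟨⟨⟨by omega, by omega⟩, hsq⟩, ?_⟩
      have e : ((D.natAbs : ℕ) : ℤ) = D := by omega
      rw [e]
      exact h3
  have h1 := Set.ncard_le_ncard hsub (Finset.finite_toSet _)
  rw [Set.ncard_coe_finset] at h1
  have h2 := h1.trans (card_union_le _ _)
  have h3 := h2.trans (add_le_add card_image_le card_image_le)
  have h4 : (({D : ℤ | Squarefree D ∧ |D| ≤ X ∧ Large u a η A c D}.ncard : ℕ) : ℝ) ≤
      ((pos u a η A c X).card : ℝ) + ((pos u (neg a) η A c X).card : ℝ) := by exact_mod_cast h3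
  have h5 := h a ha X
  have h6 := h (neg a) ha.neg X
  linarith

end Pool.Agent.H821.ST
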