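import Pool.Agent.H821.ST.Dy

/-! Number fields: sums over prime ideals. -/

set_option autoImplicit false

namespace Pool.Agent.H821.ST

open Finset Filter Topology NumberField IsDedekindDomain
open Pool.Agent.W540.BE (nm upto mem_upto fiber_finite fiber_card two_le_nm sum_nf nf)

section

variable {K : Type} [Field K] [NumberField K]

/-- the number of primes of norm at most `N` -/
noncomputable def uK (K : Type) [Field K] [NumberField K] (N : ℕ) : ℝ := ((upto K N).card : ℝ)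

theorem uK_tendsto : Tendsto (fun N : ℕ => uK K N * Real.log N / N) atTop (𝓝 1) :=
  Pool.Agent.TH553.ST.card_log

/-- the sum of a real function over the primes of norm `n` -/
noncomputable def co (b : HeightOneSpectrum (𝓞 K) → ℝ) (n : ℕ) : ℝ :=
  ∑ v ∈ (fiber_finite (F := K) n).toFinset, b v

theorem card_fiber (n : ℕ) : (fiber_finite (F := K) n).toFinset.card ≤ Module.finrank ℚ K := by
  have := fiber_card (F := K) n
  rwa [Set.ncard_eq_toFinset_card _ (fiber_finite n)] at this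

theorem abs_co_le {b : HeightOneSpectrum (𝓞 K) → ℝ} (hb : ∀ v, |b v| ≤ 1) (n : ℕ) :
    |co b n| ≤ ((fiber_finite (F := K) n).toFinset.card : ℝ) := by
  unfold co
  refine (abs_sum_le_sum_abs _ _).trans ((sum_le_sum fun v _ => hb v).trans ?_)
  simp

theorem mem_fiber {n : ℕ} {v : HeightOneSpectrum (𝓞 K)} :
    v ∈ (fiber_finite (F := K) n).toFinset ↔ nm K v = n := by
  rw [Set.Finite.mem_toFinset, Set.mem_ofPred_eq]

theorem sum_fiber (s : Finset ℕ) (N : ℕ) (hs : ∀ n ∈ s, n ≤ N) (g : HeightOneSpectrum (𝓞 K) → ℝ) :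
    ∑ n ∈ s, ∑ v ∈ (fiber_finite (F := K) n).toFinset, g v =
      ∑ v ∈ (upto K N).filter (fun v => nm K v ∈ s), g v := by
  classical
  rw [← Finset.sum_fiberwise_of_maps_to (s := (upto K N).filter (fun v => nm K v ∈ s)) (t := s)
    (g := nm K)]
  · refine sum_congr rfl fun n hn => ?_
    refine sum_congr ?_ fun _ _ => rfl
    ext v
    rw [mem_fiber, mem_filter, mem_filter, mem_upto]
    constructor
    · intro h
      exact ⟨⟨h ▸ hs n hn, h ▸ hn⟩, h⟩
    · exact fun h => h.2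
  · intro v hv
    rw [mem_filter] at hv
    exact hv.2

theorem uK_eq (N : ℕ) : uK K N = ∑ n ∈ Icc 1 N, ((fiber_finite (F := K) n).toFinset.card : ℝ) := by
  classical
  have h := sum_fiber (K := K) (Icc 1 N) N (fun n hn => (mem_Icc.1 hn).2) (fun _ => (1 : ℝ))
  have h1 : (upto K N).filter (fun v => nm K v ∈ Icc 1 N) = upto K N := by
    rw [filter_eq_self]
    intro v hv
    rw [mem_upto] at hv
    rw [mem_Icc]
    have := two_le_nm v
    exact ⟨by omega, hv⟩
  rw [h1] at h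
  simp only [sum_const, nsmul_eq_mul, mul_one] at h
  rw [h]
  rfl

theorem cond_co {b : HeightOneSpectrum (𝓞 K) → ℝ} (hb : ∀ v, |b v| ≤ 1) :
    Cond (uK K) (Module.finrank ℚ K : ℝ) (co b) where
  le p := (abs_co_le hb p).trans (by exact_mod_cast card_fiber p)
  var N N' hN D := by
    classical
    have hsub : op N ⊆ op N' := by
      intro p hp
      rw [mem_op] at hp ⊢
      exact ⟨hp.1, hp.2.1, hp.2.2.trans hN⟩
    have h1 : S (co b) N' D - S (co b) N D = ∑ p ∈ op N' \ op N, co b p * jr D p := by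
      unfold S
      rw [← sum_sdiff hsub]
      ring
    rw [h1]
    have h2 : uK K N' - uK K N =
        ∑ n ∈ Icc 1 N' \ Icc 1 N, ((fiber_finite (F := K) n).toFinset.card : ℝ) := by
      rw [uK_eq, uK_eq, ← sum_sdiff (Icc_subset_Icc_right hN)]
      ring
    rw [h2]
    have hsub2 : op N' \ op N ⊆ Icc 1 N' \ Icc 1 N := by
      intro p hp
      rw [Finset.mem_sdiff, mem_op, mem_op] at hp
      rw [Finset.mem_sdiff, mem_Icc, mem_Icc]
      have h3 := hp.1.1.one_lt
      refine ⟨⟨by omega, hp.1.2.2⟩, fun h => hp.2 ⟨hp.1.1, hp.1.2.1, h.2⟩⟩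
    refine (abs_sum_le_sum_abs _ _).trans ?_
    refine (sum_le_sum fun p _ => ?_).trans
      (sum_le_sum_of_subset_of_nonneg hsub2 fun _ _ _ => by positivity)
    rw [abs_mul]
    exact (mul_le_of_le_one_right (abs_nonneg _) (jr_abs _ _)).trans (abs_co_le hb p)

theorem S_co (b : HeightOneSpectrum (𝓞 K) → ℝ) (N : ℕ) (D : ℤ) :
    S (co b) N D = ∑ v ∈ (upto K N).filter (fun v => nm K v ∈ op N), b v * jr D (nm K v) := by
  rw [← sum_fiber (op N) N (fun n hn => (mem_op.1 hn).2.2)]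
  unfold S co
  refine sum_congr rfl fun p _ => ?_
  rw [sum_mul]
  refine sum_congr rfl fun v hv => ?_
  rw [mem_fiber] at hv
  rw [hv]

/-- the residue symbol at a prime of degree one -/
theorem jr_eq {v : HeightOneSpectrum (𝓞 K)} (hp : (nm K v).Prime) {D : ℤ}
    (hD : ((2 * D : ℤ) : 𝓞 K) ∉ v.asIdeal) :
    jr D (nm K v) =
      open Classical in if IsSquare ((D : ℤ) : 𝓞 K ⧸ v.asIdeal) then 1 else -1 := by
  classical
  have hD' : ((D : ℤ) : 𝓞 K) ∉ v.asIdeal := by
    intro h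
    apply hD
    push_cast
    exact v.asIdeal.mul_mem_left _ h
  haveI : Finite (𝓞 K ⧸ v.asIdeal) := Ideal.finiteQuotientOfFreeOfNeBot _ v.ne_bot
  letI : Fintype (𝓞 K ⧸ v.asIdeal) := Fintype.ofFinite _
  have hcard : Fintype.card (𝓞 K ⧸ v.asIdeal) = nm K v := by
    rw [← Nat.card_eq_fintype_card]
    rfl
  have hfact : Fact (nm K v).Prime := ⟨hp⟩
  let e : ZMod (nm K v) ≃+* (𝓞 K ⧸ v.asIdeal) := ZMod.ringEquivOfPrime _ hp hcard
  have he : e (D : ZMod (nm K v)) = ((D : ℤ) : 𝓞 K ⧸ v.asIdeal) := map_intCast e D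
  have h0 : (D : ZMod (nm K v)) ≠ 0 := by
    intro h
    have h1 : ((D : ℤ) : 𝓞 K ⧸ v.asIdeal) = 0 := by rw [← he, h, map_zero]
    apply hD'
    rw [← Ideal.Quotient.eq_zero_iff_mem, map_intCast]
    exact h1
  have hsq : IsSquare (D : ZMod (nm K v)) ↔ IsSquare ((D : ℤ) : 𝓞 K ⧸ v.asIdeal) := by
    rw [← he]
    constructor
    · rintro ⟨c, hc⟩
      exact ⟨e c, by rw [hc, map_mul]⟩
    · rintro ⟨c, hc⟩
      refine ⟨e.symm c, ?_⟩
      apply e.injective
      rw [hc, map_mul, RingEquiv.apply_symm_apply]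
  unfold jr
  rw [← jacobiSym.legendreSym.to_jacobiSym]
  split_ifs with h
  · rw [(legendreSym.eq_one_iff _ h0).2 (hsq.2 h)]
    norm_num
  · rw [(legendreSym.eq_neg_one_iff _).2 (fun h' => h (hsq.1 h'))]
    norm_num

/-- the primes without information -/
noncomputable def ng (K : Type) [Field K] [NumberField K] (N : ℕ) (D : ℤ) :
    Finset (HeightOneSpectrum (𝓞 K)) :=
  open Classical in (upto K N).filter fun v => ¬ ((nm K v).Prime ∧ ((2 * D : ℤ) : 𝓞 K) ∉ v.asIdeal)

theorem card_ng_le (N : ℕ) {D : ℤ} (hD : D ≠ 0) :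
    ((ng K N D).card : ℝ) ≤
      Module.finrank ℚ K * (Real.sqrt N + Real.log (2 * |(D : ℝ)|) / Real.log 2) := by
  classical
  -- the primes above a rational prime
  have hover : ∀ p : ℕ, p.Prime → {v : HeightOneSpectrum (𝓞 K) | (p : 𝓞 K) ∈ v.asIdeal}.Finite ∧
      {v : HeightOneSpectrum (𝓞 K) | (p : 𝓞 K) ∈ v.asIdeal}.ncard ≤ Module.finrank ℚ K :=
    fun p hp => W352.ChAbs.over_le p hp
  have hcov : ∀ P : Finset ℕ, (∀ p ∈ P, p.Prime) → ∀ T : Finset (HeightOneSpectrum (𝓞 K)),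
      (∀ v ∈ T, ∃ p ∈ P, (p : 𝓞 K) ∈ v.asIdeal) → T.card ≤ P.card * Module.finrank ℚ K := by
    intro P hP T hT
    have h1 : T ⊆ P.attach.biUnion fun p => (hover p.1 (hP p.1 p.2)).1.toFinset := by
      intro v hv
      obtain ⟨p, hp, hpv⟩ := hT v hv
      rw [mem_biUnion]
      refine ⟨⟨p, hp⟩, mem_attach _ _, ?_⟩
      rw [Set.Finite.mem_toFinset]
      exact hpv
    refine (card_le_card h1).trans (card_biUnion_le.trans ?_)
    rw [← card_attach (s := P), ← smul_eq_mul]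
    refine sum_le_card_nsmul _ _ _ fun p _ => ?_
    have h2 := Set.ncard_eq_toFinset_card _ (hover p.1 (hP p.1 p.2)).1
    rw [← h2]
    exact (hover p.1 (hP p.1 p.2)).2
  -- the characteristic
  have hchar : ∀ v : HeightOneSpectrum (𝓞 K), ∃ (p k : ℕ), p.Prime ∧ 0 < k ∧ nm K v = p ^ k ∧
      (p : 𝓞 K) ∈ v.asIdeal := by
    intro v
    haveI : v.asIdeal.IsMaximal := v.isMaximal
    letI := Ideal.Quotient.field v.asIdeal
    haveI : Finite (𝓞 K ⧸ v.asIdeal) := Ideal.finiteQuotientOfFreeOfNeBot _ v.ne_bot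
    cases nonempty_fintype (𝓞 K ⧸ v.asIdeal)
    obtain ⟨p, hc⟩ := CharP.exists (𝓞 K ⧸ v.asIdeal)
    obtain ⟨k, hp, hk⟩ := FiniteField.card (𝓞 K ⧸ v.asIdeal) p
    refine ⟨p, k, hp, k.pos, ?_, ?_⟩
    · unfold nm
      rw [Ideal.absNorm_apply, Submodule.cardQuot_apply, ← hk]
      exact Nat.card_eq_fintype_card
    · rw [← Ideal.Quotient.eq_zero_iff_mem, map_natCast]
      exact CharP.cast_eq_zero _ _
  have h2D : (2 * D).natAbs ≠ 0 := by
    rw [Ne, Int.natAbs_eq_zero]
    omega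
  set T₁ := (upto K N).filter fun v => ¬ (nm K v).Prime with hT₁
  set T₂ := (upto K N).filter fun v => ((2 * D : ℤ) : 𝓞 K) ∈ v.asIdeal with hT₂
  have hsub : ng K N D ⊆ T₁ ∪ T₂ := by
    intro v hv
    unfold ng at hv
    rw [mem_filter] at hv
    rw [mem_union, hT₁, hT₂, mem_filter, mem_filter]
    by_cases h : (nm K v).Prime
    · right
      refine ⟨hv.1, ?_⟩
      by_contra h'
      exact hv.2 ⟨h, h'⟩
    · left
      exact ⟨hv.1, h⟩
  have c1 : T₁.card ≤ Nat.sqrt N * Module.finrank ℚ K := by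
    have h1 := hcov ((Icc 1 (Nat.sqrt N)).filter Nat.Prime) (fun p hp => (mem_filter.1 hp).2) T₁ ?_
    · refine h1.trans (Nat.mul_le_mul_right _ ?_)
      refine (card_filter_le _ _).trans ?_
      rw [Nat.card_Icc]
      omega
    · intro v hv
      rw [hT₁, mem_filter, mem_upto] at hv
      obtain ⟨p, k, hp, hk, hnm, hpv⟩ := hchar v
      refine ⟨p, ?_, hpv⟩
      rw [mem_filter, mem_Icc]
      refine ⟨⟨hp.one_lt.le, ?_⟩, hp⟩
      rw [Nat.le_sqrt']
      have hk2 : 2 ≤ k := by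
        rcases Nat.lt_or_ge k 2 with h | h
        · exfalso
          have : k = 1 := by omega
          subst this
          rw [pow_one] at hnm
          exact hv.2 (hnm ▸ hp)
        · exact h
      calc p ^ 2 ≤ p ^ k := Nat.pow_le_pow_right hp.pos hk2
        _ = nm K v := hnm.symm
        _ ≤ N := hv.1
  have c2 : T₂.card ≤ ((2 * D).natAbs.primeFactors).card * Module.finrank ℚ K := by
    refine hcov _ (fun p hp => Nat.prime_of_mem_primeFactors hp) T₂ ?_
    intro v hv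
    rw [hT₂, mem_filter] at hv
    obtain ⟨p, k, hp, hk, hnm, hpv⟩ := hchar v
    refine ⟨p, ?_, hpv⟩
    rw [Nat.mem_primeFactors]
    refine ⟨hp, ?_, h2D⟩
    by_contra hnd
    have hcop : IsCoprime (p : ℤ) (2 * D) := by
      rw [Int.isCoprime_iff_gcd_eq_one]
      exact (Nat.Prime.coprime_iff_not_dvd hp).2 hnd
    obtain ⟨r, t, hrt⟩ := hcop
    have h1 : (1 : 𝓞 K) ∈ v.asIdeal := by
      have h3 : ((r * p + t * (2 * D) : ℤ) : 𝓞 K) = 1 := by rw [hrt]; simp
      rw [← h3]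
      push_cast
      refine v.asIdeal.add_mem (v.asIdeal.mul_mem_left _ hpv) (v.asIdeal.mul_mem_left _ ?_)
      have := hv.2
      push_cast at this
      exact this
    exact v.isPrime.ne_top ((Ideal.eq_top_iff_one _).2 h1)
  have c3 : (((2 * D).natAbs.primeFactors).card : ℝ) ≤ Real.log (2 * |(D : ℝ)|) / Real.log 2 := by
    have hl2 : 0 < Real.log 2 := Real.log_pos (by norm_num)
    rw [le_div_iff₀ hl2]
    have h1 : 2 ^ ((2 * D).natAbs.primeFactors).card ≤ (2 * D).natAbs := by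
      calc 2 ^ ((2 * D).natAbs.primeFactors).card ≤ ∏ p ∈ (2 * D).natAbs.primeFactors, p := by
            rw [← Finset.prod_const]
            exact Finset.prod_le_prod' fun p hp => (Nat.prime_of_mem_primeFactors hp).two_le
        _ ≤ (2 * D).natAbs := Nat.le_of_dvd (Nat.pos_of_ne_zero h2D) (Nat.prod_primeFactors_dvd _)
    have h2 : ((2 : ℝ)) ^ ((2 * D).natAbs.primeFactors).card ≤ 2 * |(D : ℝ)| := by
      have h3 : (((2 ^ ((2 * D).natAbs.primeFactors).card : ℕ)) : ℝ) ≤ (((2 * D).natAbs : ℕ) : ℝ) := by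
        exact_mod_cast h1
      rw [Nat.cast_natAbs] at h3
      push_cast at h3
      rwa [abs_mul, abs_of_pos (by norm_num : (0 : ℝ) < 2)] at h3
    have h4 := Real.log_le_log (by positivity) h2
    rwa [Real.log_pow] at h4
  have h3 : ((ng K N D).card : ℝ) ≤ (T₁.card : ℝ) + T₂.card := by
    have := (card_le_card hsub).trans (card_union_le _ _)
    exact_mod_cast this
  have h4 : (T₁.card : ℝ) ≤ Real.sqrt N * Module.finrank ℚ K := by
    have h5 : (T₁.card : ℝ) ≤ (Nat.sqrt N : ℝ) * Module.finrank ℚ K := by exact_mod_cast c1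
    refine h5.trans (mul_le_mul_of_nonneg_right ?_ (Nat.cast_nonneg _))
    exact Real.nat_sqrt_le_real_sqrt
  have h5 : (T₂.card : ℝ) ≤ Real.log (2 * |(D : ℝ)|) / Real.log 2 * Module.finrank ℚ K := by
    have h6 : (T₂.card : ℝ) ≤ (((2 * D).natAbs.primeFactors).card : ℝ) * Module.finrank ℚ K := by
      exact_mod_cast c2
    exact h6.trans (mul_le_mul_of_nonneg_right c3 (Nat.cast_nonneg _))
  linarith

end

end Pool.Agent.H821.ST
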