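import Pool.Agent.H821.ST.Fld

/-! The symmetrization theorem for one test function. -/

set_option autoImplicit false

namespace Pool.Agent.H821.ST

open Finset Filter Topology NumberField IsDedekindDomain
open Pool.Agent.W540.BE (nm upto mem_upto fiber_finite fiber_card two_le_nm sum_nf nf)

section

variable {K : Type} [Field K] [NumberField K]

/-- the mean value over the primes of norm at most `N` -/
noncomputable def mean (φ : HeightOneSpectrum (𝓞 K) → ℂ) (N : ℕ) : ℂ :=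
  (∑ v ∈ upto K N, φ v) / ((upto K N).card : ℂ)

/-- half of the difference, real part, normalized -/
noncomputable def gre (M : ℝ) (P Q : HeightOneSpectrum (𝓞 K) → ℂ) (v : HeightOneSpectrum (𝓞 K)) :
    ℝ := ((P v - Q v) / 2).re / M

/-- half of the difference, imaginary part, normalized -/
noncomputable def gim (M : ℝ) (P Q : HeightOneSpectrum (𝓞 K) → ℂ) (v : HeightOneSpectrum (𝓞 K)) :
    ℝ := ((P v - Q v) / 2).im / M

theorem norm_g_le {M : ℝ} {P Q : HeightOneSpectrum (𝓞 K) → ℂ} (hP : ∀ v, ‖P v‖ ≤ M)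
    (hQ : ∀ v, ‖Q v‖ ≤ M) (v : HeightOneSpectrum (𝓞 K)) : ‖(P v - Q v) / 2‖ ≤ M := by
  rw [norm_div]
  have h1 := norm_sub_le (P v) (Q v)
  have h2 : ‖(2 : ℂ)‖ = 2 := by simp
  rw [h2, div_le_iff₀ (by norm_num)]
  linarith [hP v, hQ v]

theorem abs_gre_le {M : ℝ} (hM : 0 < M) {P Q : HeightOneSpectrum (𝓞 K) → ℂ} (hP : ∀ v, ‖P v‖ ≤ M)
    (hQ : ∀ v, ‖Q v‖ ≤ M) (v : HeightOneSpectrum (𝓞 K)) : |gre M P Q v| ≤ 1 := by
  unfold gre
  rw [abs_div, abs_of_pos hM, div_le_one hM]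
  exact (Complex.abs_re_le_norm _).trans (norm_g_le hP hQ v)

theorem abs_gim_le {M : ℝ} (hM : 0 < M) {P Q : HeightOneSpectrum (𝓞 K) → ℂ} (hP : ∀ v, ‖P v‖ ≤ M)
    (hQ : ∀ v, ‖Q v‖ ≤ M) (v : HeightOneSpectrum (𝓞 K)) : |gim M P Q v| ≤ 1 := by
  unfold gim
  rw [abs_div, abs_of_pos hM, div_le_one hM]
  exact (Complex.abs_im_le_norm _).trans (norm_g_le hP hQ v)

/-- the values `R` on the twist by `D` -/
def Tw (D : ℤ) (P Q R : HeightOneSpectrum (𝓞 K) → ℂ) : Prop :=
  ∀ v : HeightOneSpectrum (𝓞 K), ((2 * D : ℤ) : 𝓞 K) ∉ v.asIdeal →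
    (IsSquare ((D : ℤ) : 𝓞 K ⧸ v.asIdeal) → R v = P v) ∧
    (¬ IsSquare ((D : ℤ) : 𝓞 K ⧸ v.asIdeal) → R v = Q v)

theorem sum_le {M : ℝ} (hM : 0 < M) {P Q R : HeightOneSpectrum (𝓞 K) → ℂ} (hP : ∀ v, ‖P v‖ ≤ M)
    (hQ : ∀ v, ‖Q v‖ ≤ M) (hR : ∀ v, ‖R v‖ ≤ M) {D : ℤ} (hT : Tw D P Q R) (N : ℕ) :
    ‖∑ v ∈ upto K N, (R v - (P v + Q v) / 2)‖ ≤
      M * |S (co (gre M P Q)) N D| + M * |S (co (gim M P Q)) N D| + 3 * M * (ng K N D).card := by
  classical
  set G : HeightOneSpectrum (𝓞 K) → ℂ := fun v =>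
    if nm K v ∈ op N then ((P v - Q v) / 2) * ((jr D (nm K v) : ℝ) : ℂ) else 0 with hG
  have h1 : ∑ v ∈ upto K N, G v = ((M * S (co (gre M P Q)) N D : ℝ) : ℂ) +
      ((M * S (co (gim M P Q)) N D : ℝ) : ℂ) * Complex.I := by
    rw [S_co, S_co, hG, ← sum_filter]
    push_cast
    rw [mul_sum, mul_sum, sum_mul, ← sum_add_distrib]
    refine sum_congr rfl fun v _ => ?_
    have h2 : (P v - Q v) / 2 = ((M * gre M P Q v : ℝ) : ℂ) + ((M * gim M P Q v : ℝ) : ℂ) * Complex.I := by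
      unfold gre gim
      rw [mul_div_cancel₀ _ hM.ne', mul_div_cancel₀ _ hM.ne']
      exact (Complex.re_add_im _).symm
    rw [h2]
    push_cast
    ring
  have h2 : ∀ v ∈ upto K N, ‖(R v - (P v + Q v) / 2) - G v‖ ≤
      if v ∈ ng K N D then 3 * M else 0 := by
    intro v hv
    split_ifs with hng
    · have a1 : ‖G v‖ ≤ M := by
        rw [hG]
        simp only
        split_ifs
        · rw [norm_mul, Complex.norm_real]
          have := norm_g_le hP hQ v
          exact (mul_le_of_le_one_right (norm_nonneg _) (jr_abs _ _)).trans this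
        · rw [norm_zero]; exact hM.le
      have a2 : ‖(P v + Q v) / 2‖ ≤ M := by
        rw [norm_div]
        have h1 := norm_add_le (P v) (Q v)
        have h2 : ‖(2 : ℂ)‖ = 2 := by simp
        rw [h2, div_le_iff₀ (by norm_num)]
        linarith [hP v, hQ v]
      have a3 := norm_sub_le (R v - (P v + Q v) / 2) (G v)
      have a4 := norm_sub_le (R v) ((P v + Q v) / 2)
      linarith [hR v]
    · unfold ng at hng
      rw [mem_filter] at hng
      push Not at hng
      have h3 := hng hv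
      obtain ⟨hp, h2D⟩ := h3
      have hop : nm K v ∈ op N := by
        rw [mem_op]
        refine ⟨hp, ?_, mem_upto.1 hv⟩
        intro h2
        apply h2D
        have h4 : ((nm K v : ℕ) : 𝓞 K) ∈ v.asIdeal := Ideal.absNorm_mem v.asIdeal
        rw [h2] at h4
        push_cast
        push_cast at h4
        exact v.asIdeal.mul_mem_right _ h4
      have h5 := jr_eq hp h2D
      obtain ⟨h6, h7⟩ := hT v h2D
      rw [hG]
      simp only
      rw [if_pos hop, h5]
      split_ifs with hs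
      · rw [h6 hs]
        have : P v - (P v + Q v) / 2 - (P v - Q v) / 2 * (((1 : ℝ)) : ℂ) = 0 := by
          push_cast; ring
        rw [this, norm_zero]
      · rw [h7 hs]
        have : Q v - (P v + Q v) / 2 - (P v - Q v) / 2 * (((-1 : ℝ)) : ℂ) = 0 := by
          push_cast; ring
        rw [this, norm_zero]
  have h3 : ‖∑ v ∈ upto K N, ((R v - (P v + Q v) / 2) - G v)‖ ≤ 3 * M * (ng K N D).card := by
    refine (norm_sum_le _ _).trans ((sum_le_sum h2).trans ?_)
    rw [← sum_filter, sum_const, nsmul_eq_mul, mul_comm]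
    apply mul_le_mul_of_nonneg_left _ (by positivity)
    have : (upto K N).filter (fun v => v ∈ ng K N D) ⊆ ng K N D := fun v hv => (mem_filter.1 hv).2
    exact_mod_cast card_le_card this
  rw [sum_sub_distrib, h1] at h3
  set W := ∑ v ∈ upto K N, (R v - (P v + Q v) / 2) with hW
  set Z := ((M * S (co (gre M P Q)) N D : ℝ) : ℂ) +
      ((M * S (co (gim M P Q)) N D : ℝ) : ℂ) * Complex.I with hZ
  have h4 : ‖Z‖ ≤ M * |S (co (gre M P Q)) N D| + M * |S (co (gim M P Q)) N D| := by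
    rw [hZ]
    refine (norm_add_le _ _).trans ?_
    rw [norm_mul, Complex.norm_I, mul_one, Complex.norm_real, Complex.norm_real, Real.norm_eq_abs,
      Real.norm_eq_abs, abs_mul, abs_mul, abs_of_pos hM]
  have h5 : ‖W‖ ≤ ‖Z‖ + ‖W - Z‖ := by
    have := norm_add_le Z (W - Z)
    rwa [add_sub_cancel] at this
  linarith

theorem ng_small (K : Type) [Field K] [NumberField K] (A M η : ℝ) (hA : 1 < A) (hM : 0 < M)
    (hη : 0 < η) : ∃ N₂ : ℕ, 3 ≤ N₂ ∧ (∀ N : ℕ, N₂ ≤ N → 0 < uK K N) ∧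
      ∀ N : ℕ, N₂ ≤ N → ∀ D : ℤ, D ≠ 0 → (Real.log |(D : ℝ)|) ^ A ≤ N →
        3 * M * (ng K N D).card ≤ η * uK K N := by
  set d : ℝ := (Module.finrank ℚ K : ℝ) with hd
  have hd0 : 0 ≤ d := Nat.cast_nonneg _
  have hA0 : 0 < A := by linarith
  set s : ℝ := max (1 / 2) (1 / A) with hs
  have hs0 : 0 < s := lt_max_of_lt_left (by norm_num)
  have hs1 : s < 1 := max_lt (by norm_num) ((div_lt_one hA0).2 hA)
  have hl2 : 0 < Real.log 2 := Real.log_pos (by norm_num)
  set κ : ℝ := η / (2 * (3 * M * (d + 1) * (2 + 1 / Real.log 2))) with hκ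
  have hκ0 : 0 < κ := by positivity
  have h1 : ∀ᶠ x : ℝ in atTop, ‖Real.log x‖ ≤ κ * ‖x ^ (1 - s)‖ :=
    (isLittleO_log_rpow_atTop (show 0 < 1 - s by linarith)).bound hκ0
  have h2 := (tendsto_natCast_atTop_atTop (R := ℝ)).eventually h1
  have h3 : ∀ᶠ N : ℕ in atTop, (1 / 2 : ℝ) ≤ uK K N * Real.log N / N :=
    uK_tendsto.eventually_const_le (by norm_num)
  obtain ⟨M₁, hM₁⟩ := eventually_atTop.1 (h2.and h3)
  have hu : ∀ N : ℕ, max 3 M₁ ≤ N → (N : ℝ) / 2 ≤ uK K N * Real.log N := by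
    intro N hN
    have hN3 : 3 ≤ N := (le_max_left _ _).trans hN
    have hNr : (3 : ℝ) ≤ N := by exact_mod_cast hN3
    have h4 := (hM₁ N ((le_max_right _ _).trans hN)).2
    rw [le_div_iff₀ (by linarith)] at h4
    linarith
  refine ⟨max 3 M₁, le_max_left _ _, fun N hN => ?_, fun N hN D hD hDN => ?_⟩
  · have hN3 : 3 ≤ N := (le_max_left _ _).trans hN
    have hNr : (3 : ℝ) ≤ N := by exact_mod_cast hN3
    have h4 := hu N hN
    have hL0 : 0 < Real.log N := Real.log_pos (by linarith)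
    by_contra h
    push Not at h
    have : uK K N * Real.log N ≤ 0 := mul_nonpos_of_nonpos_of_nonneg h hL0.le
    linarith
  · have hN3 : 3 ≤ N := (le_max_left _ _).trans hN
    have hNr : (3 : ℝ) ≤ N := by exact_mod_cast hN3
    have hN0 : (0 : ℝ) < N := by linarith
    have hN1 : (1 : ℝ) ≤ N := by linarith
    have hL0 : 0 < Real.log N := Real.log_pos (by linarith)
    have h4 := hu N hN
    have h5 := (hM₁ N ((le_max_right _ _).trans hN)).1
    rw [Real.norm_of_nonneg hL0.le, Real.norm_of_nonneg (by positivity)] at h5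
    have hDr : 1 ≤ |(D : ℝ)| := by
      have h6 : (1 : ℤ) ≤ |D| := Int.one_le_abs hD
      have h7 : ((1 : ℤ) : ℝ) ≤ ((|D| : ℤ) : ℝ) := by exact_mod_cast h6
      simpa using h7
    have hlD : 0 ≤ Real.log |(D : ℝ)| := Real.log_nonneg hDr
    have hlogD : Real.log |(D : ℝ)| ≤ (N : ℝ) ^ (1 / A) := by
      have h6 : ((Real.log |(D : ℝ)|) ^ A) ^ (1 / A) ≤ (N : ℝ) ^ (1 / A) :=
        Real.rpow_le_rpow (by positivity) hDN (by positivity)
      rwa [← Real.rpow_mul hlD, mul_one_div_cancel hA0.ne', Real.rpow_one] at h6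
    have hA1 : (N : ℝ) ^ (1 / A) ≤ (N : ℝ) ^ s :=
      Real.rpow_le_rpow_of_exponent_le hN1 (le_max_right _ _)
    have hsq : Real.sqrt N ≤ (N : ℝ) ^ s := by
      rw [Real.sqrt_eq_rpow]
      exact Real.rpow_le_rpow_of_exponent_le hN1 (le_max_left _ _)
    have hone : (1 : ℝ) ≤ (N : ℝ) ^ s := Real.one_le_rpow hN1 hs0.le
    have hcard := card_ng_le (K := K) N hD
    rw [Real.log_mul (by norm_num) (by positivity), add_div, div_self hl2.ne'] at hcard
    have h8 : ((ng K N D).card : ℝ) ≤ (d + 1) * (2 + 1 / Real.log 2) * (N : ℝ) ^ s := by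
      refine hcard.trans ?_
      have h9 : Real.log |(D : ℝ)| / Real.log 2 ≤ (N : ℝ) ^ s / Real.log 2 :=
        div_le_div_of_nonneg_right (hlogD.trans hA1) hl2.le
      calc d * (Real.sqrt N + (1 + Real.log |(D : ℝ)| / Real.log 2))
          ≤ (d + 1) * ((N : ℝ) ^ s + ((N : ℝ) ^ s + (N : ℝ) ^ s / Real.log 2)) := by
            apply mul_le_mul (by linarith) _ (by positivity) (by positivity)
            linarith
        _ = (d + 1) * (2 + 1 / Real.log 2) * (N : ℝ) ^ s := by ring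
    -- multiply by log N
    have h9 : 3 * M * (ng K N D).card * Real.log N ≤ η * uK K N * Real.log N := by
      calc 3 * M * (ng K N D).card * Real.log N
          ≤ 3 * M * ((d + 1) * (2 + 1 / Real.log 2) * (N : ℝ) ^ s) * (κ * (N : ℝ) ^ (1 - s)) := by
            gcongr
        _ = (3 * M * (d + 1) * (2 + 1 / Real.log 2)) * κ * ((N : ℝ) ^ s * (N : ℝ) ^ (1 - s)) := by
            ring
        _ = η * (N / 2) := by
            rw [← Real.rpow_add hN0]
            have : s + (1 - s) = 1 := by ring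
            rw [this, Real.rpow_one, hκ]
            field_simp
        _ ≤ η * (uK K N * Real.log N) := by gcongr
        _ = η * uK K N * Real.log N := by ring
    exact le_of_mul_le_mul_right h9 hL0

/-- the exceptional set of one test function -/
def exc (K : Type) [Field K] [NumberField K] (M η A c : ℝ)
    (P Q : HeightOneSpectrum (𝓞 K) → ℂ) : Set ℤ :=
  {D : ℤ | Squarefree D ∧ (Large (uK K) (co (gre M P Q)) η A c D ∨
    Large (uK K) (co (gim M P Q)) η A c D)}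

theorem one (K : Type) [Field K] [NumberField K] (A c η M : ℝ) (hA : 1 < A) (hc0 : 0 < c)
    (hc : c < 1 / 2) (hη : 0 < η) (hM : 0 < M) :
    ∃ δ : ℝ, 0 < δ ∧ δ < 1 ∧ ∃ C : ℝ, 0 < C ∧ ∃ D₀ : ℕ, ∀ P Q : HeightOneSpectrum (𝓞 K) → ℂ,
      (∀ v, ‖P v‖ ≤ M) → (∀ v, ‖Q v‖ ≤ M) → ∃ E : Set ℤ,
        (∀ X : ℕ, (({D : ℤ | D ∈ E ∧ |D| ≤ X}.ncard : ℕ) : ℝ) ≤ C * (X : ℝ) ^ (1 - δ)) ∧
        ∀ D : ℤ, Squarefree D → D ∉ E → (D₀ : ℤ) ≤ |D| →
          ∀ R : HeightOneSpectrum (𝓞 K) → ℂ, (∀ v, ‖R v‖ ≤ M) → Tw D P Q R →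
            ∀ N : ℕ, (Real.log |(D : ℝ)|) ^ A ≤ N → Real.log N ≤ |(D : ℝ)| ^ c →
              ‖mean R N - (mean P N + mean Q N) / 2‖ ≤ η := by
  classical
  set η' : ℝ := η / (4 * M) with hη'
  have hη'0 : 0 < η' := by positivity
  have hd : 0 < (Module.finrank ℚ K : ℝ) := by exact_mod_cast Module.finrank_pos
  obtain ⟨δ, hδ0, hδ1, C, hC, h⟩ := both (uK K) uK_tendsto A c η' _ hA hc0 hc hη'0 hd
  obtain ⟨N₂, hN₂3, hpos, hng⟩ := ng_small K A M (η / 2) hA hM (by positivity)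
  -- D₀
  have hA0 : 0 < A := by linarith
  have hlim : ∀ᶠ X : ℕ in atTop, (N₂ : ℝ) ≤ (Real.log X) ^ A := by
    have h1 : Tendsto (fun X : ℕ => (Real.log X) ^ A) atTop atTop :=
      (tendsto_rpow_atTop hA0).comp (Real.tendsto_log_atTop.comp tendsto_natCast_atTop_atTop)
    exact h1.eventually_ge_atTop _
  obtain ⟨X₀, hX₀⟩ := eventually_atTop.1 hlim
  refine ⟨δ, hδ0, hδ1, 2 * C, by positivity, X₀, fun P Q hP hQ =>
    ⟨exc K M η' A c P Q, fun X => ?_, ?_⟩⟩
  · have h1 := h (co (gre M P Q)) (cond_co (abs_gre_le hM hP hQ)) X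
    have h2 := h (co (gim M P Q)) (cond_co (abs_gim_le hM hP hQ)) X
    have hfin : ∀ p : ℤ → Prop, {D : ℤ | Squarefree D ∧ |D| ≤ X ∧ p D}.Finite := by
      intro p
      apply (Set.finite_Icc (-(X : ℤ)) X).subset
      rintro D ⟨_, h3, _⟩
      exact abs_le.1 h3
    have hsub : {D : ℤ | D ∈ exc K M η' A c P Q ∧ |D| ≤ X} ⊆
        {D : ℤ | Squarefree D ∧ |D| ≤ X ∧ Large (uK K) (co (gre M P Q)) η' A c D} ∪
        {D : ℤ | Squarefree D ∧ |D| ≤ X ∧ Large (uK K) (co (gim M P Q)) η' A c D} := by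
      rintro D ⟨⟨h3, h4⟩, h5⟩
      rcases h4 with h4 | h4
      · exact Or.inl ⟨h3, h5, h4⟩
      · exact Or.inr ⟨h3, h5, h4⟩
    have h3 := (Set.ncard_le_ncard hsub ((hfin _).union (hfin _))).trans (Set.ncard_union_le _ _)
    have h4 : (({D : ℤ | D ∈ exc K M η' A c P Q ∧ |D| ≤ X}.ncard : ℕ) : ℝ) ≤
        (({D : ℤ | Squarefree D ∧ |D| ≤ X ∧ Large (uK K) (co (gre M P Q)) η' A c D}.ncard : ℕ) : ℝ)
        + (({D : ℤ | Squarefree D ∧ |D| ≤ X ∧
          Large (uK K) (co (gim M P Q)) η' A c D}.ncard : ℕ) : ℝ) := by exact_mod_cast h3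
    linarith
  · intro D hD hDE hD0 R hR hT N hN1 hN2
    have hDne : D ≠ 0 := hD.ne_zero
    have hN : N₂ ≤ N := by
      have h0 : X₀ ≤ D.natAbs := by
        rw [Int.abs_eq_natAbs] at hD0
        exact_mod_cast hD0
      have h1 := hX₀ D.natAbs h0
      have e : ((D.natAbs : ℕ) : ℝ) = |(D : ℝ)| := by
        rw [Nat.cast_natAbs]; push_cast; rfl
      rw [e] at h1
      exact_mod_cast h1.trans hN1
    have hu := hpos N hN
    have h1 := sum_le hM hP hQ hR hT N
    have h2 := hng N hN D hDne hN1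
    have h3 : |S (co (gre M P Q)) N D| ≤ η' * uK K N := by
      by_contra hcon
      push Not at hcon
      exact hDE ⟨hD, Or.inl ⟨N, hN1, hN2, hcon⟩⟩
    have h4 : |S (co (gim M P Q)) N D| ≤ η' * uK K N := by
      by_contra hcon
      push Not at hcon
      exact hDE ⟨hD, Or.inr ⟨N, hN1, hN2, hcon⟩⟩
    have h5 : ‖∑ v ∈ upto K N, (R v - (P v + Q v) / 2)‖ ≤ η * uK K N := by
      have e1 : M * (η' * uK K N) = η / 4 * uK K N := by
        rw [hη']
        field_simp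
      have h6 := mul_le_mul_of_nonneg_left h3 hM.le
      have h7 := mul_le_mul_of_nonneg_left h4 hM.le
      rw [e1] at h6 h7
      linarith
    have hu' : ((upto K N).card : ℂ) ≠ 0 := by
      have : (upto K N).card ≠ 0 := by
        intro h0
        unfold uK at hu
        rw [h0] at hu
        norm_num at hu
      exact_mod_cast this
    have e2 : mean R N - (mean P N + mean Q N) / 2 =
        (∑ v ∈ upto K N, (R v - (P v + Q v) / 2)) / ((upto K N).card : ℂ) := by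
      unfold mean
      rw [sum_sub_distrib, ← sum_div, sum_add_distrib]
      field_simp
    rw [e2, norm_div, Complex.norm_natCast]
    unfold uK at h5 hu
    rw [div_le_iff₀ hu]
    exact h5

end

end Pool.Agent.H821.ST
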