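import Pool.Agent.H821.ST.Pow

/-! Power savings: the union over the scales. -/

set_option autoImplicit false

namespace Pool.Agent.H821.ST

open Finset Filter Topology
open Pool.Agent.H306R2.RZ (sqf)

theorem sum_inv_sq_le (J : ℕ) : ∑ j ∈ Icc 1 J, 1 / (j : ℝ) ^ 2 ≤ 2 := by
  have key : ∀ J : ℕ, ∑ j ∈ Icc 1 (J + 1), 1 / (j : ℝ) ^ 2 ≤ 2 - 1 / ((J : ℝ) + 1) := by
    intro J
    induction J with
    | zero => simp; norm_num
    | succ J ih =>
      rw [Finset.sum_Icc_succ_top (by omega)]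
      have h1 : 1 / (((J + 1 + 1 : ℕ) : ℝ)) ^ 2 ≤ 1 / ((J : ℝ) + 1) - 1 / ((J : ℝ) + 1 + 1) := by
        push_cast
        have hJ : (0 : ℝ) ≤ J := Nat.cast_nonneg _
        rw [div_sub_div _ _ (by positivity) (by positivity), div_le_div_iff₀ (by positivity)
          (by positivity)]
        nlinarith
      push_cast at h1 ih ⊢
      linarith
  rcases Nat.eq_zero_or_pos J with h | h
  · subst h; simp
  · obtain ⟨J', rfl⟩ : ∃ J', J = J' + 1 := ⟨J - 1, by omega⟩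
    have h1 := key J'
    have : 0 ≤ 1 / ((J' : ℝ) + 1) := by positivity
    linarith

/-- large values at some scale up to `X ^ b`, for some index -/
noncomputable def badp (a : ℕ → ℕ → ℝ) (θ A b : ℝ) (X : ℕ) : Finset ℕ :=
  open Classical in (sqf X).filter fun D : ℕ => ∃ N : ℕ, (Real.log X) ^ A ≤ N ∧
    (N : ℝ) ≤ (X : ℝ) ^ b ∧ ∃ j : ℕ, 1 ≤ j ∧ j * (N : ℝ) ^ (1 - θ) < |S (a j) N (D : ℤ)|

theorem scalesp (A b B θ₁ : ℝ) (hA : 1 < A) (hb : 0 < b) (hB : 0 < B) (hθ₁ : 0 < θ₁) :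
    ∃ θ : ℝ, 0 < θ ∧ θ ≤ θ₁ ∧ ∃ δ : ℝ, 0 < δ ∧ δ < 1 ∧ ∃ C : ℝ, 0 < C ∧
      ∀ a : ℕ → ℕ → ℝ, (∀ j p, |a j p| ≤ B) → ∀ X : ℕ, 1 ≤ X →
        ((badp a θ A b X).card : ℝ) ≤ C * (X : ℝ) ^ (1 - δ) := by
  classical
  have hA0 : 0 < A := by linarith
  set b' : ℝ := b + 1 with hb'
  have hb'0 : 0 < b' := by positivity
  set s₁ : ℝ := (1 - 1 / A) / 16 with hs₁
  have hs₁0 : 0 < s₁ := by
    rw [hs₁]
    have : 1 / A < 1 := (div_lt_one hA0).2 hA
    have : 0 < 1 - 1 / A := by linarith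
    positivity
  set σ : ℝ := min s₁ (1 / 16) with hσ
  have hσ0 : 0 < σ := lt_min hs₁0 (by norm_num)
  have hσ16 : σ ≤ 1 / 16 := min_le_right _ _
  obtain ⟨q, hq⟩ := exists_nat_ge (max 1 (4 * b' / σ))
  have hq1 : (1 : ℝ) ≤ q := (le_max_left _ _).trans hq
  have hq1' : 1 ≤ q := by exact_mod_cast hq1
  have hq0 : (0 : ℝ) < q := by linarith
  have hqσ : b / q ≤ σ / 4 := by
    have h1 : 4 * b' / σ ≤ q := (le_max_right _ _).trans hq
    rw [div_le_iff₀ hσ0] at h1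
    rw [div_le_div_iff₀ hq0 (by norm_num)]
    linarith
  set θ' : ℝ := min ((1 - 1 / A) / 8) (1 / (64 * b')) with hθ'
  have hθ'0 : 0 < θ' := by
    apply lt_min _ (by positivity)
    have : 1 / A < 1 := (div_lt_one hA0).2 hA
    have : 0 < 1 - 1 / A := by linarith
    positivity
  set θ : ℝ := min (min (θ' / 2) (1 / (2 * q))) θ₁ with hθ
  have hθ0 : 0 < θ := lt_min (lt_min (by positivity) (by positivity)) hθ₁
  have hθle : 2 * θ ≤ θ' := by
    have : θ ≤ θ' / 2 := (min_le_left _ _).trans (min_le_left _ _)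
    linarith
  have hθq : θ ≤ 1 / (2 * q) := (min_le_left _ _).trans (min_le_right _ _)
  obtain ⟨N₁, hN₁3, hr1⟩ := range1p A B (2 * θ) hA hB (by positivity)
    (hθle.trans (min_le_left _ _))
  obtain ⟨C₂, hC₂, hr2⟩ := range2p b' B (2 * θ) hb'0 hB (by positivity)
    (hθle.trans (min_le_right _ _))
  -- large N
  have hgap : 0 < 1 / (q : ℝ) - θ := by
    have : 1 / (2 * (q : ℝ)) < 1 / q := by
      apply one_div_lt_one_div_of_lt hq0
      linarith
    linarith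
  have hl1 : ∀ᶠ x : ℝ in atTop, 2 * (B * (q * 2 ^ q)) ≤ x ^ (1 / (q : ℝ) - θ) :=
    (tendsto_rpow_atTop hgap).eventually_ge_atTop _
  have hl2 : ∀ᶠ x : ℝ in atTop, (2 : ℝ) ^ (q + 1) ≤ x ^ θ :=
    (tendsto_rpow_atTop hθ0).eventually_ge_atTop _
  have hl3 := (tendsto_natCast_atTop_atTop (R := ℝ)).eventually (hl1.and hl2)
  obtain ⟨N₄, hN₄⟩ := eventually_atTop.1 hl3
  have hlim : ∀ᶠ X : ℕ in atTop, ((max N₁ N₄ : ℕ) : ℝ) ≤ (Real.log X) ^ A := by
    have h1 : Tendsto (fun X : ℕ => (Real.log X) ^ A) atTop atTop :=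
      (tendsto_rpow_atTop hA0).comp (Real.tendsto_log_atTop.comp tendsto_natCast_atTop_atTop)
    exact h1.eventually_ge_atTop _
  obtain ⟨X₀, hX₀⟩ := eventually_atTop.1 hlim
  set C₁ : ℝ := max 9 C₂ with hC₁
  have hC₁0 : 0 < C₁ := lt_of_lt_of_le (by norm_num) (le_max_left _ _)
  refine ⟨θ, hθ0, min_le_right _ _, σ / 2, by positivity, by linarith,
    4 * C₁ + (X₀ + 2 ^ q), by positivity, fun a ha X hX1 => ?_⟩
  have hXr : (1 : ℝ) ≤ X := by exact_mod_cast hX1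
  have hX0 : (0 : ℝ) < X := by linarith
  have hXδ : (1 : ℝ) ≤ (X : ℝ) ^ (1 - σ / 2) := Real.one_le_rpow hXr (by linarith)
  rcases Nat.lt_or_ge X (X₀ + 2 ^ q) with hlt | hge
  · have h1 : ((badp a θ A b X).card : ℝ) ≤ X := by
      have : (badp a θ A b X).card ≤ X := (card_filter_le _ _).trans (card_sqf_le X)
      exact_mod_cast this
    have h2 : (X : ℝ) ≤ X₀ + 2 ^ q := by exact_mod_cast hlt.le
    nlinarith
  have hN₀₁ := hX₀ X ((Nat.le_add_right _ _).trans hge)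
  have hX2q : (2 : ℝ) ^ q ≤ X := by
    have : 2 ^ q ≤ X := (Nat.le_add_left _ _).trans hge
    exact_mod_cast this
  set Mx : ℕ := ⌊2 * (X : ℝ) ^ (b / q)⌋₊ with hMx
  set J : ℕ := ⌈B * (X : ℝ) ^ b'⌉₊ with hJ
  set F : ℕ → ℕ → Finset ℕ := fun m j => if (Real.log X) ^ A ≤ ((m ^ q : ℕ) : ℝ) ∧
    ((m ^ q : ℕ) : ℝ) ≤ (X : ℝ) ^ b' then
    (sqf X).filter fun D : ℕ => j * ((m ^ q : ℕ) : ℝ) ^ (1 - 2 * θ) < |S (a j) (m ^ q) (D : ℤ)|
    else ∅ with hF
  have hsub : badp a θ A b X ⊆ (Icc 1 Mx).biUnion fun m => (Icc 1 J).biUnion fun j => F m j := by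
    intro D hD
    unfold badp at hD
    rw [mem_filter] at hD
    obtain ⟨hD1, N, hN1, hN2, j, hj1, hN3⟩ := hD
    have hNN : max N₁ N₄ ≤ N := by exact_mod_cast hN₀₁.trans hN1
    have hNN1 : N₁ ≤ N := (le_max_left _ _).trans hNN
    have hNN4 : N₄ ≤ N := (le_max_right _ _).trans hNN
    have hN1' : 1 ≤ N := by omega
    have hNr : (1 : ℝ) ≤ N := by exact_mod_cast hN1'
    have hN0 : (0 : ℝ) < N := by linarith
    have hjr : (1 : ℝ) ≤ j := by exact_mod_cast hj1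
    obtain ⟨m, hm1, hmN, hm2, hm3, hm4⟩ := gridp q hq1' N hN1'
    obtain ⟨g1, g2⟩ := hN₄ N hNN4
    have hmN' : (N : ℝ) ≤ ((m ^ q : ℕ) : ℝ) := by exact_mod_cast hmN
    have hmq0 : (0 : ℝ) < ((m ^ q : ℕ) : ℝ) := by linarith
    have hle : ((m ^ q : ℕ) : ℝ) ≤ (X : ℝ) ^ b' := by
      calc ((m ^ q : ℕ) : ℝ) ≤ 2 ^ q * N := hm3
        _ ≤ X * (X : ℝ) ^ b := by gcongr
        _ = (X : ℝ) ^ b' := by rw [hb', add_comm, Real.rpow_add hX0, Real.rpow_one]
    -- transfer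
    have h1 := S_lip (ha j) hmN (D : ℤ)
    have h2 : B * (((m ^ q : ℕ) : ℝ) - N) ≤ (1 / 2) * (N : ℝ) ^ (1 - θ) := by
      have h3 : B * (((m ^ q : ℕ) : ℝ) - N) ≤ B * (q * 2 ^ q * (N : ℝ) ^ (1 - 1 / (q : ℝ))) :=
        mul_le_mul_of_nonneg_left hm2 hB.le
      have h4 : (N : ℝ) ^ (1 - θ) = (N : ℝ) ^ (1 / (q : ℝ) - θ) * (N : ℝ) ^ (1 - 1 / (q : ℝ)) := by
        rw [← Real.rpow_add hN0]; congr 1; ring
      rw [h4]
      have h5 : 0 < (N : ℝ) ^ (1 - 1 / (q : ℝ)) := by positivity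
      nlinarith
    have h3 : (j : ℝ) * ((m ^ q : ℕ) : ℝ) ^ (1 - 2 * θ) < |S (a j) (m ^ q) (D : ℤ)| := by
      have h4 : |S (a j) N (D : ℤ)| ≤ |S (a j) (m ^ q) (D : ℤ)| +
          |S (a j) (m ^ q) (D : ℤ) - S (a j) N (D : ℤ)| := by
        have := abs_sub_abs_le_abs_sub (S (a j) N (D : ℤ)) (S (a j) (m ^ q) (D : ℤ))
        rw [abs_sub_comm] at this
        linarith
      have hNθ : 0 < (N : ℝ) ^ (1 - θ) := by positivity
      have h5 : (1 / 2) * (j * (N : ℝ) ^ (1 - θ)) < |S (a j) (m ^ q) (D : ℤ)| := by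
        nlinarith
      refine lt_of_le_of_lt ?_ h5
      have hexp0 : 0 ≤ 1 - 2 * θ := by
        have : θ ≤ 1 / (2 * q) := hθq
        have : 1 / (2 * (q : ℝ)) ≤ 1 / 2 := by
          apply one_div_le_one_div_of_le (by norm_num)
          linarith
        linarith
      have h6 : ((m ^ q : ℕ) : ℝ) ^ (1 - 2 * θ) ≤ 2 ^ q * (N : ℝ) ^ (1 - 2 * θ) := by
        calc ((m ^ q : ℕ) : ℝ) ^ (1 - 2 * θ) ≤ (2 ^ q * (N : ℝ)) ^ (1 - 2 * θ) :=
              Real.rpow_le_rpow hmq0.le hm3 hexp0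
          _ = ((2 : ℝ) ^ q) ^ (1 - 2 * θ) * (N : ℝ) ^ (1 - 2 * θ) :=
              Real.mul_rpow (by positivity) hN0.le
          _ ≤ 2 ^ q * (N : ℝ) ^ (1 - 2 * θ) := by
              apply mul_le_mul_of_nonneg_right _ (by positivity)
              have h7 : (1 : ℝ) ≤ 2 ^ q := one_le_pow₀ (by norm_num)
              calc ((2 : ℝ) ^ q) ^ (1 - 2 * θ) ≤ ((2 : ℝ) ^ q) ^ (1 : ℝ) :=
                    Real.rpow_le_rpow_of_exponent_le h7 (by linarith)
                _ = 2 ^ q := Real.rpow_one _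
      have h8 : (N : ℝ) ^ (1 - θ) = (N : ℝ) ^ θ * (N : ℝ) ^ (1 - 2 * θ) := by
        rw [← Real.rpow_add hN0]; congr 1; ring
      have h9 : 0 < (N : ℝ) ^ (1 - 2 * θ) := by positivity
      have h10 : 2 ^ q * (N : ℝ) ^ (1 - 2 * θ) ≤ (1 / 2) * (N : ℝ) ^ (1 - θ) := by
        rw [h8]
        rw [pow_succ] at g2
        nlinarith
      calc (j : ℝ) * ((m ^ q : ℕ) : ℝ) ^ (1 - 2 * θ) ≤ j * ((1 / 2) * (N : ℝ) ^ (1 - θ)) := by
            gcongr
            exact h6.trans h10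
        _ = (1 / 2) * (j * (N : ℝ) ^ (1 - θ)) := by ring
    rw [mem_biUnion]
    refine ⟨m, ?_, ?_⟩
    · rw [mem_Icc]
      refine ⟨hm1, ?_⟩
      rw [hMx]
      apply Nat.le_floor
      refine hm4.trans ?_
      apply mul_le_mul_of_nonneg_left _ (by norm_num)
      calc (N : ℝ) ^ (1 / (q : ℝ)) ≤ ((X : ℝ) ^ b) ^ (1 / (q : ℝ)) :=
            Real.rpow_le_rpow hN0.le hN2 (by positivity)
        _ = (X : ℝ) ^ (b / q) := by rw [← Real.rpow_mul hX0.le]; congr 1; ring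
    · rw [mem_biUnion]
      refine ⟨j, ?_, ?_⟩
      · rw [mem_Icc]
        refine ⟨hj1, ?_⟩
        rw [hJ]
        have h4 := abs_S_le (ha j) (m ^ q) (D : ℤ)
        have h5 : (1 : ℝ) ≤ ((m ^ q : ℕ) : ℝ) ^ (1 - 2 * θ) := by
          apply Real.one_le_rpow (hNr.trans hmN')
          have : 1 / (2 * (q : ℝ)) ≤ 1 / 2 := by
            apply one_div_le_one_div_of_le (by norm_num)
            linarith
          linarith
        have h6 : (j : ℝ) ≤ B * (X : ℝ) ^ b' := by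
          have h7 : B * ((m ^ q : ℕ) : ℝ) ≤ B * (X : ℝ) ^ b' := by gcongr
          nlinarith
        exact_mod_cast h6.trans (Nat.le_ceil _)
      · rw [hF]
        simp only
        rw [if_pos ⟨hN1.trans hmN', hle⟩, mem_filter]
        exact ⟨hD1, h3⟩
  have hcardF : ∀ m ∈ Icc 1 Mx, ∀ j ∈ Icc 1 J, ((F m j).card : ℝ) ≤
      C₁ * (X : ℝ) ^ (1 - σ) * (1 / (j : ℝ) ^ 2) := by
    intro m hm j hj
    rw [mem_Icc] at hj hm
    have hjr : (1 : ℝ) ≤ j := by exact_mod_cast hj.1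
    by_cases hL : (Real.log X) ^ A ≤ ((m ^ q : ℕ) : ℝ) ∧ ((m ^ q : ℕ) : ℝ) ≤ (X : ℝ) ^ b'
    · have hFj : F m j = (sqf X).filter fun D : ℕ =>
          j * ((m ^ q : ℕ) : ℝ) ^ (1 - 2 * θ) < |S (a j) (m ^ q) (D : ℤ)| := by
        rw [hF]; simp only; rw [if_pos hL]
      rw [hFj]
      have hgj : max N₁ N₄ ≤ m ^ q := by exact_mod_cast hN₀₁.trans hL.1
      have hg1 : N₁ ≤ m ^ q := (le_max_left _ _).trans hgj
      by_cases h8 : ((m ^ q : ℕ) : ℝ) ^ 8 ≤ X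
      · have h1 := hr1 (a j) (ha j) (m ^ q) X hg1 hX1 hL.1 h8 j hj.1
        have h2 : ((sqf X).filter fun D : ℕ =>
            j * ((m ^ q : ℕ) : ℝ) ^ (1 - 2 * θ) < |S (a j) (m ^ q) (D : ℤ)|).card ≤
            ((Icc 1 X).filter fun D : ℕ =>
            j * ((m ^ q : ℕ) : ℝ) ^ (1 - 2 * θ) < |S (a j) (m ^ q) (D : ℤ)|).card := by
          apply card_le_card
          apply filter_subset_filter
          exact filter_subset _ _
        have h3 : (((sqf X).filter fun D : ℕ =>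
            j * ((m ^ q : ℕ) : ℝ) ^ (1 - 2 * θ) < |S (a j) (m ^ q) (D : ℤ)|).card : ℝ) ≤
            (((Icc 1 X).filter fun D : ℕ =>
            j * ((m ^ q : ℕ) : ℝ) ^ (1 - 2 * θ) < |S (a j) (m ^ q) (D : ℤ)|).card : ℝ) := by
          exact_mod_cast h2
        refine (h3.trans h1).trans ?_
        rw [mul_one_div]
        apply div_le_div_of_nonneg_right _ (by positivity)
        apply mul_le_mul (le_max_left _ _) _ (by positivity) hC₁0.le
        apply Real.rpow_le_rpow_of_exponent_le hXr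
        have : σ ≤ s₁ := min_le_left _ _
        linarith
      · push Not at h8
        have h1 : (X : ℝ) ^ (1 / 8 : ℝ) ≤ ((m ^ q : ℕ) : ℝ) := by
          have h3 : ((X : ℝ)) ^ (1 / 8 : ℝ) ≤ (((m ^ q : ℕ) : ℝ) ^ 8) ^ (1 / 8 : ℝ) :=
            Real.rpow_le_rpow hX0.le h8.le (by norm_num)
          rw [← Real.rpow_natCast, ← Real.rpow_mul (Nat.cast_nonneg _)] at h3
          norm_num at h3
          norm_num
          exact h3
        have h3 := hr2 (a j) (ha j) (m ^ q) X (by omega) hX1 h1 hL.2 j hj.1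
        refine h3.trans ?_
        rw [mul_one_div]
        apply div_le_div_of_nonneg_right _ (by positivity)
        apply mul_le_mul (le_max_right _ _) _ (by positivity) hC₁0.le
        apply Real.rpow_le_rpow_of_exponent_le hXr
        linarith
    · have hFj : F m j = ∅ := by
        rw [hF]; simp only; rw [if_neg hL]
      rw [hFj]
      simp only [card_empty, Nat.cast_zero]
      positivity
  have h1 : ((badp a θ A b X).card : ℝ) ≤ ∑ m ∈ Icc 1 Mx, ∑ j ∈ Icc 1 J, ((F m j).card : ℝ) := by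
    have h2 := (card_le_card hsub).trans card_biUnion_le
    have h3 : ∑ m ∈ Icc 1 Mx, ((Icc 1 J).biUnion fun j => F m j).card ≤
        ∑ m ∈ Icc 1 Mx, ∑ j ∈ Icc 1 J, (F m j).card :=
      sum_le_sum fun m _ => card_biUnion_le
    exact_mod_cast h2.trans h3
  have h2 := h1.trans (sum_le_sum fun m hm => sum_le_sum fun j hj => hcardF m hm j hj)
  have h3 : ∑ m ∈ Icc 1 Mx, ∑ j ∈ Icc 1 J, C₁ * (X : ℝ) ^ (1 - σ) * (1 / (j : ℝ) ^ 2) ≤
      Mx * (C₁ * (X : ℝ) ^ (1 - σ) * 2) := by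
    rw [← nsmul_eq_mul]
    have h4 : ∀ m ∈ Icc 1 Mx, ∑ j ∈ Icc 1 J, C₁ * (X : ℝ) ^ (1 - σ) * (1 / (j : ℝ) ^ 2) ≤
        C₁ * (X : ℝ) ^ (1 - σ) * 2 := by
      intro m _
      rw [← mul_sum]
      exact mul_le_mul_of_nonneg_left (sum_inv_sq_le J) (by positivity)
    have h5 := sum_le_card_nsmul _ _ _ h4
    rwa [Nat.card_Icc, Nat.add_sub_cancel] at h5
  have h4 : (Mx : ℝ) ≤ 2 * (X : ℝ) ^ (σ / 4) := by
    have h5 : (Mx : ℝ) ≤ 2 * (X : ℝ) ^ (b / q) := Nat.floor_le (by positivity)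
    refine h5.trans ?_
    apply mul_le_mul_of_nonneg_left _ (by norm_num)
    exact Real.rpow_le_rpow_of_exponent_le hXr hqσ
  calc ((badp a θ A b X).card : ℝ) ≤ Mx * (C₁ * (X : ℝ) ^ (1 - σ) * 2) := h2.trans h3
    _ ≤ (2 * (X : ℝ) ^ (σ / 4)) * (C₁ * (X : ℝ) ^ (1 - σ) * 2) := by gcongr
    _ = 4 * C₁ * (X : ℝ) ^ (σ / 4 + (1 - σ)) := by rw [Real.rpow_add hX0]; ring
    _ ≤ 4 * C₁ * (X : ℝ) ^ (1 - σ / 2) := by
        apply mul_le_mul_of_nonneg_left _ (by positivity)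
        apply Real.rpow_le_rpow_of_exponent_le hXr
        linarith
    _ ≤ (4 * C₁ + (X₀ + 2 ^ q)) * (X : ℝ) ^ (1 - σ / 2) := by
        apply mul_le_mul_of_nonneg_right _ (by positivity)
        have : (0 : ℝ) ≤ X₀ + 2 ^ q := by positivity
        linarith

/-- the dyadic decomposition -/
theorem dyadic (P : ℕ → Prop) (Bd : ℕ → Finset ℕ) (C δ : ℝ) (X₀ : ℕ) (hC : 0 < C) (hδ1 : δ < 1)
    (h1 : ∀ X : ℕ, 1 ≤ X → ((Bd X).card : ℝ) ≤ C * (X : ℝ) ^ (1 - δ))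
    (h2 : ∀ X : ℕ, X₀ ≤ X → ∀ D ∈ sqf X, X / 2 < D → P D → D ∈ Bd X) (X : ℕ) :
    (({D : ℕ | D ∈ sqf X ∧ P D}.ncard : ℕ) : ℝ) ≤
      (C / (1 - (1 / 2 : ℝ) ^ (1 - δ)) + (X₀ + 1)) * (X : ℝ) ^ (1 - δ) := by
  classical
  set q : ℝ := (1 / 2 : ℝ) ^ (1 - δ) with hq
  have hq1 : q < 1 := Real.rpow_lt_one (by norm_num) (by norm_num) (by linarith)
  have hq0 : 0 < q := by positivity
  have h1q : 0 < 1 - q := by linarith
  set C' : ℝ := C / (1 - q) + (X₀ + 1) with hC'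
  have hC'C : C ≤ C' * (1 - q) := by
    rw [hC', add_mul, div_mul_cancel₀ _ h1q.ne']
    have : 0 ≤ ((X₀ : ℝ) + 1) * (1 - q) := by positivity
    linarith
  have hC'X : (X₀ : ℝ) + 1 ≤ C' := by
    rw [hC']
    have : 0 ≤ C / (1 - q) := by positivity
    linarith
  have hC'0 : 0 ≤ C' := le_trans (by positivity) hC'X
  have hset : ∀ X : ℕ, {D : ℕ | D ∈ sqf X ∧ P D} = (((sqf X).filter P : Finset ℕ) : Set ℕ) := by
    intro X
    ext D
    simp
  induction X using Nat.strong_induction_on with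
  | _ X ih =>
    rw [hset, Set.ncard_coe_finset]
    rcases Nat.eq_zero_or_pos X with h0 | hpos
    · subst h0
      have : ((sqf 0).filter P).card = 0 := by
        rw [card_eq_zero]
        have : sqf 0 = ∅ := by
          unfold sqf
          simp
        rw [this]
        simp
      rw [this]
      simp only [Nat.cast_zero]
      positivity
    have hX1 : (1 : ℝ) ≤ X := by exact_mod_cast hpos
    have hX0 : (0 : ℝ) < X := by linarith
    have hXδ : (1 : ℝ) ≤ (X : ℝ) ^ (1 - δ) := Real.one_le_rpow hX1 (by linarith)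
    rcases Nat.lt_or_ge X (X₀ + 1) with hlt | hge
    · have h1 : (((sqf X).filter P).card : ℝ) ≤ X := by
        have : ((sqf X).filter P).card ≤ X := (card_filter_le _ _).trans (card_sqf_le X)
        exact_mod_cast this
      have h2 : (X : ℝ) ≤ X₀ + 1 := by exact_mod_cast hlt.le
      nlinarith
    have hsub : (sqf X).filter P ⊆ (sqf (X / 2)).filter P ∪ Bd X := by
      intro D hD
      rw [mem_filter] at hD
      rw [mem_union]
      rcases le_or_gt D (X / 2) with h3 | h3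
      · left
        rw [mem_filter, mem_sqf]
        have := mem_sqf.1 hD.1
        exact ⟨⟨⟨this.1.1, h3⟩, this.2⟩, hD.2⟩
      · right
        exact h2 X (by omega) D hD.1 h3 hD.2
    have h3 : (((sqf X).filter P).card : ℝ) ≤
        ((((sqf (X / 2)).filter P).card : ℕ) : ℝ) + ((Bd X).card : ℝ) := by
      have := (card_le_card hsub).trans (card_union_le _ _)
      exact_mod_cast this
    have h4 := ih (X / 2) (by omega)
    rw [hset, Set.ncard_coe_finset] at h4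
    have h5 := h1 X hpos
    have h6 : (((X / 2 : ℕ) : ℕ) : ℝ) ^ (1 - δ) ≤ q * (X : ℝ) ^ (1 - δ) := by
      rw [hq, ← Real.mul_rpow (by norm_num) hX0.le]
      apply Real.rpow_le_rpow (Nat.cast_nonneg _) _ (by linarith)
      have := Nat.cast_div_le (α := ℝ) (m := X) (n := 2)
      push_cast at this
      linarith
    calc (((sqf X).filter P).card : ℝ) ≤ C' * (((X / 2 : ℕ) : ℕ) : ℝ) ^ (1 - δ) +
          C * (X : ℝ) ^ (1 - δ) := h3.trans (add_le_add h4 h5)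
      _ ≤ C' * (q * (X : ℝ) ^ (1 - δ)) + (C' * (1 - q)) * (X : ℝ) ^ (1 - δ) := by gcongr
      _ = C' * (X : ℝ) ^ (1 - δ) := by ring

/-- a large value at some scale -/
def Largep (a : ℕ → ℕ → ℝ) (θ A b : ℝ) (D : ℤ) : Prop :=
  ∃ N : ℕ, (Real.log |(D : ℝ)|) ^ A ≤ N ∧ (N : ℝ) ≤ |(D : ℝ)| ^ b ∧
    ∃ j : ℕ, 1 ≤ j ∧ j * (N : ℝ) ^ (1 - θ) < |S (a j) N D|

theorem bothp (A b B θ₁ : ℝ) (hA : 1 < A) (hb : 0 < b) (hB : 0 < B) (hθ₁ : 0 < θ₁) :
    ∃ θ : ℝ, 0 < θ ∧ θ ≤ θ₁ ∧ ∃ δ : ℝ, 0 < δ ∧ δ < 1 ∧ ∃ C : ℝ, 0 < C ∧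
      ∀ a : ℕ → ℕ → ℝ, (∀ j p, |a j p| ≤ B) → ∀ X : ℕ,
        (({D : ℤ | Squarefree D ∧ |D| ≤ X ∧ Largep a θ A b D}.ncard : ℕ) : ℝ) ≤
          C * (X : ℝ) ^ (1 - δ) := by
  classical
  set A' : ℝ := (1 + A) / 2 with hA'
  have hA'1 : 1 < A' := by rw [hA']; linarith
  have hA'A : A' < A := by rw [hA']; linarith
  obtain ⟨θ, hθ0, hθ1, δ, hδ0, hδ1, C, hC, h⟩ := scalesp A' b B θ₁ hA'1 hb hB hθ₁
  have hA0 : 0 < A := by linarith
  have hlim : ∀ᶠ X : ℕ in atTop, (2 : ℝ) ^ A ≤ (Real.log X) ^ (A - A') := by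
    have h1 : Tendsto (fun X : ℕ => (Real.log X) ^ (A - A')) atTop atTop :=
      (tendsto_rpow_atTop (by linarith)).comp
        (Real.tendsto_log_atTop.comp tendsto_natCast_atTop_atTop)
    exact h1.eventually_ge_atTop _
  obtain ⟨X₀, hX₀⟩ := eventually_atTop.1 hlim
  have hpos : ∀ a : ℕ → ℕ → ℝ, (∀ j p, |a j p| ≤ B) → ∀ X : ℕ,
      (({D : ℕ | D ∈ sqf X ∧ Largep a θ A b (D : ℤ)}.ncard : ℕ) : ℝ) ≤
      (C / (1 - (1 / 2 : ℝ) ^ (1 - δ)) + (((X₀ + 4 : ℕ) : ℝ) + 1)) * (X : ℝ) ^ (1 - δ) := by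
    intro a ha X
    refine dyadic (fun D => Largep a θ A b (D : ℤ)) (badp a θ A' b) C δ (X₀ + 4) hC hδ1
      (fun X hX => h a ha X hX) ?_ X
    intro X hX D hD hD2 hP
    obtain ⟨N, hN1, hN2, j, hj, hN3⟩ := hP
    have hD' := mem_sqf.1 hD
    unfold badp
    rw [mem_filter]
    refine ⟨hD, N, ?_, ?_, j, hj, hN3⟩
    · refine le_trans ?_ hN1
      have hDr : ((X : ℕ) : ℝ) / 2 ≤ D := by
        have : X ≤ 2 * D := by omega
        have : (X : ℝ) ≤ 2 * D := by exact_mod_cast this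
        linarith
      have hX4 : (4 : ℝ) ≤ X := by exact_mod_cast (by omega : 4 ≤ X)
      have hD0 : (0 : ℝ) < D := by linarith
      have e : |((D : ℤ) : ℝ)| = D := by simp
      rw [e]
      have hlogX : 0 < Real.log X := Real.log_pos (by linarith)
      have h3 : Real.log X / 2 ≤ Real.log D := by
        have h4 := Real.log_le_log (by positivity) hDr
        have h5 : Real.log ((X : ℝ) / 2) = Real.log X - Real.log 2 :=
          Real.log_div (by positivity) (by norm_num)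
        have h6 : 2 * Real.log 2 ≤ Real.log X := by
          have h7 := Real.log_le_log (by norm_num) hX4
          have h8 : Real.log 4 = 2 * Real.log 2 := by
            rw [show (4 : ℝ) = 2 ^ 2 by norm_num, Real.log_pow]
            norm_num
          linarith
        linarith
      have h9 : (Real.log X / 2) ^ A ≤ (Real.log D) ^ A :=
        Real.rpow_le_rpow (by positivity) h3 hA0.le
      refine le_trans ?_ h9
      rw [Real.div_rpow hlogX.le (by norm_num), le_div_iff₀ (by positivity)]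
      have h10 := hX₀ X (by omega)
      calc (Real.log X) ^ A' * 2 ^ A ≤ (Real.log X) ^ A' * (Real.log X) ^ (A - A') := by gcongr
        _ = (Real.log X) ^ A := by rw [← Real.rpow_add hlogX]; congr 1; ring
    · refine hN2.trans ?_
      have e : |((D : ℤ) : ℝ)| = D := by simp
      rw [e]
      apply Real.rpow_le_rpow (Nat.cast_nonneg _) _ hb.le
      exact_mod_cast hD'.1.2
  set C' : ℝ := C / (1 - (1 / 2 : ℝ) ^ (1 - δ)) + (((X₀ + 4 : ℕ) : ℝ) + 1) with hC'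
  have hC'0 : 0 < C' := by
    have hq1 : (1 / 2 : ℝ) ^ (1 - δ) < 1 :=
      Real.rpow_lt_one (by norm_num) (by norm_num) (by linarith)
    have : 0 < 1 - (1 / 2 : ℝ) ^ (1 - δ) := by linarith
    positivity
  refine ⟨θ, hθ0, hθ1, δ, hδ0, hδ1, 2 * C', by positivity, fun a ha X => ?_⟩
  have hfin : ∀ p : ℕ → Prop, {D : ℕ | D ∈ sqf X ∧ p D}.Finite := fun p =>
    (Finset.finite_toSet (sqf X)).subset fun D hD => hD.1
  have hsub : {D : ℤ | Squarefree D ∧ |D| ≤ X ∧ Largep a θ A b D} ⊆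
      (fun n : ℕ => (n : ℤ)) '' {D : ℕ | D ∈ sqf X ∧ Largep a θ A b (D : ℤ)} ∪
      (fun n : ℕ => -(n : ℤ)) ''
        {D : ℕ | D ∈ sqf X ∧ Largep (fun j => neg (a j)) θ A b (D : ℤ)} := by
    rintro D ⟨h1, h2, h3⟩
    have hD0 : D ≠ 0 := h1.ne_zero
    have hsq : Squarefree D.natAbs := Int.squarefree_natAbs.2 h1
    have h2' : D.natAbs ≤ X := by
      rw [Int.abs_eq_natAbs] at h2
      exact_mod_cast h2
    rcases lt_or_gt_of_ne hD0 with hneg | hpos'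
    · right
      refine ⟨D.natAbs, ⟨?_, ?_⟩, ?_⟩
      · rw [mem_sqf]
        exact ⟨⟨by omega, h2'⟩, hsq⟩
      · obtain ⟨N, hN1, hN2, j, hj, hN3⟩ := h3
        have e : ((D.natAbs : ℕ) : ℤ) = -D := by omega
        rw [e]
        refine ⟨N, ?_, ?_, j, hj, ?_⟩
        · push_cast; rw [abs_neg]; exact hN1
        · push_cast; rw [abs_neg]; exact hN2
        · rw [S_neg, neg_neg]; exact hN3
      · show -((D.natAbs : ℕ) : ℤ) = D
        omega
    · left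
      refine ⟨D.natAbs, ⟨?_, ?_⟩, ?_⟩
      · rw [mem_sqf]
        exact ⟨⟨by omega, h2'⟩, hsq⟩
      · have e : ((D.natAbs : ℕ) : ℤ) = D := by omega
        rw [e]
        exact h3
      · show ((D.natAbs : ℕ) : ℤ) = D
        omega
  have h1 := Set.ncard_le_ncard hsub (((hfin _).image _).union ((hfin _).image _))
  have h2 := h1.trans (Set.ncard_union_le _ _)
  have h3 := h2.trans (add_le_add (Set.ncard_image_le (hfin _)) (Set.ncard_image_le (hfin _)))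
  have h4 : (({D : ℤ | Squarefree D ∧ |D| ≤ X ∧ Largep a θ A b D}.ncard : ℕ) : ℝ) ≤
      (({D : ℕ | D ∈ sqf X ∧ Largep a θ A b (D : ℤ)}.ncard : ℕ) : ℝ) +
      (({D : ℕ | D ∈ sqf X ∧ Largep (fun j => neg (a j)) θ A b (D : ℤ)}.ncard : ℕ) : ℝ) := by
    exact_mod_cast h3
  have h5 := hpos a ha X
  have h6 := hpos (fun j => neg (a j)) (fun j p => by
    unfold neg
    rw [abs_mul]
    exact (mul_le_of_le_one_right (abs_nonneg _) (jr_abs _ _)).trans (ha j p)) X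
  linarith

end Pool.Agent.H821.ST
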