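import Pool.Agent.H821.ST.Main
import Pool.Agent.H821.ST.Pow2

/-! The symmetrization theorem with a power saving, for all functions of a sequence. -/

set_option autoImplicit false

namespace Pool.Agent.H821.ST

open Finset Filter Topology NumberField IsDedekindDomain
open Pool.Agent.W540.BE (nm upto mem_upto fiber_finite fiber_card two_le_nm sum_nf nf)

section

variable {K : Type} [Field K] [NumberField K]

theorem card_ng_le_rpow {A : ℝ} (hA : 1 < A) {N : ℕ} (hN : 1 ≤ N) {D : ℤ} (hD : D ≠ 0)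
    (hDN : (Real.log |(D : ℝ)|) ^ A ≤ N) :
    ((ng K N D).card : ℝ) ≤ ((Module.finrank ℚ K : ℝ) + 1) * (2 + 1 / Real.log 2) *
      (N : ℝ) ^ (max (1 / 2) (1 / A) : ℝ) := by
  set d : ℝ := (Module.finrank ℚ K : ℝ) with hd
  have hd0 : 0 ≤ d := Nat.cast_nonneg _
  have hA0 : 0 < A := by linarith
  set s : ℝ := max (1 / 2) (1 / A) with hs
  have hs0 : 0 < s := lt_max_of_lt_left (by norm_num)
  have hl2 : 0 < Real.log 2 := Real.log_pos (by norm_num)
  have hN1 : (1 : ℝ) ≤ N := by exact_mod_cast hN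
  have hN0 : (0 : ℝ) < N := by linarith
  have hDr : 1 ≤ |(D : ℝ)| := by
    have h6 : (1 : ℤ) ≤ |D| := Int.one_le_abs hD
    have h7 : ((1 : ℤ) : ℝ) ≤ ((|D| : ℤ) : ℝ) := by exact_mod_cast h6
    simpa using h7
  have hlD : 0 ≤ Real.log |(D : ℝ)| := Real.log_nonneg hDr
  have hlogD : Real.log |(D : ℝ)| ≤ (N : ℝ) ^ (1 / A) := by
    have h6 : ((Real.log |(D : ℝ)|) ^ A) ^ (1 / A) ≤ (N : ℝ) ^ (1 / A) :=
      Real.rpow_le_rpow (by positivity) hDN (by positivity)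
    rwa [← Real.rpow_mul hlD, mul_one_div_cancel hA0.ne', Real.rpow_one] at h6
  have hA1 : (N : ℝ) ^ (1 / A) ≤ (N : ℝ) ^ s :=
    Real.rpow_le_rpow_of_exponent_le hN1 (le_max_right _ _)
  have hsq : Real.sqrt N ≤ (N : ℝ) ^ s := by
    rw [Real.sqrt_eq_rpow]
    exact Real.rpow_le_rpow_of_exponent_le hN1 (le_max_left _ _)
  have hone : (1 : ℝ) ≤ (N : ℝ) ^ s := Real.one_le_rpow hN1 hs0.le
  have hcard := card_ng_le (K := K) N hD
  rw [Real.log_mul (by norm_num) (by positivity), add_div, div_self hl2.ne'] at hcard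
  refine hcard.trans ?_
  have h9 : Real.log |(D : ℝ)| / Real.log 2 ≤ (N : ℝ) ^ s / Real.log 2 :=
    div_le_div_of_nonneg_right (hlogD.trans hA1) hl2.le
  calc d * (Real.sqrt N + (1 + Real.log |(D : ℝ)| / Real.log 2))
      ≤ (d + 1) * ((N : ℝ) ^ s + ((N : ℝ) ^ s + (N : ℝ) ^ s / Real.log 2)) := by
        apply mul_le_mul (by linarith) _ (by positivity) (by positivity)
        linarith
    _ = (d + 1) * (2 + 1 / Real.log 2) * (N : ℝ) ^ s := by ring

/-- the exceptional set of a sequence of test functions -/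
def excp (K : Type) [Field K] [NumberField K] (θ A b : ℝ)
    (P Q : ℕ → HeightOneSpectrum (𝓞 K) → ℂ) : Set ℤ :=
  {D : ℤ | Squarefree D ∧ (Largep (fun j => co (gre 1 (P j) (Q j))) θ A b D ∨
    Largep (fun j => co (gim 1 (P j) (Q j))) θ A b D)}

theorem onep (K : Type) [Field K] [NumberField K] (A b : ℝ) (hA : 1 < A) (hb : 0 < b) :
    ∃ θ : ℝ, 0 < θ ∧ ∃ δ : ℝ, 0 < δ ∧ δ < 1 ∧ ∃ C : ℝ, 0 < C ∧ ∃ D₀ : ℕ,
      ∀ P Q : ℕ → HeightOneSpectrum (𝓞 K) → ℂ,
      (∀ j v, ‖P j v‖ ≤ 1) → (∀ j v, ‖Q j v‖ ≤ 1) → ∃ E : Set ℤ,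
        (∀ X : ℕ, (({D : ℤ | D ∈ E ∧ |D| ≤ X}.ncard : ℕ) : ℝ) ≤ C * (X : ℝ) ^ (1 - δ)) ∧
        ∀ D : ℤ, Squarefree D → D ∉ E → (D₀ : ℤ) ≤ |D| →
            ∀ N : ℕ, (Real.log |(D : ℝ)|) ^ A ≤ N → (N : ℝ) ≤ |(D : ℝ)| ^ b →
          ∀ j : ℕ, 1 ≤ j → ∀ R : HeightOneSpectrum (𝓞 K) → ℂ, (∀ v, ‖R v‖ ≤ 1) →
            Tw D (P j) (Q j) R →
              ‖mean R N - (mean (P j) N + mean (Q j) N) / 2‖ ≤ j * (N : ℝ) ^ (-θ) := by
  classical
  have hA0 : 0 < A := by linarith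
  set s : ℝ := max (1 / 2) (1 / A) with hs
  have hs0 : 0 < s := lt_max_of_lt_left (by norm_num)
  have hs1 : s < 1 := max_lt (by norm_num) ((div_lt_one hA0).2 hA)
  have hd : 0 < (Module.finrank ℚ K : ℝ) := by exact_mod_cast Module.finrank_pos
  have hgap : 0 < (1 - s) / 2 := by linarith
  obtain ⟨θ₀, hθ0, hθ1, δ, hδ0, hδ1, C, hC, h⟩ := bothp A b _ ((1 - s) / 2) hA hb hd hgap
  have hl2 : 0 < Real.log 2 := Real.log_pos (by norm_num)
  set c₀ : ℝ := 3 * (((Module.finrank ℚ K : ℝ) + 1) * (2 + 1 / Real.log 2)) with hc₀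
  -- large N
  have h1 : ∀ᶠ x : ℝ in atTop, c₀ ≤ x ^ ((1 - s) / 2) := (tendsto_rpow_atTop hgap).eventually_ge_atTop _
  have h2 : ∀ᶠ x : ℝ in atTop, ‖Real.log x‖ ≤ (1 / 6) * ‖x ^ (θ₀ / 2)‖ :=
    (isLittleO_log_rpow_atTop (show 0 < θ₀ / 2 by positivity)).bound (by norm_num)
  have h12 := (tendsto_natCast_atTop_atTop (R := ℝ)).eventually (h1.and h2)
  have h3 : ∀ᶠ N : ℕ in atTop, (1 / 2 : ℝ) ≤ uK K N * Real.log N / N :=
    uK_tendsto.eventually_const_le (by norm_num)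
  obtain ⟨M₁, hM₁⟩ := eventually_atTop.1 (h12.and h3)
  have hlim : ∀ᶠ X : ℕ in atTop, ((max 3 M₁ : ℕ) : ℝ) ≤ (Real.log X) ^ A := by
    have h1 : Tendsto (fun X : ℕ => (Real.log X) ^ A) atTop atTop :=
      (tendsto_rpow_atTop hA0).comp (Real.tendsto_log_atTop.comp tendsto_natCast_atTop_atTop)
    exact h1.eventually_ge_atTop _
  obtain ⟨X₀, hX₀⟩ := eventually_atTop.1 hlim
  refine ⟨θ₀ / 2, by positivity, δ, hδ0, hδ1, 2 * C, by positivity, X₀, fun P Q hP hQ =>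
    ⟨excp K θ₀ A b P Q, fun X => ?_, ?_⟩⟩
  · have hre : ∀ j p, |co (gre 1 (P j) (Q j)) p| ≤ (Module.finrank ℚ K : ℝ) := fun j p =>
      (cond_co (abs_gre_le one_pos (hP j) (hQ j))).le p
    have him : ∀ j p, |co (gim 1 (P j) (Q j)) p| ≤ (Module.finrank ℚ K : ℝ) := fun j p =>
      (cond_co (abs_gim_le one_pos (hP j) (hQ j))).le p
    have h1 := h (fun j => co (gre 1 (P j) (Q j))) hre X
    have h2 := h (fun j => co (gim 1 (P j) (Q j))) him X
    have hfin : ∀ p : ℤ → Prop, {D : ℤ | Squarefree D ∧ |D| ≤ X ∧ p D}.Finite := by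
      intro p
      apply (Set.finite_Icc (-(X : ℤ)) X).subset
      rintro D ⟨_, h3, _⟩
      exact abs_le.1 h3
    have hsub : {D : ℤ | D ∈ excp K θ₀ A b P Q ∧ |D| ≤ X} ⊆
        {D : ℤ | Squarefree D ∧ |D| ≤ X ∧ Largep (fun j => co (gre 1 (P j) (Q j))) θ₀ A b D} ∪
        {D : ℤ | Squarefree D ∧ |D| ≤ X ∧ Largep (fun j => co (gim 1 (P j) (Q j))) θ₀ A b D} := by
      rintro D ⟨⟨h3, h4⟩, h5⟩
      rcases h4 with h4 | h4
      · exact Or.inl ⟨h3, h5, h4⟩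
      · exact Or.inr ⟨h3, h5, h4⟩
    have h3 := (Set.ncard_le_ncard hsub ((hfin _).union (hfin _))).trans (Set.ncard_union_le _ _)
    have h4 : (({D : ℤ | D ∈ excp K θ₀ A b P Q ∧ |D| ≤ X}.ncard : ℕ) : ℝ) ≤
        (({D : ℤ | Squarefree D ∧ |D| ≤ X ∧
          Largep (fun j => co (gre 1 (P j) (Q j))) θ₀ A b D}.ncard : ℕ) : ℝ)
        + (({D : ℤ | Squarefree D ∧ |D| ≤ X ∧
          Largep (fun j => co (gim 1 (P j) (Q j))) θ₀ A b D}.ncard : ℕ) : ℝ) := by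
      exact_mod_cast h3
    linarith
  · intro D hD hDE hD0 N hN1 hN2 j hj R hR hT
    have hDne : D ≠ 0 := hD.ne_zero
    have hN : max 3 M₁ ≤ N := by
      have h0 : X₀ ≤ D.natAbs := by
        rw [Int.abs_eq_natAbs] at hD0
        exact_mod_cast hD0
      have h1 := hX₀ D.natAbs h0
      have e : ((D.natAbs : ℕ) : ℝ) = |(D : ℝ)| := by
        rw [Nat.cast_natAbs]; push_cast; rfl
      rw [e] at h1
      exact_mod_cast h1.trans hN1
    have hN3 : 3 ≤ N := (le_max_left _ _).trans hN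
    have hNr : (3 : ℝ) ≤ N := by exact_mod_cast hN3
    have hN0 : (0 : ℝ) < N := by linarith
    have hN1' : (1 : ℝ) ≤ N := by linarith
    have hL0 : 0 < Real.log N := Real.log_pos (by linarith)
    have hjr : (1 : ℝ) ≤ j := by exact_mod_cast hj
    obtain ⟨⟨g1, g2⟩, g3⟩ := hM₁ N ((le_max_right _ _).trans hN)
    rw [Real.norm_of_nonneg hL0.le, Real.norm_of_nonneg (by positivity)] at g2
    rw [le_div_iff₀ hN0] at g3
    have h1 := sum_le one_pos (hP j) (hQ j) hR hT N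
    rw [one_mul, one_mul, mul_one] at h1
    have h2 := card_ng_le_rpow (K := K) hA (by omega : 1 ≤ N) hDne hN1
    have h3 : |S (co (gre 1 (P j) (Q j))) N D| ≤ j * (N : ℝ) ^ (1 - θ₀) := by
      by_contra hcon
      push Not at hcon
      exact hDE ⟨hD, Or.inl ⟨N, hN1, hN2, j, hj, hcon⟩⟩
    have h4 : |S (co (gim 1 (P j) (Q j))) N D| ≤ j * (N : ℝ) ^ (1 - θ₀) := by
      by_contra hcon
      push Not at hcon
      exact hDE ⟨hD, Or.inr ⟨N, hN1, hN2, j, hj, hcon⟩⟩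
    have h5 : 3 * ((ng K N D).card : ℝ) ≤ j * (N : ℝ) ^ (1 - θ₀) := by
      calc 3 * ((ng K N D).card : ℝ) ≤ c₀ * (N : ℝ) ^ s := by
            rw [hc₀]
            linarith
        _ ≤ (N : ℝ) ^ ((1 - s) / 2) * (N : ℝ) ^ s := by gcongr
        _ = (N : ℝ) ^ ((1 - s) / 2 + s) := (Real.rpow_add hN0 _ _).symm
        _ ≤ (N : ℝ) ^ (1 - θ₀) := Real.rpow_le_rpow_of_exponent_le hN1' (by linarith)
        _ ≤ j * (N : ℝ) ^ (1 - θ₀) := by
            apply le_mul_of_one_le_left (by positivity) hjr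
    have h6 : ‖∑ v ∈ upto K N, (R v - (P j v + Q j v) / 2)‖ ≤ 3 * (j * (N : ℝ) ^ (1 - θ₀)) := by
      linarith
    have hu : 0 < uK K N := by
      by_contra hcon
      push Not at hcon
      have : uK K N * Real.log N ≤ 0 := mul_nonpos_of_nonpos_of_nonneg hcon hL0.le
      linarith
    have hu' : ((upto K N).card : ℂ) ≠ 0 := by
      have : (upto K N).card ≠ 0 := by
        intro h0
        unfold uK at hu
        rw [h0] at hu
        norm_num at hu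
      exact_mod_cast this
    have e2 : mean R N - (mean (P j) N + mean (Q j) N) / 2 =
        (∑ v ∈ upto K N, (R v - (P j v + Q j v) / 2)) / ((upto K N).card : ℂ) := by
      unfold mean
      rw [sum_sub_distrib, ← sum_div, sum_add_distrib]
      field_simp
    rw [e2, norm_div, Complex.norm_natCast]
    have h7 : 3 * (j * (N : ℝ) ^ (1 - θ₀)) ≤ j * (N : ℝ) ^ (-(θ₀ / 2)) * uK K N := by
      -- multiply by log N
      have h8 : 3 * (j * (N : ℝ) ^ (1 - θ₀)) * Real.log N ≤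
          j * (N : ℝ) ^ (-(θ₀ / 2)) * uK K N * Real.log N := by
        calc 3 * (j * (N : ℝ) ^ (1 - θ₀)) * Real.log N
            ≤ 3 * (j * (N : ℝ) ^ (1 - θ₀)) * (1 / 6 * (N : ℝ) ^ (θ₀ / 2)) := by gcongr
          _ = j * ((N : ℝ) ^ (1 - θ₀) * (N : ℝ) ^ (θ₀ / 2)) / 2 := by ring
          _ = j * ((N : ℝ) ^ (-(θ₀ / 2)) * (N : ℝ) ^ (1 : ℝ)) / 2 := by
              rw [← Real.rpow_add hN0, ← Real.rpow_add hN0]
              congr 3
              ring
          _ = j * (N : ℝ) ^ (-(θ₀ / 2)) * (1 / 2 * N) := by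
              rw [Real.rpow_one]
              ring
          _ ≤ j * (N : ℝ) ^ (-(θ₀ / 2)) * (uK K N * Real.log N) := by gcongr
          _ = j * (N : ℝ) ^ (-(θ₀ / 2)) * uK K N * Real.log N := by ring
      exact le_of_mul_le_mul_right h8 hL0
    unfold uK at h7 hu
    rw [div_le_iff₀ hu]
    exact h6.trans h7

end

end Pool.Agent.H821.ST
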