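import Pool.Agent.H821.ST.Sq
import Pool.Agent.H568.SP.Moment
import Pool.Agent.H38R2.CG.LM2

/-! High moments of sums over primes of quadratic characters. -/

set_option autoImplicit false

namespace Pool.Agent.H821.ST

open Finset

/-- odd primes up to `N` -/
def op (N : ℕ) : Finset ℕ := (Icc 1 N).filter fun p => p.Prime ∧ p ≠ 2

theorem mem_op {N p : ℕ} : p ∈ op N ↔ p.Prime ∧ p ≠ 2 ∧ p ≤ N := by
  unfold op
  rw [mem_filter, mem_Icc]
  constructor
  · rintro ⟨⟨_, h2⟩, h3, h4⟩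
    exact ⟨h3, h4, h2⟩
  · rintro ⟨h1, h2, h3⟩
    exact ⟨⟨h1.one_lt.le, h3⟩, h1, h2⟩

theorem card_op_le (N : ℕ) : (op N).card ≤ N := by
  refine (card_filter_le _ _).trans ?_
  rw [Nat.card_Icc]
  omega

/-- the real Jacobi symbol -/
noncomputable def jr (D : ℤ) (n : ℕ) : ℝ := ((jacobiSym D n : ℤ) : ℝ)

theorem jr_abs (D : ℤ) (n : ℕ) : |jr D n| ≤ 1 := by
  unfold jr
  rcases jacobiSym.trichotomy D n with h | h | h <;> rw [h] <;> norm_num

/-- the twisted sum over the odd primes -/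
noncomputable def S (a : ℕ → ℝ) (N : ℕ) (D : ℤ) : ℝ := ∑ p ∈ op N, a p * jr D p

theorem prod_jr {n : ℕ} (g : Fin n → ℕ) (hg : ∀ i, g i ≠ 0) (D : ℤ) :
    ∏ i, jr D (g i) = jr D (∏ i, g i) := by
  induction n with
  | zero => simp [jr]
  | succ n ih =>
    rw [Fin.prod_univ_succ, Fin.prod_univ_succ, ih _ fun i => hg _]
    unfold jr
    rw [jacobiSym.mul_right' _ (hg 0) (Finset.prod_ne_zero_iff.2 fun i _ => hg _)]
    push_cast
    rfl

theorem sum_jr_le {m : ℕ} (hm : Odd m) (hs : ¬ IsSquare m) (X : ℕ) :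
    |∑ D ∈ Icc 1 X, jr (D : ℤ) m| ≤ 8 * m := by
  have hm2 : 2 ≤ m := by
    rcases Nat.lt_or_ge m 2 with h | h
    · exfalso
      interval_cases m
      · exact absurd hm (by decide)
      · exact hs ⟨1, rfl⟩
    · exact h
  have h1 := Pool.Agent.H568.SP.jac_sum_le m hm2 (Pool.Agent.H38R2.CG.LM2h.exists_neg m hm hs) X
  unfold jr
  refine h1.trans ?_
  have hm0 : (0 : ℝ) < m := by exact_mod_cast (by omega : 0 < m)
  have hs0 : 0 < Real.sqrt m := Real.sqrt_pos.2 hm0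
  have h2 : Real.log m ≤ 2 * (Real.sqrt m - 1) := by
    have h3 := Real.log_le_sub_one_of_pos hs0
    have h4 : Real.log m = 2 * Real.log (Real.sqrt m) := by
      rw [Real.log_sqrt hm0.le]; ring
    rw [h4]; linarith
  have h5 : Real.sqrt m * Real.sqrt m = m := Real.mul_self_sqrt hm0.le
  nlinarith

theorem moment (a : ℕ → ℝ) (B : ℝ) (ha : ∀ p, |a p| ≤ B) (N X k : ℕ)
    (hX : (N : ℝ) ^ (4 * k) ≤ X) :
    ∑ D ∈ Icc 1 X, (S a N (D : ℤ)) ^ (2 * k) ≤
      X * ((2 * k) ^ k * (N : ℝ) ^ k * B ^ (2 * k)) + 8 * X * B ^ (2 * k) := by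
  classical
  have hB : 0 ≤ B := (abs_nonneg _).trans (ha 0)
  have hexp : ∀ D : ℤ, (S a N D) ^ (2 * k) =
      ∑ g ∈ Fintype.piFinset (fun _ : Fin (2 * k) => op N), (∏ i, a (g i)) * jr D (∏ i, g i) := by
    intro D
    have h1 : (S a N D) ^ (2 * k) = ∏ _i : Fin (2 * k), ∑ p ∈ op N, a p * jr D p := by
      rw [Finset.prod_const, card_univ, Fintype.card_fin]
      rfl
    rw [h1, Finset.prod_univ_sum]
    refine sum_congr rfl fun g hg => ?_
    rw [prod_mul_distrib, prod_jr]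
    intro i
    rw [Fintype.mem_piFinset] at hg
    exact (mem_op.1 (hg i)).1.ne_zero
  have h2 : ∑ D ∈ Icc 1 X, (S a N (D : ℤ)) ^ (2 * k) =
      ∑ g ∈ Fintype.piFinset (fun _ : Fin (2 * k) => op N), (∏ i, a (g i)) *
        ∑ D ∈ Icc 1 X, jr (D : ℤ) (∏ i, g i) := by
    simp_rw [hexp]
    rw [sum_comm]
    exact sum_congr rfl fun g _ => by rw [mul_sum]
  rw [h2, ← Finset.sum_filter_add_sum_filter_not _ (fun g => IsSquare (∏ i, g i))]
  have hprod : ∀ g : Fin (2 * k) → ℕ, |∏ i, a (g i)| ≤ B ^ (2 * k) := by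
    intro g
    rw [abs_prod]
    refine (prod_le_prod (fun i _ => abs_nonneg _) (fun i _ => ha _)).trans ?_
    rw [prod_const, card_univ, Fintype.card_fin]
  have hcard : ((op N).card : ℝ) ≤ N := by exact_mod_cast card_op_le N
  refine add_le_add ?_ ?_
  · have h3 : ∀ g ∈ (Fintype.piFinset (fun _ : Fin (2 * k) => op N)).filter
        (fun g => IsSquare (∏ i, g i)), (∏ i, a (g i)) * ∑ D ∈ Icc 1 X, jr (D : ℤ) (∏ i, g i) ≤
        B ^ (2 * k) * X := by
      intro g _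
      refine (le_abs_self _).trans ?_
      rw [abs_mul]
      refine mul_le_mul (hprod g) ?_ (abs_nonneg _) (by positivity)
      refine (abs_sum_le_sum_abs _ _).trans ((sum_le_sum fun D _ => jr_abs _ _).trans ?_)
      simp
    refine (sum_le_card_nsmul _ _ _ h3).trans ?_
    rw [nsmul_eq_mul]
    have h4 := card_sqT (op N) (fun p hp => (mem_op.1 hp).1) k
    have h5 : (((sqT (op N) (2 * k)).card : ℕ) : ℝ) ≤ (2 * k) ^ k * (N : ℝ) ^ k := by
      calc (((sqT (op N) (2 * k)).card : ℕ) : ℝ) ≤ (((2 * k) ^ k * (op N).card ^ k : ℕ) : ℝ) := by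
            exact_mod_cast h4
        _ = (2 * k) ^ k * ((op N).card : ℝ) ^ k := by push_cast; ring
        _ ≤ _ := by gcongr
    have h6 : 0 ≤ B ^ (2 * k) * (X : ℝ) := by positivity
    calc _ ≤ ((2 * k) ^ k * (N : ℝ) ^ k) * (B ^ (2 * k) * X) :=
          mul_le_mul_of_nonneg_right h5 h6
      _ = _ := by ring
  · have h3 : ∀ g ∈ (Fintype.piFinset (fun _ : Fin (2 * k) => op N)).filter
        (fun g => ¬ IsSquare (∏ i, g i)), (∏ i, a (g i)) * ∑ D ∈ Icc 1 X, jr (D : ℤ) (∏ i, g i) ≤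
        B ^ (2 * k) * (8 * (N : ℝ) ^ (2 * k)) := by
      intro g hg
      rw [mem_filter, Fintype.mem_piFinset] at hg
      refine (le_abs_self _).trans ?_
      rw [abs_mul]
      refine mul_le_mul (hprod g) ?_ (abs_nonneg _) (by positivity)
      have hodd : Odd (∏ i, g i) := by
        apply Finset.prod_induction _ Odd (fun a b ha hb => ha.mul hb) odd_one
        intro i _
        have := mem_op.1 (hg.1 i)
        exact this.1.odd_of_ne_two this.2.1
      refine (sum_jr_le hodd hg.2 X).trans ?_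
      have h4 : (∏ i, g i : ℕ) ≤ N ^ (2 * k) := by
        calc ∏ i, g i ≤ ∏ _i : Fin (2 * k), N :=
              Finset.prod_le_prod' fun i _ => (mem_op.1 (hg.1 i)).2.2
          _ = N ^ (2 * k) := by rw [Finset.prod_const, card_univ, Fintype.card_fin]
      have h5 : ((∏ i, g i : ℕ) : ℝ) ≤ (N : ℝ) ^ (2 * k) := by exact_mod_cast h4
      linarith
    refine (sum_le_card_nsmul _ _ _ h3).trans ?_
    rw [nsmul_eq_mul]
    have h4 : (((Fintype.piFinset (fun _ : Fin (2 * k) => op N)).filter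
        (fun g => ¬ IsSquare (∏ i, g i))).card : ℝ) ≤ (N : ℝ) ^ (2 * k) := by
      have h5 : ((Fintype.piFinset (fun _ : Fin (2 * k) => op N)).filter
        (fun g => ¬ IsSquare (∏ i, g i))).card ≤ (op N).card ^ (2 * k) := by
        refine (card_filter_le _ _).trans ?_
        rw [Fintype.card_piFinset, prod_const, card_univ, Fintype.card_fin]
      calc _ ≤ (((op N).card ^ (2 * k) : ℕ) : ℝ) := by exact_mod_cast h5
        _ = ((op N).card : ℝ) ^ (2 * k) := by push_cast; ring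
        _ ≤ _ := by gcongr
    have h6 : 0 ≤ B ^ (2 * k) * (8 * (N : ℝ) ^ (2 * k)) := by positivity
    calc _ ≤ (N : ℝ) ^ (2 * k) * (B ^ (2 * k) * (8 * (N : ℝ) ^ (2 * k))) :=
          mul_le_mul_of_nonneg_right h4 h6
      _ = 8 * (N : ℝ) ^ (4 * k) * B ^ (2 * k) := by
          rw [show 4 * k = 2 * k + 2 * k by ring, pow_add]; ring
      _ ≤ 8 * X * B ^ (2 * k) := by gcongr

/-- the number of large values, first range -/
theorem count1 (a : ℕ → ℝ) (B : ℝ) (hB1 : 0 < B) (ha : ∀ p, |a p| ≤ B) (N X k : ℕ) (hN : 1 ≤ N)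
    (hk : 1 ≤ k) (hX : (N : ℝ) ^ (4 * k) ≤ X) (t : ℝ) (ht : 0 < t) :
    (((Icc 1 X).filter fun D : ℕ => t < |S a N (D : ℤ)|).card : ℝ) ≤
      9 * X * (2 * k * N * B ^ 2 / t ^ 2) ^ k := by
  classical
  have h1 := moment a B ha N X k hX
  have h2 : (((Icc 1 X).filter fun D : ℕ => t < |S a N (D : ℤ)|).card : ℝ) * t ^ (2 * k) ≤
      ∑ D ∈ Icc 1 X, (S a N (D : ℤ)) ^ (2 * k) := by
    rw [← nsmul_eq_mul]
    refine (card_nsmul_le_sum _ (fun D : ℕ => (S a N (D : ℤ)) ^ (2 * k)) _ fun D hD => ?_).trans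
      (sum_le_sum_of_subset_of_nonneg (filter_subset _ _) fun D _ _ => ?_)
    · rw [mem_filter] at hD
      have h3 : (S a N (D : ℤ)) ^ (2 * k) = |S a N (D : ℤ)| ^ (2 * k) := by
        rw [pow_mul, pow_mul, sq_abs]
      rw [h3]
      exact pow_le_pow_left₀ ht.le hD.2.le _
    · rw [pow_mul]
      positivity
  have hN1 : (1 : ℝ) ≤ N := by exact_mod_cast hN
  have hk1 : (1 : ℝ) ≤ k := by exact_mod_cast hk
  have h4 : (1 : ℝ) ≤ (2 * k) ^ k * (N : ℝ) ^ k := by
    have h5 : (1 : ℝ) ≤ (2 * k) ^ k := one_le_pow₀ (by linarith)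
    have h6 : (1 : ℝ) ≤ (N : ℝ) ^ k := one_le_pow₀ hN1
    nlinarith
  have ht2 : 0 < t ^ (2 * k) := by positivity
  have h7 : (((Icc 1 X).filter fun D : ℕ => t < |S a N (D : ℤ)|).card : ℝ) * t ^ (2 * k) ≤
      9 * X * ((2 * k) ^ k * (N : ℝ) ^ k * B ^ (2 * k)) := by
    refine h2.trans (h1.trans ?_)
    have h8 : 8 * (X : ℝ) * B ^ (2 * k) ≤ 8 * X * ((2 * k) ^ k * (N : ℝ) ^ k * B ^ (2 * k)) := by
      have : B ^ (2 * k) ≤ (2 * k) ^ k * (N : ℝ) ^ k * B ^ (2 * k) := by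
        have h9 : 0 ≤ B ^ (2 * k) := by positivity
        nlinarith
      gcongr
    linarith
  rw [← le_div_iff₀ ht2] at h7
  refine h7.trans (le_of_eq ?_)
  rw [div_pow, mul_pow, mul_pow, mul_pow, ← pow_mul, ← pow_mul]
  ring

end Pool.Agent.H821.ST
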