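import Pool.Agent.H821.ST.Dy

/-! Power savings for the scales up to a power of the discriminant. -/

set_option autoImplicit false

namespace Pool.Agent.H821.ST

open Finset Filter Topology
open Pool.Agent.H306R2.RZ (sqf)

/-- first range -/
theorem range1p (A B θ : ℝ) (hA : 1 < A) (hB : 0 < B) (hθ : 0 < θ) (hθ1 : θ ≤ (1 - 1 / A) / 8) :
    ∃ N₁ : ℕ, 3 ≤ N₁ ∧
    ∀ (a : ℕ → ℝ), (∀ p, |a p| ≤ B) → ∀ N X : ℕ, N₁ ≤ N → 1 ≤ X → (Real.log X) ^ A ≤ N →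
      (N : ℝ) ^ 8 ≤ X → ∀ j : ℕ, 1 ≤ j →
      (((Icc 1 X).filter fun D : ℕ => j * (N : ℝ) ^ (1 - θ) < |S a N (D : ℤ)|).card : ℝ) ≤
        9 * (X : ℝ) ^ (1 - (1 - 1 / A) / 16) / (j : ℝ) ^ 2 := by
  set s : ℝ := 1 - 1 / A with hs
  have hs0 : 0 < s := by
    rw [hs]
    have : 1 / A < 1 := (div_lt_one (by linarith)).2 hA
    linarith
  have h1 : ∀ᶠ x : ℝ in atTop, B ^ 2 ≤ x ^ (s / 4) :=
    (tendsto_rpow_atTop (by positivity)).eventually_ge_atTop _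
  have h2 := (tendsto_natCast_atTop_atTop (R := ℝ)).eventually h1
  obtain ⟨N₁, hN₁⟩ := eventually_atTop.1 h2
  refine ⟨max 3 N₁, le_max_left _ _, fun a ha N X hN hX1 hX hN8 j hj => ?_⟩
  have hN3 : 3 ≤ N := (le_max_left _ _).trans hN
  have hNN : N₁ ≤ N := (le_max_right _ _).trans hN
  have hNr : (3 : ℝ) ≤ N := by exact_mod_cast hN3
  have hN0 : (0 : ℝ) < N := by linarith
  have hN1 : (1 : ℝ) ≤ N := by linarith
  have hXr : (1 : ℝ) ≤ X := by exact_mod_cast hX1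
  have hX0 : (0 : ℝ) < X := by linarith
  have hjr : (1 : ℝ) ≤ j := by exact_mod_cast hj
  have hj0 : (0 : ℝ) < j := by linarith
  have hL1 : 1 ≤ Real.log N := by
    rw [Real.le_log_iff_exp_le hN0]
    exact Real.exp_one_lt_d9.le.trans (by linarith)
  have hL0 : 0 < Real.log N := by linarith
  have hXL : 8 * Real.log N ≤ Real.log X := by
    have := Real.log_le_log (by positivity) hN8
    rw [Real.log_pow] at this
    exact_mod_cast this
  have hLX0 : 0 ≤ Real.log X := Real.log_nonneg hXr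
  set y : ℝ := Real.log X / (4 * Real.log N) with hy
  have hy2 : 2 ≤ y := by
    rw [hy, le_div_iff₀ (by positivity)]; linarith
  set k : ℕ := ⌊y⌋₊ with hk
  have hky : (k : ℝ) ≤ y := Nat.floor_le (by linarith)
  have hky2 : y < k + 1 := Nat.lt_floor_add_one y
  have hk2 : y / 2 ≤ k := by linarith
  have hk1 : 1 ≤ k := by
    have : (1 : ℝ) ≤ k := by linarith
    exact_mod_cast this
  have hkL : 4 * k * Real.log N ≤ Real.log X := by
    have := mul_le_mul_of_nonneg_right hky (by positivity : 0 ≤ 4 * Real.log N)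
    rw [hy, div_mul_cancel₀ _ (by positivity)] at this
    linarith
  have hkL2 : Real.log X / 8 ≤ k * Real.log N := by
    have := mul_le_mul_of_nonneg_right hk2 (by positivity : 0 ≤ 4 * Real.log N)
    rw [div_mul_eq_mul_div, hy, div_mul_cancel₀ _ (by positivity)] at this
    linarith
  have hpow : (N : ℝ) ^ (4 * k) ≤ X := by
    apply pow_le_of_log (by positivity) hX0
    rw [Real.log_pow]
    push_cast
    exact hkL
  have ht : 0 < j * (N : ℝ) ^ (1 - θ) := by positivity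
  have h3 := count1 a B hB ha N X k (by omega) hk1 hpow _ ht
  refine h3.trans ?_
  have hlogX : Real.log X ≤ (N : ℝ) ^ (1 / A) := by
    have h4 : ((Real.log X) ^ A) ^ (1 / A) ≤ (N : ℝ) ^ (1 / A) :=
      Real.rpow_le_rpow (by positivity) hX (by positivity)
    rwa [← Real.rpow_mul hLX0, mul_one_div_cancel (by linarith), Real.rpow_one] at h4
  have hk3 : 2 * (k : ℝ) ≤ (N : ℝ) ^ (1 / A) := by
    have : (0 : ℝ) ≤ k := Nat.cast_nonneg _
    nlinarith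
  have hBN : B ^ 2 ≤ (N : ℝ) ^ (s / 4) := hN₁ N hNN
  have hbase : 2 * k * N * B ^ 2 / (j * (N : ℝ) ^ (1 - θ)) ^ 2 ≤
      (N : ℝ) ^ (-(s / 2)) / (j : ℝ) ^ 2 := by
    have e1 : 2 * k * N * B ^ 2 / (j * (N : ℝ) ^ (1 - θ)) ^ 2 =
        (2 * k) * B ^ 2 * (N : ℝ) ^ (2 * θ - 1) / (j : ℝ) ^ 2 := by
      have e2 : (N : ℝ) ^ (2 * θ - 1) = N / ((N : ℝ) ^ (1 - θ)) ^ 2 := by
        rw [eq_div_iff (by positivity), ← Real.rpow_natCast, ← Real.rpow_mul hN0.le,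
          ← Real.rpow_add hN0]
        push_cast
        rw [show 2 * θ - 1 + (1 - θ) * 2 = (1 : ℝ) by ring, Real.rpow_one]
      rw [e2]
      field_simp
    rw [e1]
    apply div_le_div_of_nonneg_right _ (by positivity)
    calc (2 * k) * B ^ 2 * (N : ℝ) ^ (2 * θ - 1)
        ≤ (N : ℝ) ^ (1 / A) * (N : ℝ) ^ (s / 4) * (N : ℝ) ^ (2 * θ - 1) := by gcongr
      _ = (N : ℝ) ^ (1 / A + s / 4 + (2 * θ - 1)) := by
          rw [← Real.rpow_add hN0, ← Real.rpow_add hN0]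
      _ ≤ (N : ℝ) ^ (-(s / 2)) := by
          apply Real.rpow_le_rpow_of_exponent_le hN1
          have : 1 / A = 1 - s := by rw [hs]; ring
          rw [this]
          linarith
  have h6 : (2 * k * N * B ^ 2 / (j * (N : ℝ) ^ (1 - θ)) ^ 2) ^ k ≤
      (X : ℝ) ^ (-(s / 16)) / (j : ℝ) ^ 2 := by
    calc (2 * k * N * B ^ 2 / (j * (N : ℝ) ^ (1 - θ)) ^ 2) ^ k
        ≤ ((N : ℝ) ^ (-(s / 2)) / (j : ℝ) ^ 2) ^ k := pow_le_pow_left₀ (by positivity) hbase k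
      _ = ((N : ℝ) ^ (-(s / 2))) ^ k / ((j : ℝ) ^ 2) ^ k := div_pow _ _ _
      _ ≤ (X : ℝ) ^ (-(s / 16)) / (j : ℝ) ^ 2 := by
          apply div_le_div₀ (by positivity) _ (by positivity) _
          · apply pow_le_of_log (by positivity) (by positivity)
            rw [Real.log_pow, Real.log_rpow hN0, Real.log_rpow hX0]
            nlinarith
          · exact le_self_pow₀ (one_le_pow₀ hjr) (by omega)
  calc 9 * (X : ℝ) * (2 * k * N * B ^ 2 / (j * (N : ℝ) ^ (1 - θ)) ^ 2) ^ k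
      ≤ 9 * X * ((X : ℝ) ^ (-(s / 16)) / (j : ℝ) ^ 2) :=
        mul_le_mul_of_nonneg_left h6 (by positivity)
    _ = 9 * (X : ℝ) ^ (1 - s / 16) / (j : ℝ) ^ 2 := by
        rw [sub_eq_add_neg, Real.rpow_add hX0, Real.rpow_one]
        ring

/-- second range -/
theorem range2p (b B θ : ℝ) (hb : 0 < b) (hB : 0 < B) (hθ : 0 < θ) (hθ1 : θ ≤ 1 / (64 * b)) :
    ∃ C : ℝ, 0 < C ∧
    ∀ (a : ℕ → ℝ), (∀ p, |a p| ≤ B) → ∀ N X : ℕ, 1 ≤ N → 1 ≤ X → (X : ℝ) ^ (1 / 8 : ℝ) ≤ N →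
      (N : ℝ) ≤ (X : ℝ) ^ b → ∀ j : ℕ, 1 ≤ j →
      (((sqf X).filter fun D : ℕ => j * (N : ℝ) ^ (1 - θ) < |S a N (D : ℤ)|).card : ℝ) ≤
        C * (X : ℝ) ^ (15 / 16 : ℝ) / (j : ℝ) ^ 2 := by
  set ε : ℝ := 1 / (64 * (1 + b)) with hε
  have hε0 : 0 < ε := by positivity
  obtain ⟨C, hC, h⟩ := ls2 ε hε0
  refine ⟨2 * C * B ^ 2, by positivity, fun a ha N X hN1 hX1 hXN hNX j hj => ?_⟩
  have hNr : (1 : ℝ) ≤ N := by exact_mod_cast hN1
  have hN0 : (0 : ℝ) < N := by linarith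
  have hXr : (1 : ℝ) ≤ X := by exact_mod_cast hX1
  have hX0 : (0 : ℝ) < X := by linarith
  have hjr : (1 : ℝ) ≤ j := by exact_mod_cast hj
  have hj0 : (0 : ℝ) < j := by linarith
  have ht : 0 < j * (N : ℝ) ^ (1 - θ) := by positivity
  refine (count_of_ls a N X _ (h a B ha N X hN1 hX1) _ ht).trans ?_
  have hcard : ((op N).card : ℝ) ≤ N := by exact_mod_cast card_op_le N
  have h1 : ((X : ℝ) * N) ^ ε ≤ (X : ℝ) ^ (1 / 64 : ℝ) := by
    calc ((X : ℝ) * N) ^ ε ≤ ((X : ℝ) ^ (1 + b)) ^ ε := by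
          apply Real.rpow_le_rpow (by positivity) _ hε0.le
          rw [Real.rpow_add hX0, Real.rpow_one]
          gcongr
      _ = (X : ℝ) ^ (1 / 64 : ℝ) := by
          rw [← Real.rpow_mul hX0.le]
          congr 1
          rw [hε]
          field_simp
  have h4 : ((X : ℝ) + N) / N ≤ 2 * (X : ℝ) ^ (7 / 8 : ℝ) := by
    rw [div_le_iff₀ hN0]
    have h5 : (X : ℝ) = (X : ℝ) ^ (7 / 8 : ℝ) * (X : ℝ) ^ (1 / 8 : ℝ) := by
      rw [← Real.rpow_add hX0]; norm_num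
    have h6 : (1 : ℝ) ≤ (X : ℝ) ^ (7 / 8 : ℝ) := Real.one_le_rpow hXr (by norm_num)
    have h7 : (X : ℝ) ≤ (X : ℝ) ^ (7 / 8 : ℝ) * N := by
      calc (X : ℝ) = (X : ℝ) ^ (7 / 8 : ℝ) * (X : ℝ) ^ (1 / 8 : ℝ) := h5
        _ ≤ (X : ℝ) ^ (7 / 8 : ℝ) * N := mul_le_mul_of_nonneg_left hXN (by positivity)
    nlinarith
  have h8 : (N : ℝ) ^ (2 * θ) ≤ (X : ℝ) ^ (1 / 32 : ℝ) := by
    calc (N : ℝ) ^ (2 * θ) ≤ ((X : ℝ) ^ b) ^ (2 * θ) :=
          Real.rpow_le_rpow hN0.le hNX (by positivity)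
      _ = (X : ℝ) ^ (b * (2 * θ)) := by rw [← Real.rpow_mul hX0.le]
      _ ≤ (X : ℝ) ^ (1 / 32 : ℝ) := by
          apply Real.rpow_le_rpow_of_exponent_le hXr
          rw [le_div_iff₀ (by positivity)] at hθ1
          linarith
  have e1 : C * ((X : ℝ) * N) ^ ε * (X + N) * ((op N).card * B ^ 2) /
      (j * (N : ℝ) ^ (1 - θ)) ^ 2 = (C * B ^ 2) * ((X : ℝ) * N) ^ ε * (((X : ℝ) + N) / N) *
        (((op N).card : ℝ) / N) * (N : ℝ) ^ (2 * θ) / (j : ℝ) ^ 2 := by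
    have e2 : (N : ℝ) ^ (2 * θ) = N * N / ((N : ℝ) ^ (1 - θ)) ^ 2 := by
      rw [eq_div_iff (by positivity), ← Real.rpow_natCast, ← Real.rpow_mul hN0.le,
        ← Real.rpow_add hN0]
      push_cast
      rw [show 2 * θ + (1 - θ) * 2 = (2 : ℝ) by ring]
      rw [show (2 : ℝ) = ((2 : ℕ) : ℝ) by norm_num, Real.rpow_natCast]
      ring
    rw [e2]
    field_simp
  rw [e1]
  apply div_le_div_of_nonneg_right _ (by positivity)
  have h9 : ((op N).card : ℝ) / N ≤ 1 := (div_le_one hN0).2 hcard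
  calc (C * B ^ 2) * ((X : ℝ) * N) ^ ε * (((X : ℝ) + N) / N) * (((op N).card : ℝ) / N) *
        (N : ℝ) ^ (2 * θ)
      ≤ (C * B ^ 2) * (X : ℝ) ^ (1 / 64 : ℝ) * (2 * (X : ℝ) ^ (7 / 8 : ℝ)) * 1 *
        (X : ℝ) ^ (1 / 32 : ℝ) := by gcongr
    _ = 2 * C * B ^ 2 * ((X : ℝ) ^ (1 / 64 : ℝ) * (X : ℝ) ^ (7 / 8 : ℝ) *
        (X : ℝ) ^ (1 / 32 : ℝ)) := by ring
    _ ≤ 2 * C * B ^ 2 * (X : ℝ) ^ (15 / 16 : ℝ) := by
        apply mul_le_mul_of_nonneg_left _ (by positivity)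
        rw [← Real.rpow_add hX0, ← Real.rpow_add hX0]
        apply Real.rpow_le_rpow_of_exponent_le hXr
        norm_num

/-- `S` is Lipschitz in `N` -/
theorem S_lip {a : ℕ → ℝ} {B : ℝ} (ha : ∀ p, |a p| ≤ B) {N N' : ℕ} (h : N ≤ N') (D : ℤ) :
    |S a N' D - S a N D| ≤ B * ((N' : ℝ) - N) := by
  classical
  have hB : 0 ≤ B := (abs_nonneg _).trans (ha 0)
  have hsub : op N ⊆ op N' := by
    intro p hp
    rw [mem_op] at hp ⊢
    exact ⟨hp.1, hp.2.1, hp.2.2.trans h⟩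
  have h1 : S a N' D - S a N D = ∑ p ∈ op N' \ op N, a p * jr D p := by
    unfold S
    rw [← sum_sdiff hsub]
    ring
  rw [h1]
  have h2 : (op N' \ op N).card ≤ N' - N := by
    have : op N' \ op N ⊆ Ioc N N' := by
      intro p hp
      rw [Finset.mem_sdiff, mem_op, mem_op] at hp
      rw [mem_Ioc]
      refine ⟨?_, hp.1.2.2⟩
      by_contra hc
      push Not at hc
      exact hp.2 ⟨hp.1.1, hp.1.2.1, hc⟩
    have := card_le_card this
    rwa [Nat.card_Ioc] at this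
  refine (abs_sum_le_sum_abs _ _).trans ?_
  refine (sum_le_card_nsmul _ _ B fun p _ => ?_).trans ?_
  · rw [abs_mul]
    exact (mul_le_of_le_one_right (abs_nonneg _) (jr_abs _ _)).trans (ha p)
  · rw [nsmul_eq_mul, mul_comm]
    apply mul_le_mul_of_nonneg_left _ hB
    have h3 : ((op N' \ op N).card : ℝ) ≤ ((N' - N : ℕ) : ℝ) := by exact_mod_cast h2
    rwa [Nat.cast_sub h] at h3

theorem abs_S_le {a : ℕ → ℝ} {B : ℝ} (ha : ∀ p, |a p| ≤ B) (N : ℕ) (D : ℤ) :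
    |S a N D| ≤ B * N := by
  have h := S_lip ha (Nat.zero_le N) D
  have h0 : S a 0 D = 0 := by
    unfold S
    have : op 0 = ∅ := by
      ext p
      rw [mem_op]
      constructor
      · rintro ⟨h1, _, h2⟩
        exact absurd h1.pos (by omega)
      · intro h
        simp at h
    rw [this, sum_empty]
  rw [h0, sub_zero] at h
  simpa using h

/-- the grid of the `q`-th powers -/
theorem gridp (q : ℕ) (hq : 1 ≤ q) (N : ℕ) (hN : 1 ≤ N) : ∃ m : ℕ, 1 ≤ m ∧ N ≤ m ^ q ∧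
    ((m ^ q : ℕ) : ℝ) - N ≤ q * 2 ^ q * (N : ℝ) ^ (1 - 1 / (q : ℝ)) ∧
    ((m ^ q : ℕ) : ℝ) ≤ 2 ^ q * N ∧ (m : ℝ) ≤ 2 * (N : ℝ) ^ (1 / (q : ℝ)) := by
  have hqr : (1 : ℝ) ≤ q := by exact_mod_cast hq
  have hq0 : (0 : ℝ) < q := by linarith
  have hNr : (1 : ℝ) ≤ N := by exact_mod_cast hN
  have hN0 : (0 : ℝ) < N := by linarith
  set t : ℝ := (N : ℝ) ^ (1 / (q : ℝ)) with ht
  have ht1 : 1 ≤ t := Real.one_le_rpow hNr (by positivity)
  have ht0 : 0 < t := by linarith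
  have htq : t ^ q = N := by
    rw [ht, ← Real.rpow_natCast, ← Real.rpow_mul hN0.le, one_div_mul_cancel hq0.ne', Real.rpow_one]
  set m : ℕ := ⌈t⌉₊ with hm
  have hm1 : t ≤ m := Nat.le_ceil t
  have hm2 : (m : ℝ) ≤ t + 1 := (Nat.ceil_lt_add_one ht0.le).le
  have hm3 : (m : ℝ) ≤ 2 * t := by linarith
  have hm0 : 1 ≤ m := by
    have : (1 : ℝ) ≤ m := ht1.trans hm1
    exact_mod_cast this
  refine ⟨m, hm0, ?_, ?_, ?_, hm3⟩
  · have : (N : ℝ) ≤ ((m ^ q : ℕ) : ℝ) := by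
      rw [← htq]
      push_cast
      exact pow_le_pow_left₀ ht0.le hm1 q
    exact_mod_cast this
  · -- mean value
    have h1 : ((m ^ q : ℕ) : ℝ) - N ≤ (t + 1) ^ q - t ^ q := by
      rw [htq]
      push_cast
      have := pow_le_pow_left₀ (Nat.cast_nonneg m) hm2 q
      linarith
    have h2 : ∀ n : ℕ, 1 ≤ n → (t + 1) ^ n - t ^ n ≤ n * 2 ^ n * t ^ (n - 1) := by
      intro n hn
      induction n, hn using Nat.le_induction with
      | base => norm_num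
      | succ n hn ih =>
        have h3 : (t + 1) ^ (n + 1) - t ^ (n + 1) = t * ((t + 1) ^ n - t ^ n) + (t + 1) ^ n := by ring
        have h4 : (t + 1) ^ n ≤ (2 * t) ^ n := pow_le_pow_left₀ (by linarith) (by linarith) n
        have h5 : t * ((t + 1) ^ n - t ^ n) ≤ t * (n * 2 ^ n * t ^ (n - 1)) :=
          mul_le_mul_of_nonneg_left ih ht0.le
        have h6 : t * (n * 2 ^ n * t ^ (n - 1)) = n * 2 ^ n * t ^ n := by
          have : t ^ n = t ^ (n - 1) * t := by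
            rw [← pow_succ]; congr 1; omega
          rw [this]; ring
        rw [mul_pow] at h4
        have h7 : (0 : ℝ) ≤ n * 2 ^ n * t ^ n + 2 ^ n * t ^ n := by positivity
        rw [h3, Nat.add_sub_cancel]
        push_cast
        calc t * ((t + 1) ^ n - t ^ n) + (t + 1) ^ n ≤ n * 2 ^ n * t ^ n + 2 ^ n * t ^ n := by
              linarith
          _ ≤ ((n : ℝ) + 1) * 2 ^ (n + 1) * t ^ n := by
              rw [pow_succ]
              nlinarith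
    have h3 := h2 q hq
    have h4 : t ^ (q - 1) = (N : ℝ) ^ (1 - 1 / (q : ℝ)) := by
      rw [ht, ← Real.rpow_natCast, ← Real.rpow_mul hN0.le, Nat.cast_sub hq]
      congr 1
      push_cast
      field_simp
    rw [h4] at h3
    linarith
  · push_cast
    calc (m : ℝ) ^ q ≤ (2 * t) ^ q := pow_le_pow_left₀ (Nat.cast_nonneg m) hm3 q
      _ = 2 ^ q * N := by rw [mul_pow, htq]

end Pool.Agent.H821.ST
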