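import Pool.Agent.H821.ST.Dual
import Pool.Agent.TH553.ST.Taub3

/-! The number of large values in the three ranges. -/

set_option autoImplicit false

namespace Pool.Agent.H821.ST

open Finset Filter Topology
open Pool.Agent.H306R2.RZ (sqf)

/-- the threshold -/
noncomputable def th (τ : ℝ) (N : ℕ) : ℝ := τ * N / Real.log N

theorem pow_le_of_log {x y : ℝ} (hx : 0 < x) (hy : 0 < y) (h : Real.log x ≤ Real.log y) : x ≤ y :=
  (Real.log_le_log_iff hx hy).1 h

/-- first range -/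
theorem range1 (A τ B : ℝ) (hA : 1 < A) (hτ : 0 < τ) (hB : 0 < B) : ∃ N₁ : ℕ, 3 ≤ N₁ ∧
    ∀ (a : ℕ → ℝ), (∀ p, |a p| ≤ B) → ∀ N X : ℕ, N₁ ≤ N → 1 ≤ X → (Real.log X) ^ A ≤ N →
      (N : ℝ) ^ 8 ≤ X →
      (((Icc 1 X).filter fun D : ℕ => th τ N < |S a N (D : ℤ)|).card : ℝ) ≤
        9 * (X : ℝ) ^ (1 - (1 - 1 / A) / 16) := by
  set s : ℝ := 1 - 1 / A with hs
  have hs0 : 0 < s := by
    rw [hs]
    have : 1 / A < 1 := (div_lt_one (by linarith)).2 hA
    linarith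
  have h1 : ∀ᶠ x : ℝ in atTop, ‖Real.log x‖ ≤ (2 * τ ^ 2 / B ^ 2) * ‖x ^ (s / 2)‖ :=
    (isLittleO_log_rpow_atTop (show 0 < s / 2 by positivity)).bound (by positivity)
  have h2 := (tendsto_natCast_atTop_atTop (R := ℝ)).eventually h1
  obtain ⟨N₁, hN₁⟩ := eventually_atTop.1 h2
  refine ⟨max 3 N₁, le_max_left _ _, fun a ha N X hN hX1 hX hN8 => ?_⟩
  have hN3 : 3 ≤ N := (le_max_left _ _).trans hN
  have hNN : N₁ ≤ N := (le_max_right _ _).trans hN
  have hNr : (3 : ℝ) ≤ N := by exact_mod_cast hN3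
  have hN0 : (0 : ℝ) < N := by linarith
  have hXr : (1 : ℝ) ≤ X := by exact_mod_cast hX1
  have hX0 : (0 : ℝ) < X := by linarith
  have hL1 : 1 ≤ Real.log N := by
    rw [Real.le_log_iff_exp_le hN0]
    exact Real.exp_one_lt_d9.le.trans (by linarith)
  have hL0 : 0 < Real.log N := by linarith
  have hXL : 8 * Real.log N ≤ Real.log X := by
    have := Real.log_le_log (by positivity) hN8
    rw [Real.log_pow] at this
    exact_mod_cast this
  have hLX0 : 0 ≤ Real.log X := Real.log_nonneg hXr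
  -- the choice of k
  set y : ℝ := Real.log X / (4 * Real.log N) with hy
  have hy2 : 2 ≤ y := by
    rw [hy, le_div_iff₀ (by positivity)]; linarith
  set k : ℕ := ⌊y⌋₊ with hk
  have hky : (k : ℝ) ≤ y := Nat.floor_le (by linarith)
  have hky2 : y < k + 1 := Nat.lt_floor_add_one y
  have hk2 : y / 2 ≤ k := by linarith
  have hk1 : 1 ≤ k := by
    have : (1 : ℝ) ≤ k := by linarith
    exact_mod_cast this
  have hkL : 4 * k * Real.log N ≤ Real.log X := by
    have := mul_le_mul_of_nonneg_right hky (by positivity : 0 ≤ 4 * Real.log N)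
    rw [hy, div_mul_cancel₀ _ (by positivity)] at this
    linarith
  have hkL2 : Real.log X / 8 ≤ k * Real.log N := by
    have := mul_le_mul_of_nonneg_right hk2 (by positivity : 0 ≤ 4 * Real.log N)
    rw [div_mul_eq_mul_div, hy, div_mul_cancel₀ _ (by positivity)] at this
    linarith
  have hpow : (N : ℝ) ^ (4 * k) ≤ X := by
    apply pow_le_of_log (by positivity) hX0
    rw [Real.log_pow]
    push_cast
    exact hkL
  have ht : 0 < th τ N := by unfold th; positivity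
  have h3 := count1 a B hB ha N X k (by omega) hk1 hpow (th τ N) ht
  refine h3.trans ?_
  -- the base
  have hlogX : Real.log X ≤ (N : ℝ) ^ (1 / A) := by
    have h4 : ((Real.log X) ^ A) ^ (1 / A) ≤ (N : ℝ) ^ (1 / A) :=
      Real.rpow_le_rpow (by positivity) hX (by positivity)
    rwa [← Real.rpow_mul hLX0, mul_one_div_cancel (by linarith), Real.rpow_one] at h4
  have hlogN : Real.log N ≤ (2 * τ ^ 2 / B ^ 2) * (N : ℝ) ^ (s / 2) := by
    have := hN₁ N hNN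
    rwa [Real.norm_of_nonneg hL0.le, Real.norm_of_nonneg (by positivity)] at this
  have hbase : 2 * k * N * B ^ 2 / (th τ N) ^ 2 ≤ (N : ℝ) ^ (-(s / 2)) := by
    have e1 : 2 * k * N * B ^ 2 / (th τ N) ^ 2 =
        (4 * k * Real.log N) * (Real.log N * B ^ 2 / (2 * τ ^ 2 * N)) := by
      unfold th
      field_simp
      ring
    rw [e1]
    have h5 : Real.log N * B ^ 2 / (2 * τ ^ 2 * N) ≤ (N : ℝ) ^ (s / 2) / N := by
      rw [div_le_div_iff₀ (by positivity) hN0]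
      have := mul_le_mul_of_nonneg_right hlogN (by positivity : 0 ≤ B ^ 2 * N)
      have e2 : 2 * τ ^ 2 / B ^ 2 * (N : ℝ) ^ (s / 2) * (B ^ 2 * N) =
          (N : ℝ) ^ (s / 2) * (2 * τ ^ 2 * N) := by
        field_simp
      rw [e2] at this
      linarith
    calc (4 * k * Real.log N) * (Real.log N * B ^ 2 / (2 * τ ^ 2 * N))
        ≤ (N : ℝ) ^ (1 / A) * ((N : ℝ) ^ (s / 2) / N) := by
          apply mul_le_mul (hkL.trans hlogX) h5 (by positivity) (by positivity)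
      _ = (N : ℝ) ^ (-(s / 2)) := by
          rw [mul_div_assoc', ← Real.rpow_add hN0, div_eq_mul_inv, ← Real.rpow_neg_one,
            ← Real.rpow_add hN0]
          congr 1
          rw [hs]
          ring
  have h6 : (2 * k * N * B ^ 2 / (th τ N) ^ 2) ^ k ≤ (X : ℝ) ^ (-(s / 16)) := by
    calc (2 * k * N * B ^ 2 / (th τ N) ^ 2) ^ k ≤ ((N : ℝ) ^ (-(s / 2))) ^ k :=
          pow_le_pow_left₀ (by positivity) hbase k
      _ ≤ (X : ℝ) ^ (-(s / 16)) := by
          apply pow_le_of_log (by positivity) (by positivity)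
          rw [Real.log_pow, Real.log_rpow hN0, Real.log_rpow hX0]
          nlinarith
  calc 9 * (X : ℝ) * (2 * k * N * B ^ 2 / (th τ N) ^ 2) ^ k ≤ 9 * X * (X : ℝ) ^ (-(s / 16)) :=
        mul_le_mul_of_nonneg_left h6 (by positivity)
    _ = 9 * (X : ℝ) ^ (1 - s / 16) := by
        rw [mul_assoc, sub_eq_add_neg, Real.rpow_add hX0, Real.rpow_one]

/-- second range -/
theorem range2 (ρ τ B : ℝ) (hρ : 0 < ρ) (hρ1 : ρ ≤ 1) (hτ : 0 < τ) (hB : 0 < B) : ∃ C : ℝ, 0 < C ∧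
    ∀ (a : ℕ → ℝ), (∀ p, |a p| ≤ B) → ∀ N X : ℕ, 3 ≤ N → 1 ≤ X → (X : ℝ) ^ ρ ≤ N →
      (N : ℝ) ≤ (X : ℝ) ^ 4 →
      (((sqf X).filter fun D : ℕ => th τ N < |S a N (D : ℤ)|).card : ℝ) ≤
        C * (X : ℝ) ^ (1 - ρ / 2) := by
  set ε : ℝ := ρ / 26 with hε
  have hε0 : 0 < ε := by positivity
  obtain ⟨C, hC, h⟩ := ls2 ε hε0
  refine ⟨2 * C * B ^ 2 / (τ ^ 2 * ε ^ 2), by positivity, fun a ha N X hN3 hX1 hXN hNX => ?_⟩
  have hNr : (3 : ℝ) ≤ N := by exact_mod_cast hN3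
  have hN0 : (0 : ℝ) < N := by linarith
  have hXr : (1 : ℝ) ≤ X := by exact_mod_cast hX1
  have hX0 : (0 : ℝ) < X := by linarith
  have hL0 : 0 < Real.log N := Real.log_pos (by linarith)
  have ht : 0 < th τ N := by unfold th; positivity
  refine (count_of_ls a N X _ (h a B ha N X (by omega) hX1) (th τ N) ht).trans ?_
  have hcard : ((op N).card : ℝ) ≤ N := by exact_mod_cast card_op_le N
  have h1 : ((X : ℝ) * N) ^ ε ≤ (X : ℝ) ^ (5 * ε) := by
    calc ((X : ℝ) * N) ^ ε ≤ ((X : ℝ) ^ 5) ^ ε := by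
          apply Real.rpow_le_rpow (by positivity) _ hε0.le
          calc (X : ℝ) * N ≤ X * X ^ 4 := by gcongr
            _ = X ^ 5 := by ring
      _ = (X : ℝ) ^ (5 * ε) := by
          rw [← Real.rpow_natCast, ← Real.rpow_mul hX0.le]
          norm_num
  have h2 : Real.log N ≤ (X : ℝ) ^ (4 * ε) / ε := by
    have h3 := Real.log_le_rpow_div hN0.le hε0
    refine h3.trans ?_
    apply div_le_div_of_nonneg_right _ hε0.le
    calc (N : ℝ) ^ ε ≤ ((X : ℝ) ^ 4) ^ ε := Real.rpow_le_rpow hN0.le hNX hε0.le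
      _ = (X : ℝ) ^ (4 * ε) := by
          rw [← Real.rpow_natCast, ← Real.rpow_mul hX0.le]
          norm_num
  have h4 : ((X : ℝ) + N) / N ≤ 2 * (X : ℝ) ^ (1 - ρ) := by
    rw [div_le_iff₀ hN0]
    have h5 : (X : ℝ) = (X : ℝ) ^ (1 - ρ) * (X : ℝ) ^ ρ := by
      rw [← Real.rpow_add hX0]; simp
    have h6 : (1 : ℝ) ≤ (X : ℝ) ^ (1 - ρ) := Real.one_le_rpow hXr (by linarith)
    have h7 : (X : ℝ) ≤ (X : ℝ) ^ (1 - ρ) * N := by
      calc (X : ℝ) = (X : ℝ) ^ (1 - ρ) * (X : ℝ) ^ ρ := h5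
        _ ≤ (X : ℝ) ^ (1 - ρ) * N := mul_le_mul_of_nonneg_left hXN (by positivity)
    nlinarith
  have e1 : C * ((X : ℝ) * N) ^ ε * (X + N) * ((op N).card * B ^ 2) / (th τ N) ^ 2 =
      (C * B ^ 2 / τ ^ 2) * ((X : ℝ) * N) ^ ε * (Real.log N) ^ 2 * (((op N).card : ℝ) / N) *
        (((X : ℝ) + N) / N) := by
    unfold th
    field_simp
  rw [e1]
  have h8 : ((op N).card : ℝ) / N ≤ 1 := (div_le_one hN0).2 hcard
  calc (C * B ^ 2 / τ ^ 2) * ((X : ℝ) * N) ^ ε * (Real.log N) ^ 2 * (((op N).card : ℝ) / N) *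
        (((X : ℝ) + N) / N)
      ≤ (C * B ^ 2 / τ ^ 2) * (X : ℝ) ^ (5 * ε) * ((X : ℝ) ^ (4 * ε) / ε) ^ 2 * 1 *
        (2 * (X : ℝ) ^ (1 - ρ)) := by gcongr
    _ = 2 * C * B ^ 2 / (τ ^ 2 * ε ^ 2) *
        ((X : ℝ) ^ (5 * ε) * ((X : ℝ) ^ (4 * ε)) ^ 2 * (X : ℝ) ^ (1 - ρ)) := by
        field_simp
    _ = 2 * C * B ^ 2 / (τ ^ 2 * ε ^ 2) * (X : ℝ) ^ (1 - ρ / 2) := by
        congr 1
        rw [← Real.rpow_natCast, ← Real.rpow_mul hX0.le, ← Real.rpow_add hX0, ← Real.rpow_add hX0]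
        congr 1
        rw [hε]
        push_cast
        ring

theorem card_op_log : ∃ C : ℝ, 0 < C ∧ ∀ N : ℕ, 3 ≤ N → ((op N).card : ℝ) ≤ C * N / Real.log N := by
  have h1 := Pool.Agent.TH553.ST.pi_log
  have h2 : ∀ᶠ N : ℕ in atTop, (Nat.primeCounting N : ℝ) * Real.log N / N ≤ 2 :=
    h1.eventually_le_const (by norm_num)
  obtain ⟨M, hM⟩ := eventually_atTop.1 h2
  refine ⟨2 + Real.log (M + 3), by
    have : 0 ≤ Real.log ((M : ℝ) + 3) := Real.log_nonneg (by linarith [(Nat.cast_nonneg M : (0 : ℝ) ≤ M)])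
    linarith, fun N hN => ?_⟩
  have hNr : (3 : ℝ) ≤ N := by exact_mod_cast hN
  have hN0 : (0 : ℝ) < N := by linarith
  have hL0 : 0 < Real.log N := Real.log_pos (by linarith)
  have hM0 : 0 ≤ Real.log ((M : ℝ) + 3) :=
    Real.log_nonneg (by linarith [(Nat.cast_nonneg M : (0 : ℝ) ≤ M)])
  rw [le_div_iff₀ hL0]
  rcases le_or_gt M N with h | h
  · have h3 : (op N).card ≤ Nat.primeCounting N := by
      rw [Nat.primeCounting, Nat.primeCounting', Nat.count_eq_card_filter_range]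
      apply card_le_card
      intro p hp
      rw [mem_op] at hp
      rw [mem_filter, mem_range]
      exact ⟨by omega, hp.1⟩
    have h4 := hM N h
    rw [div_le_iff₀ hN0] at h4
    have h5 : ((op N).card : ℝ) ≤ Nat.primeCounting N := by exact_mod_cast h3
    nlinarith
  · have h3 : ((op N).card : ℝ) ≤ N := by exact_mod_cast card_op_le N
    have h4 : Real.log N ≤ Real.log ((M : ℝ) + 3) := by
      apply Real.log_le_log hN0
      have : (N : ℝ) ≤ M := by exact_mod_cast h.le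
      linarith
    nlinarith [Nat.cast_nonneg (α := ℝ) (op N).card]

/-- third range -/
theorem range3 (τ B : ℝ) (hτ : 0 < τ) (hB : 0 < B) : ∃ C : ℝ, 0 < C ∧
    ∀ (a : ℕ → ℝ), (∀ p, |a p| ≤ B) → ∀ N X : ℕ, 3 ≤ N → (X : ℝ) ^ 3 ≤ N →
      (((sqf X).filter fun D : ℕ => th τ N < |S a N (D : ℤ)|).card : ℝ) ≤ C * Real.log N := by
  obtain ⟨C, hC, h⟩ := card_op_log
  refine ⟨33 * C * B ^ 2 / τ ^ 2, by positivity, fun a ha N X hN3 hXN => ?_⟩
  have hNr : (3 : ℝ) ≤ N := by exact_mod_cast hN3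
  have hN0 : (0 : ℝ) < N := by linarith
  have hL0 : 0 < Real.log N := Real.log_pos (by linarith)
  have ht : 0 < th τ N := by unfold th; positivity
  refine (count_of_ls a N X _ (ls3 a B ha N X) (th τ N) ht).trans ?_
  have h1 := h N hN3
  calc (N + 32 * (X : ℝ) ^ 3) * ((op N).card * B ^ 2) / (th τ N) ^ 2
      ≤ (33 * N) * ((C * N / Real.log N) * B ^ 2) / (th τ N) ^ 2 := by
        gcongr
        linarith
    _ = 33 * C * B ^ 2 / τ ^ 2 * Real.log N := by
        unfold th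
        field_simp

end Pool.Agent.H821.ST
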