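import Pool.Agent.H821.ST.Rng

/-! The union over all scales. -/

set_option autoImplicit false

namespace Pool.Agent.H821.ST

open Finset Filter Topology
open Pool.Agent.H306R2.RZ (sqf)

/-- the conditions on the coefficients -/
structure Cond (u : ℕ → ℝ) (B : ℝ) (a : ℕ → ℝ) : Prop where
  le : ∀ p, |a p| ≤ B
  var : ∀ N N' : ℕ, N ≤ N' → ∀ D : ℤ, |S a N' D - S a N D| ≤ u N' - u N

/-- from one scale to a nearby one -/
theorem near (u : ℕ → ℝ) (hu : Tendsto (fun N : ℕ => u N * Real.log N / N) atTop (𝓝 1)) (η : ℝ)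
    (hη : 0 < η) : ∃ κ : ℝ, 0 < κ ∧ κ ≤ 1 / 16 ∧ ∃ N₀ : ℕ, 3 ≤ N₀ ∧ ∀ N N' : ℕ, N₀ ≤ N → N ≤ N' →
      (N' : ℝ) ≤ (1 + κ) * N + 1 → ∀ (a : ℕ → ℝ) (B : ℝ), Cond u B a → ∀ D : ℤ,
        η * u N < |S a N D| → th (η / 8) N' < |S a N' D| := by
  set θ : ℝ := min η 1 / 16 with hθ
  have hm0 : 0 < min η 1 := lt_min hη one_pos
  have hθ0 : 0 < θ := by positivity
  have hθ1 : θ ≤ 1 / 16 := by
    rw [hθ]
    have := min_le_right η 1
    linarith
  have hθη : 16 * θ ≤ η := by
    rw [hθ]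
    have := min_le_left η 1
    linarith
  have h1 : ∀ᶠ N : ℕ in atTop, |u N * Real.log N / N - 1| < θ := by
    have := (Metric.tendsto_nhds.1 hu) θ hθ0
    simpa [Real.dist_eq] using this
  obtain ⟨M, hM⟩ := eventually_atTop.1 h1
  refine ⟨θ, hθ0, hθ1, max (max 3 M) ⌈1 / θ⌉₊, (le_max_left _ _).trans (le_max_left _ _),
    fun N N' hN hNN hN' a B ha D hS => ?_⟩
  have hN3 : 3 ≤ N := ((le_max_left _ _).trans (le_max_left _ _)).trans hN
  have hNM : M ≤ N := ((le_max_right _ _).trans (le_max_left _ _)).trans hN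
  have hNθ : ⌈1 / θ⌉₊ ≤ N := (le_max_right _ _).trans hN
  have hNr : (3 : ℝ) ≤ N := by exact_mod_cast hN3
  have hN0 : (0 : ℝ) < N := by linarith
  have hNN' : (N : ℝ) ≤ N' := by exact_mod_cast hNN
  have hθN : 1 ≤ θ * N := by
    have h2 : 1 / θ ≤ N := (Nat.le_ceil _).trans (by exact_mod_cast hNθ)
    rw [div_le_iff₀ hθ0] at h2
    linarith
  have hL0 : 0 < Real.log N := Real.log_pos (by linarith)
  have hLL : Real.log N ≤ Real.log N' := Real.log_le_log hN0 hNN'
  have hL'0 : 0 < Real.log N' := lt_of_lt_of_le hL0 hLL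
  have a1 := abs_lt.1 (hM N hNM)
  have a2 := abs_lt.1 (hM N' (hNM.trans hNN))
  have hN'0 : (0 : ℝ) < N' := by linarith
  -- bounds for u
  have b1 : (1 - θ) * N ≤ u N * Real.log N := by
    have := a1.1
    have h3 : 1 - θ ≤ u N * Real.log N / N := by linarith
    rwa [le_div_iff₀ hN0] at h3
  have b2 : u N' * Real.log N' ≤ (1 + θ) * N' := by
    have h3 : u N' * Real.log N' / N' ≤ 1 + θ := by linarith [a2.2]
    rwa [div_le_iff₀ hN'0] at h3
  have hu0 : 0 < u N := by
    by_contra h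
    push Not at h
    have : u N * Real.log N ≤ 0 := mul_nonpos_of_nonpos_of_nonneg h hL0.le
    nlinarith
  have hN'' : (N' : ℝ) ≤ (1 + 2 * θ) * N := by linarith
  -- u N' ≤ (1 + 8 θ) u N
  have b3 : u N' * Real.log N ≤ (1 + θ) * N' := by
    rcases le_or_gt (u N') 0 with h | h
    · have : u N' * Real.log N ≤ 0 := mul_nonpos_of_nonpos_of_nonneg h hL0.le
      nlinarith
    · exact (mul_le_mul_of_nonneg_left hLL h.le).trans b2
  have b4 : u N' * Real.log N ≤ (1 + 8 * θ) * (u N * Real.log N) := by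
    have h4 : (1 + θ) * N' ≤ (1 + θ) * ((1 + 2 * θ) * N) := by gcongr
    have h5 : (1 + θ) * (1 + 2 * θ) ≤ (1 + 8 * θ) * (1 - θ) := by nlinarith
    have h6 : (1 + θ) * ((1 + 2 * θ) * N) ≤ (1 + 8 * θ) * ((1 - θ) * N) := by
      have := mul_le_mul_of_nonneg_right h5 hN0.le
      linarith
    have h7 : (1 + 8 * θ) * ((1 - θ) * N) ≤ (1 + 8 * θ) * (u N * Real.log N) := by gcongr
    linarith
  have b5 : u N' ≤ (1 + 8 * θ) * u N := by
    have : u N' * Real.log N ≤ ((1 + 8 * θ) * u N) * Real.log N := by linarith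
    exact le_of_mul_le_mul_right this hL0
  have b6 : u N' - u N ≤ η / 2 * u N := by nlinarith
  have c1 := ha.var N N' hNN D
  have c2 : |S a N D| ≤ |S a N' D| + |S a N' D - S a N D| := by
    have := abs_sub_abs_le_abs_sub (S a N D) (S a N' D)
    rw [abs_sub_comm] at this
    linarith
  have c3 : η / 2 * u N < |S a N' D| := by linarith
  refine lt_of_le_of_lt ?_ c3
  unfold th
  rw [div_le_iff₀ hL'0]
  have c4 : (15 / 16 : ℝ) * N ≤ u N * Real.log N := by nlinarith
  have c5 : u N * Real.log N ≤ u N * Real.log N' := mul_le_mul_of_nonneg_left hLL hu0.le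
  have c6 : (N' : ℝ) ≤ 9 / 8 * N := by nlinarith
  nlinarith

theorem grid {κ : ℝ} (hκ : 0 < κ) (N : ℕ) (hN : 1 ≤ N) :
    (N : ℝ) ≤ (1 + κ) ^ ⌈Real.log N / Real.log (1 + κ)⌉₊ ∧
      (1 + κ) ^ ⌈Real.log N / Real.log (1 + κ)⌉₊ ≤ (1 + κ) * N := by
  have hl : 0 < Real.log (1 + κ) := Real.log_pos (by linarith)
  have hNr : (1 : ℝ) ≤ N := by exact_mod_cast hN
  have hN0 : (0 : ℝ) < N := by linarith
  have h0 : 0 ≤ Real.log N / Real.log (1 + κ) := div_nonneg (Real.log_nonneg hNr) hl.le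
  set j := ⌈Real.log N / Real.log (1 + κ)⌉₊ with hj
  have h1 : Real.log N / Real.log (1 + κ) ≤ j := Nat.le_ceil _
  have h2 : (j : ℝ) < Real.log N / Real.log (1 + κ) + 1 := Nat.ceil_lt_add_one h0
  constructor
  · apply pow_le_of_log hN0 (by positivity)
    rw [Real.log_pow]
    rwa [div_le_iff₀ hl] at h1
  · apply pow_le_of_log (by positivity) (by positivity)
    rw [Real.log_pow, Real.log_mul (by positivity) (by positivity)]
    have h3 : (j : ℝ) * Real.log (1 + κ) ≤ (Real.log N / Real.log (1 + κ) + 1) * Real.log (1 + κ) :=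
      mul_le_mul_of_nonneg_right h2.le hl.le
    rw [add_mul, div_mul_cancel₀ _ hl.ne', one_mul] at h3
    linarith

/-- the numbers with a large value at some scale -/
noncomputable def bad (u : ℕ → ℝ) (a : ℕ → ℝ) (η A c : ℝ) (X : ℕ) : Finset ℕ :=
  open Classical in (sqf X).filter fun D : ℕ => ∃ N : ℕ, (Real.log X) ^ A ≤ N ∧
    Real.log N ≤ (X : ℝ) ^ c ∧ η * u N < |S a N (D : ℤ)|

theorem card_sqf_le (X : ℕ) : (sqf X).card ≤ X := by
  unfold sqf
  refine (card_filter_le _ _).trans ?_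
  rw [Nat.card_Icc]
  omega

theorem scales (u : ℕ → ℝ) (hu : Tendsto (fun N : ℕ => u N * Real.log N / N) atTop (𝓝 1))
    (A c η B : ℝ) (hA : 1 < A) (hc0 : 0 < c) (hc : c < 1 / 2) (hη : 0 < η) (hB : 0 < B) :
    ∃ δ : ℝ, 0 < δ ∧ δ < 1 ∧ ∃ C : ℝ, 0 < C ∧ ∀ a : ℕ → ℝ, Cond u B a → ∀ X : ℕ, 1 ≤ X →
      ((bad u a η A c X).card : ℝ) ≤ C * (X : ℝ) ^ (1 - δ) := by
  classical
  obtain ⟨κ, hκ, hκ1, N₀, hN₀3, hnear⟩ := near u hu η hη
  obtain ⟨N₁, hN₁3, hr1⟩ := range1 A (η / 8) B hA (by positivity) hB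
  obtain ⟨C₂, hC₂, hr2⟩ := range2 (1 / 8) (η / 8) B (by norm_num) (by norm_num) (by positivity) hB
  obtain ⟨C₃, hC₃, hr3⟩ := range3 (η / 8) B (by positivity) hB
  set l : ℝ := Real.log (1 + κ) with hl
  have hl0 : 0 < l := Real.log_pos (by linarith)
  have hl1 : l ≤ 1 := by
    have := Real.log_le_sub_one_of_pos (by linarith : 0 < 1 + κ)
    linarith
  have hA0 : 0 < A := by linarith
  set s₁ : ℝ := (1 - 1 / A) / 16 with hs₁
  have hs₁0 : 0 < s₁ := by
    rw [hs₁]
    have : 1 / A < 1 := (div_lt_one hA0).2 hA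
    have : 0 < 1 - 1 / A := by linarith
    positivity
  set s : ℝ := min s₁ (1 / 16) with hs
  have hs0 : 0 < s := lt_min hs₁0 (by norm_num)
  have hs16 : s ≤ 1 / 16 := min_le_right _ _
  set δ : ℝ := min (s / 2) (1 - 2 * c) with hδ
  have hδ0 : 0 < δ := lt_min (by positivity) (by linarith)
  have hδ1 : δ < 1 := lt_of_le_of_lt (min_le_left _ _) (by linarith)
  -- the threshold for X
  have hlim : ∀ᶠ X : ℕ in atTop, ((max N₀ N₁ : ℕ) : ℝ) ≤ (Real.log X) ^ A := by
    have h1 : Tendsto (fun X : ℕ => (Real.log X) ^ A) atTop atTop :=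
      (tendsto_rpow_atTop hA0).comp (Real.tendsto_log_atTop.comp tendsto_natCast_atTop_atTop)
    exact h1.eventually_ge_atTop _
  obtain ⟨X₀, hX₀⟩ := eventually_atTop.1 hlim
  set C₁ : ℝ := max 9 C₂ with hC₁
  have hC₁0 : 0 < C₁ := lt_of_lt_of_le (by norm_num) (le_max_left _ _)
  set C₄ : ℝ := (8 / (s * l) + 1) * C₁ + (1 / l + 2) * (4 * C₃) with hC₄
  have hC₄0 : 0 < C₄ := by positivity
  refine ⟨δ, hδ0, hδ1, C₄ + X₀, by positivity, fun a ha X hX1 => ?_⟩
  have hXr : (1 : ℝ) ≤ X := by exact_mod_cast hX1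
  have hX0 : (0 : ℝ) < X := by linarith
  have hXδ : (1 : ℝ) ≤ (X : ℝ) ^ (1 - δ) := Real.one_le_rpow hXr (by linarith)
  rcases Nat.lt_or_ge X X₀ with hlt | hge
  · have h1 : ((bad u a η A c X).card : ℝ) ≤ X := by
      have : (bad u a η A c X).card ≤ X := (card_filter_le _ _).trans (card_sqf_le X)
      exact_mod_cast this
    have h2 : (X : ℝ) ≤ X₀ := by exact_mod_cast hlt.le
    nlinarith
  have hlog0 : 0 ≤ Real.log X := Real.log_nonneg hXr
  have hXc : (1 : ℝ) ≤ (X : ℝ) ^ c := Real.one_le_rpow hXr hc0.le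
  have hN₀₁ := hX₀ X hge
  set g : ℕ → ℕ := fun j => ⌈(1 + κ) ^ j⌉₊ with hg
  set J : ℕ := ⌊(X : ℝ) ^ c / l⌋₊ + 2 with hJ
  set E : ℕ → Finset ℕ := fun j => if (Real.log X) ^ A ≤ g j then
    (sqf X).filter fun D : ℕ => th (η / 8) (g j) < |S a (g j) (D : ℤ)| else ∅ with hE
  have hsub : bad u a η A c X ⊆ (range J).biUnion E := by
    intro D hD
    unfold bad at hD
    rw [mem_filter] at hD
    obtain ⟨hD1, N, hN1, hN2, hN3⟩ := hD
    have hNN : ((max N₀ N₁ : ℕ) : ℝ) ≤ N := hN₀₁.trans hN1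
    have hNN' : max N₀ N₁ ≤ N := by exact_mod_cast hNN
    have hN0 : N₀ ≤ N := (le_max_left _ _).trans hNN'
    have hN1' : 1 ≤ N := by omega
    obtain ⟨g1, g2⟩ := grid hκ N hN1'
    set j := ⌈Real.log N / Real.log (1 + κ)⌉₊ with hj
    have g3 : N ≤ g j := by
      have : (N : ℝ) ≤ (g j : ℝ) := g1.trans (Nat.le_ceil _)
      exact_mod_cast this
    have g4 : (g j : ℝ) ≤ (1 + κ) * N + 1 := by
      have := (Nat.ceil_lt_add_one (by positivity : 0 ≤ (1 + κ) ^ j)).le
      exact this.trans (by linarith)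
    have h1 := hnear N (g j) hN0 g3 g4 a B ha D hN3
    rw [mem_biUnion]
    refine ⟨j, ?_, ?_⟩
    · rw [mem_range, hJ]
      have h2 : Real.log N / Real.log (1 + κ) ≤ (X : ℝ) ^ c / l :=
        div_le_div_of_nonneg_right hN2 hl0.le
      have h3 : j ≤ ⌊(X : ℝ) ^ c / l⌋₊ + 1 := by
        rw [hj, Nat.ceil_le]
        exact h2.trans (Nat.lt_floor_add_one _).le |>.trans (by push_cast; exact le_rfl)
      omega
    · rw [hE]
      simp only
      rw [if_pos (hN1.trans (by exact_mod_cast g3)), mem_filter]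
      exact ⟨hD1, h1⟩
  have hcardE : ∀ j ∈ range J, ((E j).card : ℝ) ≤
      (if g j ≤ X ^ 4 then C₁ * (X : ℝ) ^ (1 - s) else 0) + C₃ * ((X : ℝ) ^ c + 3) := by
    intro j hj
    rw [mem_range] at hj
    have hpos : 0 ≤ C₃ * ((X : ℝ) ^ c + 3) := by positivity
    have hpos2 : 0 ≤ C₁ * (X : ℝ) ^ (1 - s) := by positivity
    by_cases hL : (Real.log X) ^ A ≤ g j
    · have hEj : E j = (sqf X).filter fun D : ℕ => th (η / 8) (g j) < |S a (g j) (D : ℤ)| := by
        rw [hE]; simp only; rw [if_pos hL]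
      rw [hEj]
      have hgj : max N₀ N₁ ≤ g j := by
        have := hN₀₁.trans hL
        exact_mod_cast this
      have hg3 : 3 ≤ g j := hN₀3.trans ((le_max_left _ _).trans hgj)
      have hg1 : N₁ ≤ g j := (le_max_right _ _).trans hgj
      by_cases h4 : g j ≤ X ^ 4
      · rw [if_pos h4]
        refine le_trans ?_ (le_add_of_nonneg_right hpos)
        by_cases h8 : ((g j : ℕ) : ℝ) ^ 8 ≤ X
        · have h1 := hr1 a ha.le (g j) X hg1 hX1 hL h8
          have h2 : ((sqf X).filter fun D : ℕ => th (η / 8) (g j) < |S a (g j) (D : ℤ)|).card ≤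
              ((Icc 1 X).filter fun D : ℕ => th (η / 8) (g j) < |S a (g j) (D : ℤ)|).card := by
            apply card_le_card
            apply filter_subset_filter
            exact filter_subset _ _
          calc (((sqf X).filter fun D : ℕ => th (η / 8) (g j) < |S a (g j) (D : ℤ)|).card : ℝ)
              ≤ (((Icc 1 X).filter fun D : ℕ => th (η / 8) (g j) < |S a (g j) (D : ℤ)|).card : ℝ) := by
                exact_mod_cast h2
            _ ≤ 9 * (X : ℝ) ^ (1 - s₁) := h1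
            _ ≤ C₁ * (X : ℝ) ^ (1 - s) := by
                apply mul_le_mul (le_max_left _ _) _ (by positivity) hC₁0.le
                apply Real.rpow_le_rpow_of_exponent_le hXr
                have : s ≤ s₁ := min_le_left _ _
                linarith
        · push Not at h8
          have h1 : (X : ℝ) ^ (1 / 8 : ℝ) ≤ g j := by
            have h3 : ((X : ℝ)) ^ (1 / 8 : ℝ) ≤ (((g j : ℕ) : ℝ) ^ 8) ^ (1 / 8 : ℝ) :=
              Real.rpow_le_rpow hX0.le h8.le (by norm_num)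
            rw [← Real.rpow_natCast, ← Real.rpow_mul (Nat.cast_nonneg _)] at h3
            norm_num at h3
            norm_num
            exact h3
          have h2 : ((g j : ℕ) : ℝ) ≤ (X : ℝ) ^ 4 := by exact_mod_cast h4
          have h3 := hr2 a ha.le (g j) X hg3 hX1 h1 h2
          refine h3.trans ?_
          apply mul_le_mul (le_max_right _ _) _ (by positivity) hC₁0.le
          apply Real.rpow_le_rpow_of_exponent_le hXr
          linarith
      · rw [if_neg h4, zero_add]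
        push Not at h4
        have h1 : (X : ℝ) ^ 3 ≤ g j := by
          have h2 : X ^ 3 ≤ g j := (Nat.pow_le_pow_right hX1 (by norm_num)).trans h4.le
          exact_mod_cast h2
        refine (hr3 a ha.le (g j) X hg3 h1).trans ?_
        apply mul_le_mul_of_nonneg_left _ hC₃.le
        -- log (g j) ≤ X^c + 3
        have h5 : ((g j : ℕ) : ℝ) ≤ 2 * (1 + κ) ^ j := by
          have h6 : (1 : ℝ) ≤ (1 + κ) ^ j := one_le_pow₀ (by linarith)
          have := (Nat.ceil_lt_add_one (by positivity : 0 ≤ (1 + κ) ^ j)).le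
          exact this.trans (by linarith)
        have hgpos : (0 : ℝ) < ((g j : ℕ) : ℝ) := by exact_mod_cast (by omega : 0 < g j)
        have h6 : Real.log (g j) ≤ Real.log 2 + j * l := by
          have h7 := Real.log_le_log hgpos h5
          rwa [Real.log_mul (by norm_num) (by positivity), Real.log_pow] at h7
        have h7 : (j : ℝ) ≤ (X : ℝ) ^ c / l + 1 := by
          have h8 : j ≤ ⌊(X : ℝ) ^ c / l⌋₊ + 1 := by omega
          have h9 : (j : ℝ) ≤ (⌊(X : ℝ) ^ c / l⌋₊ : ℝ) + 1 := by exact_mod_cast h8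
          have h10 : (⌊(X : ℝ) ^ c / l⌋₊ : ℝ) ≤ (X : ℝ) ^ c / l := Nat.floor_le (by positivity)
          linarith
        have h8 : (j : ℝ) * l ≤ (X : ℝ) ^ c + l := by
          have := mul_le_mul_of_nonneg_right h7 hl0.le
          rwa [add_mul, div_mul_cancel₀ _ hl0.ne', one_mul] at this
        have h9 : Real.log 2 ≤ 1 := by
          have := Real.log_two_lt_d9
          linarith
        linarith
    · have hEj : E j = ∅ := by
        rw [hE]; simp only; rw [if_neg hL]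
      rw [hEj]
      simp only [card_empty, Nat.cast_zero]
      split_ifs <;> positivity
  have h1 : ((bad u a η A c X).card : ℝ) ≤ ∑ j ∈ range J, ((E j).card : ℝ) := by
    have := (card_le_card hsub).trans card_biUnion_le
    exact_mod_cast this
  have h2 := h1.trans (sum_le_sum hcardE)
  rw [sum_add_distrib, sum_const, card_range, nsmul_eq_mul, ← sum_filter, sum_const,
    nsmul_eq_mul] at h2
  -- the number of small scales
  have h3 : (((range J).filter fun j => g j ≤ X ^ 4).card : ℝ) ≤ 4 * Real.log X / l + 1 := by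
    have h4 : (range J).filter (fun j => g j ≤ X ^ 4) ⊆ range (⌊4 * Real.log X / l⌋₊ + 1) := by
      intro j hj
      rw [mem_filter] at hj
      rw [mem_range, Nat.lt_succ_iff]
      apply Nat.le_floor
      rw [le_div_iff₀ hl0]
      have h5 : (1 + κ) ^ j ≤ (X : ℝ) ^ 4 := by
        have := Nat.ceil_le.1 hj.2
        exact_mod_cast this
      have h6 := Real.log_le_log (by positivity) h5
      rw [Real.log_pow, Real.log_pow] at h6
      exact_mod_cast h6
    have h5 := card_le_card h4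
    rw [card_range] at h5
    have h6 : (((range J).filter fun j => g j ≤ X ^ 4).card : ℝ) ≤
        (⌊4 * Real.log X / l⌋₊ : ℝ) + 1 := by exact_mod_cast h5
    have h7 : (⌊4 * Real.log X / l⌋₊ : ℝ) ≤ 4 * Real.log X / l := Nat.floor_le (by positivity)
    linarith
  have hJ1 : (J : ℝ) ≤ (1 / l + 2) * (X : ℝ) ^ c := by
    have h7 : (⌊(X : ℝ) ^ c / l⌋₊ : ℝ) ≤ (X : ℝ) ^ c / l := Nat.floor_le (by positivity)
    rw [hJ]
    push_cast
    have : (1 / l + 2) * (X : ℝ) ^ c = (X : ℝ) ^ c / l + 2 * (X : ℝ) ^ c := by ring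
    rw [this]
    linarith
  have hlogX : Real.log X ≤ 2 / s * (X : ℝ) ^ (s / 2) := by
    have := Real.log_le_rpow_div hX0.le (by positivity : 0 < s / 2)
    refine this.trans (le_of_eq ?_)
    field_simp
  have hfirst : (((range J).filter fun j => g j ≤ X ^ 4).card : ℝ) * (C₁ * (X : ℝ) ^ (1 - s)) ≤
      (8 / (s * l) + 1) * C₁ * (X : ℝ) ^ (1 - δ) := by
    have h4 : 4 * Real.log X / l + 1 ≤ (8 / (s * l) + 1) * (X : ℝ) ^ (s / 2) := by
      have h5 : (1 : ℝ) ≤ (X : ℝ) ^ (s / 2) := Real.one_le_rpow hXr (by positivity)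
      have h6 : 4 * Real.log X / l ≤ 4 * (2 / s * (X : ℝ) ^ (s / 2)) / l := by gcongr
      have h7 : 4 * (2 / s * (X : ℝ) ^ (s / 2)) / l = 8 / (s * l) * (X : ℝ) ^ (s / 2) := by
        field_simp
        ring
      rw [h7] at h6
      rw [add_mul, one_mul]
      linarith
    calc (((range J).filter fun j => g j ≤ X ^ 4).card : ℝ) * (C₁ * (X : ℝ) ^ (1 - s))
        ≤ ((8 / (s * l) + 1) * (X : ℝ) ^ (s / 2)) * (C₁ * (X : ℝ) ^ (1 - s)) :=
          mul_le_mul_of_nonneg_right (h3.trans h4) (by positivity)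
      _ = (8 / (s * l) + 1) * C₁ * (X : ℝ) ^ (1 - s / 2) := by
          rw [show (1 : ℝ) - s / 2 = s / 2 + (1 - s) by ring, Real.rpow_add hX0]
          ring
      _ ≤ (8 / (s * l) + 1) * C₁ * (X : ℝ) ^ (1 - δ) := by
          apply mul_le_mul_of_nonneg_left _ (by positivity)
          apply Real.rpow_le_rpow_of_exponent_le hXr
          have : δ ≤ s / 2 := min_le_left _ _
          linarith
  have hsecond : (J : ℝ) * (C₃ * ((X : ℝ) ^ c + 3)) ≤
      (1 / l + 2) * (4 * C₃) * (X : ℝ) ^ (1 - δ) := by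
    calc (J : ℝ) * (C₃ * ((X : ℝ) ^ c + 3)) ≤
        ((1 / l + 2) * (X : ℝ) ^ c) * (C₃ * (4 * (X : ℝ) ^ c)) := by
          apply mul_le_mul hJ1 _ (by positivity) (by positivity)
          apply mul_le_mul_of_nonneg_left _ hC₃.le
          linarith
      _ = (1 / l + 2) * (4 * C₃) * (X : ℝ) ^ (2 * c) := by
          rw [show 2 * c = c + c by ring, Real.rpow_add hX0]
          ring
      _ ≤ (1 / l + 2) * (4 * C₃) * (X : ℝ) ^ (1 - δ) := by
          apply mul_le_mul_of_nonneg_left _ (by positivity)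
          apply Real.rpow_le_rpow_of_exponent_le hXr
          have : δ ≤ 1 - 2 * c := min_le_right _ _
          linarith
  have hfin : C₄ * (X : ℝ) ^ (1 - δ) = (8 / (s * l) + 1) * C₁ * (X : ℝ) ^ (1 - δ) +
      (1 / l + 2) * (4 * C₃) * (X : ℝ) ^ (1 - δ) := by rw [hC₄]; ring
  have hX₀0 : 0 ≤ (X₀ : ℝ) * (X : ℝ) ^ (1 - δ) := by positivity
  rw [add_mul]
  linarith

end Pool.Agent.H821.ST
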