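import Mathlib

/-! Tuples of primes whose product is a square. -/

set_option autoImplicit false

namespace Pool.Agent.H821.ST

open Finset

/-- the tuples of elements of `P` with product a square -/
def sqT (P : Finset ℕ) (n : ℕ) : Finset (Fin n → ℕ) :=
  (Fintype.piFinset fun _ : Fin n => P).filter fun g => IsSquare (∏ i, g i)

theorem mem_sqT {P : Finset ℕ} {n : ℕ} {g : Fin n → ℕ} :
    g ∈ sqT P n ↔ (∀ i, g i ∈ P) ∧ IsSquare (∏ i, g i) := by
  unfold sqT
  rw [mem_filter, Fintype.mem_piFinset]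

theorem isSquare_of_mul_self {p m : ℕ} (hp : 0 < p) (h : IsSquare (p * (p * m))) : IsSquare m := by
  obtain ⟨c, hc⟩ := h
  have h1 : p ∣ c := by
    have : p ^ 2 ∣ c ^ 2 := ⟨m, by rw [sq, sq, ← hc]; ring⟩
    exact (Nat.pow_dvd_pow_iff two_ne_zero).1 this
  obtain ⟨e, rfl⟩ := h1
  refine ⟨e, ?_⟩
  have : p * p * m = p * p * (e * e) := by
    calc p * p * m = p * (p * m) := by ring
      _ = p * e * (p * e) := hc
      _ = p * p * (e * e) := by ring
  exact Nat.eq_of_mul_eq_mul_left (Nat.mul_pos hp hp) this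

theorem dvd_of_isSquare_mul {p m : ℕ} (hp : p.Prime) (h : IsSquare (p * m)) : p ∣ m := by
  obtain ⟨c, hc⟩ := h
  have h1 : p ∣ c := by
    have h2 : p ∣ c * c := ⟨m, hc.symm⟩
    rcases (Nat.Prime.dvd_mul hp).1 h2 with h | h <;> exact h
  obtain ⟨e, rfl⟩ := h1
  refine ⟨e * e, ?_⟩
  have : p * m = p * (p * (e * e)) := by
    calc p * m = p * e * (p * e) := hc
      _ = p * (p * (e * e)) := by ring
  exact Nat.eq_of_mul_eq_mul_left hp.pos this

theorem card_sqT_succ (P : Finset ℕ) (hP : ∀ p ∈ P, p.Prime) (n : ℕ) :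
    (sqT P (n + 2)).card ≤ (n + 1) * P.card * (sqT P n).card := by
  classical
  let F : Fin (n + 1) × ℕ × (Fin n → ℕ) → (Fin (n + 2) → ℕ) :=
    fun t => Fin.cons (α := fun _ => ℕ) t.2.1 (Fin.insertNth (α := fun _ => ℕ) t.1 t.2.1 t.2.2)
  have hsub : sqT P (n + 2) ⊆
      ((univ : Finset (Fin (n + 1))) ×ˢ P ×ˢ sqT P n).image F := by
    intro g hg
    rw [mem_sqT] at hg
    obtain ⟨h1, h2⟩ := hg
    rw [Fin.prod_univ_succ] at h2
    have hp : (g 0).Prime := hP _ (h1 0)
    have h3 := dvd_of_isSquare_mul hp h2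
    obtain ⟨j, -, hj⟩ := (hp.prime.dvd_finsetProd_iff _).1 h3
    have hj' : g 0 = g j.succ :=
      (Nat.prime_dvd_prime_iff_eq hp (hP _ (h1 _))).1 hj
    rw [Fin.prod_univ_succAbove _ j, ← hj'] at h2
    have h4 := isSquare_of_mul_self hp.pos h2
    rw [mem_image]
    refine ⟨(j, g 0, fun i => g (j.succAbove i).succ), ?_, ?_⟩
    · rw [mem_product, mem_product]
      refine ⟨mem_univ _, h1 0, ?_⟩
      rw [mem_sqT]
      exact ⟨fun i => h1 _, h4⟩
    · funext i
      refine Fin.cases ?_ (fun i => ?_) i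
      · rfl
      · show Fin.insertNth (α := fun _ => ℕ) j (g 0) (fun i => g (j.succAbove i).succ) i = g i.succ
        refine Fin.succAboveCases j ?_ (fun k => ?_) i
        · rw [Fin.insertNth_apply_same]
          exact hj'
        · rw [Fin.insertNth_apply_succAbove]
  refine (card_le_card hsub).trans (card_image_le.trans ?_)
  rw [card_product, card_product, card_univ, Fintype.card_fin, mul_assoc]

theorem card_sqT (P : Finset ℕ) (hP : ∀ p ∈ P, p.Prime) (k : ℕ) :
    (sqT P (2 * k)).card ≤ (2 * k) ^ k * P.card ^ k := by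
  induction k with
  | zero =>
    simp only [mul_zero, pow_zero, mul_one]
    refine (card_filter_le _ _).trans ?_
    simp
  | succ k ih =>
    have h1 := card_sqT_succ P hP (2 * k)
    have e : 2 * (k + 1) = 2 * k + 2 := by ring
    rw [e]
    refine h1.trans ?_
    calc (2 * k + 1) * P.card * (sqT P (2 * k)).card
        ≤ (2 * k + 1) * P.card * ((2 * k) ^ k * P.card ^ k) := Nat.mul_le_mul_left _ ih
      _ = ((2 * k + 1) * (2 * k) ^ k) * P.card ^ (k + 1) := by ring
      _ ≤ ((2 * k + 2) * (2 * k + 2) ^ k) * P.card ^ (k + 1) := by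
          gcongr <;> omega
      _ = (2 * k + 2) ^ (k + 1) * P.card ^ (k + 1) := by ring

end Pool.Agent.H821.ST
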